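import Pool.Agent.Lib.H31X.X7
import Pool.Agent.Lib.H68T.PNTE

/-!
# Chunk X11 (M): the prime number theorem with error term
-/

open Finset

namespace Pool.Agent.Lib.H31X

open Pool.Agent.Lib.H68T
open Pool.Agent.Lib.H31W (PntProp)

private theorem X11_num1 {P a A u : ℝ} (ha0 : 0 < a) (ha1 : a ≤ 1) (haA : a * A = 1)
    (hPa : P * a ≤ 1 / 10 ^ 8) (hu : 0 ≤ u) :
    121 * (a * A) * (P * a) * a ^ 5 * (a ^ 3 * u) ≤ a ^ 3 / 4 * u := by
  rw [haA]
  have h3 : a ^ 5 ≤ 1 := pow_le_one₀ ha0.le ha1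
  have h4 : P * a * a ^ 5 ≤ 1 / 10 ^ 8 * 1 := mul_le_mul hPa h3 (by positivity) (by norm_num)
  have h5 : 0 ≤ a ^ 3 * u := by positivity
  have h6 : P * a * a ^ 5 * (a ^ 3 * u) ≤ 1 / 10 ^ 8 * 1 * (a ^ 3 * u) :=
    mul_le_mul_of_nonneg_right h4 h5
  have h7 : 121 * 1 * (P * a) * a ^ 5 * (a ^ 3 * u) = 121 * (P * a * a ^ 5 * (a ^ 3 * u)) := by ring
  have h8 : a ^ 3 / 4 * u = (a ^ 3 * u) / 4 := by ring
  rw [h7, h8]
  linarith

private theorem X11_num2 {P a A u : ℝ} (ha0 : 0 < a) (ha1 : a ≤ 1) (haA : a * A = 1)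
    (hPa : P * a ≤ 1 / 10 ^ 8) (hu : 0 ≤ u) :
    14884 * (a * A) ^ 2 * (P * a) * a ^ 4 * (a ^ 3 * u) ≤ a ^ 3 / 4 * u := by
  rw [haA]
  have h3 : a ^ 4 ≤ 1 := pow_le_one₀ ha0.le ha1
  have h4 : P * a * a ^ 4 ≤ 1 / 10 ^ 8 * 1 := mul_le_mul hPa h3 (by positivity) (by norm_num)
  have h5 : 0 ≤ a ^ 3 * u := by positivity
  have h6 : P * a * a ^ 4 * (a ^ 3 * u) ≤ 1 / 10 ^ 8 * 1 * (a ^ 3 * u) :=
    mul_le_mul_of_nonneg_right h4 h5
  have h7 : 14884 * 1 ^ 2 * (P * a) * a ^ 4 * (a ^ 3 * u) =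
      14884 * (P * a * a ^ 4 * (a ^ 3 * u)) := by ring
  have h8 : a ^ 3 / 4 * u = (a ^ 3 * u) / 4 := by ring
  rw [h7, h8]
  linarith

/-- **Prime number theorem**, error `x exp (-(log x)^(1/5))`.

Proof (as `pnt_error`, file `H68T/PNTE.lean`). Given large `x`, `L = (log x)^(1/2)`, `g` from `inv_lam`. `perron` with `a = Λ`,
`κ = 1`, `f = g`, `η = L^(-3/4) = (log x)^(-3/8)`, `T = e^L`, `B = L + 1`: for `√x ≤ u ≤ 2x`
`|∑_{n ≤ u} Λ(n)(1 - n/u) - (u/2 - 1 + 1/(2u))| ≤ C u (B u^(-η) + B/T² + (1 + log u)²/T)`; with `PNTE_ces`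
(`∑_{n ≤ u} (1 - n/u) = u/2 + O(1)`): `|∑_{n ≤ u} (Λ(n) - 1)(1 - n/u)| ≤ u exp (-3 (log x)^(1/5))` for large `x`
(`u^(-η) ≤ exp (-(1/2)(log x)^(5/8))`, `1/T = exp (-(log x)^(1/2))`, `1/u ≤ x^(-1/2)`). `unsmooth` for `a_n = Λ(n) - 1`
(`κ = exp (-3 (log x)^(1/5))`, `u₀ = √x`, `u₁ = x`) at `u = x`:
`|∑_{n ≤ x} (Λ(n) - 1)| ≤ 20 exp (-(3/2)(log x)^(1/5)) x (1 + log x)`, and `|⌊x⌋ - x| ≤ 1`. -/
theorem pnt_prop : PntProp := by
  obtain ⟨P, hP, hper⟩ := perron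
  obtain ⟨L₀, hL₀, hinv⟩ := inv_lam
  set E0 : ℝ := 10 ^ 8 * (P + 1) + L₀ + 100 with hE0
  have hE0big : 10 ^ 8 ≤ E0 := by linarith
  have hE0P : 10 ^ 8 * P ≤ E0 := by linarith
  have hE0L : L₀ ≤ E0 := by linarith
  have hE00 : 0 < E0 := by linarith
  refine ⟨Real.exp (E0 ^ 5), Real.one_le_exp (by positivity), fun x hx => ?_⟩
  have hx0 : 0 < x := lt_of_lt_of_le (Real.exp_pos _) hx
  set l : ℝ := Real.log x with hl
  have hl1 : E0 ^ 5 ≤ l := (Real.le_log_iff_exp_le hx0).2 hx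
  have hl0 : 0 < l := lt_of_lt_of_le (by positivity) hl1
  set E : ℝ := l ^ (1 / 5 : ℝ) with hE
  have hEpos : 0 < E := Real.rpow_pos_of_pos hl0 _
  have hE5 : E ^ 5 = l := by
    rw [hE, ← Real.rpow_natCast, ← Real.rpow_mul hl0.le]
    norm_num
  have hEE : E0 ≤ E := by
    by_contra h
    push Not at h
    have := pow_lt_pow_left₀ h hEpos.le (n := 5) (by norm_num)
    rw [hE5] at this
    linarith
  have hEbig : 10 ^ 8 ≤ E := hE0big.trans hEE
  have hE1 : 1 ≤ E := by linarith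
  have hlE : 20 * E ≤ l := by
    rw [← hE5]
    have h1 : (1 : ℝ) ≤ E ^ 3 := one_le_pow₀ hE1
    have h2 : 20 * E ≤ E * E := mul_le_mul_of_nonneg_right (by linarith) hEpos.le
    have h3 : E ^ 5 = E * E * E ^ 3 := by ring
    have h4 : E * E ≤ E * E * E ^ 3 := le_mul_of_one_le_right (by positivity) h1
    linarith
  -- the number `L`
  set L : ℝ := Real.sqrt l with hL
  have hLL : L * L = l := Real.mul_self_sqrt hl0.le
  have hLE : E ^ 2 ≤ L := by
    rw [hL]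
    refine Real.le_sqrt_of_sq_le ?_
    rw [← hE5]
    have h1 : E ^ 5 = (E ^ 2) ^ 2 * E := by ring
    have h2 : 0 ≤ (E ^ 2) ^ 2 := by positivity
    rw [h1]
    exact le_mul_of_one_le_right h2 hE1
  have hLE2 : 20 * E ≤ L := by
    have h1 : 20 * E ≤ E * E := mul_le_mul_of_nonneg_right (by linarith) hEpos.le
    have h2 : E * E = E ^ 2 := by ring
    linarith
  have hL1 : 1 ≤ L := by linarith
  have hL0' : 0 < L := by linarith
  have hLl : L ≤ l := by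
    have h1 : 1 * L ≤ L * L := mul_le_mul_of_nonneg_right hL1 hL0'.le
    linarith
  obtain ⟨g, hg1, hg2, hg3⟩ := hinv L (by linarith)
  set η : ℝ := L ^ (-(3 / 4) : ℝ) with hη
  have hη0 : 0 < η := Real.rpow_pos_of_pos hL0' _
  have hη1 : η ≤ 1 / 2 := by
    have h1 : η ≤ L ^ (-(1 / 2) : ℝ) := Real.rpow_le_rpow_of_exponent_le hL1 (by norm_num)
    have h2 : L ^ (-(1 / 2) : ℝ) = (Real.sqrt L)⁻¹ := by
      rw [Real.rpow_neg hL0'.le, Real.sqrt_eq_rpow]
    have h3 : 2 ≤ Real.sqrt L := Real.le_sqrt_of_sq_le (by linarith)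
    have h4 : (Real.sqrt L)⁻¹ ≤ 2⁻¹ := inv_anti₀ (by norm_num) h3
    rw [h2] at h1
    linarith
  have hηl : L ≤ η * l := by
    have h1 : η * l = L ^ (5 / 4 : ℝ) := by
      have h2 : l = L ^ (2 : ℝ) := by
        rw [Real.rpow_two, sq, hLL]
      rw [h2, hη, ← Real.rpow_add hL0']
      norm_num
    rw [h1]
    have h3 := Real.rpow_le_rpow_of_exponent_le hL1 (by norm_num : (1 : ℝ) ≤ 5 / 4)
    rwa [Real.rpow_one] at h3
  -- exponentials
  set a : ℝ := Real.exp (-E) with ha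
  set A : ℝ := Real.exp E with hA
  have ha0 : 0 < a := Real.exp_pos _
  have hA0 : 0 < A := Real.exp_pos _
  have haA : a * A = 1 := by
    rw [ha, hA, ← Real.exp_add]
    simp
  have hAE : E ≤ A := by
    have := Real.add_one_le_exp E
    linarith
  have haE : a * E ≤ 1 := by
    rw [← haA]
    exact mul_le_mul_of_nonneg_left hAE ha0.le
  have haP : a * (10 ^ 8 * P) ≤ 1 :=
    (mul_le_mul_of_nonneg_left (hE0P.trans hEE) ha0.le).trans haE
  have ha1 : a ≤ 1 := Real.exp_le_one_iff.2 (by linarith)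
  have hlA : l ≤ 120 * A := by
    have h1 := Real.pow_div_factorial_le_exp E hEpos.le 5
    rw [hE5] at h1
    have h2 : ((Nat.factorial 5 : ℕ) : ℝ) = 120 := by norm_num [Nat.factorial]
    rw [h2, div_le_iff₀ (by norm_num)] at h1
    linarith
  have ha10 : Real.exp (-(10 * E)) = a ^ 10 := by
    rw [ha, ← Real.exp_nat_mul]
    congr 1
    push_cast
    ring
  set κ : ℝ := a ^ 3 with hκ
  have hκ0 : 0 < κ := by positivity
  have hκ1 : κ ≤ 1 := pow_le_one₀ ha0.le ha1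
  set T : ℝ := Real.exp L with hT
  have hT0 : 0 < T := Real.exp_pos _
  have hT1 : 1 ≤ T := Real.one_le_exp hL0'.le
  have hTa : T⁻¹ ≤ a ^ 10 := by
    rw [hT, ← Real.exp_neg, ← ha10]
    exact Real.exp_le_exp.2 (by linarith)
  set u₀ : ℝ := Real.exp (l / 2) with hu₀
  have hxl : x = Real.exp l := (Real.exp_log hx0).symm
  have hu₀A : A ^ 10 ≤ u₀ := by
    rw [hA, ← Real.exp_nat_mul, hu₀]
    refine Real.exp_le_exp.2 ?_
    push_cast
    linarith
  have hA2 : 2 ≤ A := by linarith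
  have hu₀3 : 3 ≤ u₀ := by
    have h1 : (2 : ℝ) ^ 10 ≤ A ^ 10 := pow_le_pow_left₀ (by norm_num) hA2 10
    linarith
  have hu₀x : u₀ ≤ x := by
    rw [hxl, hu₀]
    exact Real.exp_le_exp.2 (by linarith)
  have hκu12 : 12 ≤ κ * u₀ := by
    have h1 : κ * A ^ 10 = A ^ 7 := by
      have h2 : κ * A ^ 10 = (a * A) ^ 3 * A ^ 7 := by
        rw [hκ]
        ring
      rw [h2, haA]
      ring
    have h3 : (2 : ℝ) ^ 7 ≤ A ^ 7 := pow_le_pow_left₀ (by norm_num) hA2 7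
    have h4 : κ * A ^ 10 ≤ κ * u₀ := mul_le_mul_of_nonneg_left hu₀A hκ0.le
    linarith
  have hB1 : 1 ≤ L + 1 := by linarith
  have hmem : ∀ s : ℂ, 1 - η ≤ s.re → s.re ≤ 2 → |s.im| ≤ T → s ∈ Rl L := fun s h1 h2 h3 =>
    ⟨h1, h2, h3⟩
  have hLam : ∀ n : ℕ, 1 ≤ n → 0 ≤ ArithmeticFunction.vonMangoldt n ∧
      ArithmeticFunction.vonMangoldt n ≤ Real.log n := fun n _ =>
    ⟨ArithmeticFunction.vonMangoldt_nonneg, ArithmeticFunction.vonMangoldt_le_log⟩
  have hPa : P * a ≤ 1 / 10 ^ 8 := by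
    rw [le_div_iff₀ (by norm_num)]
    linarith
  have hces : ∀ u : ℝ, u₀ ≤ u → u ≤ 2 * x →
      ‖∑ n ∈ Icc 1 ⌊u⌋₊, ((ArithmeticFunction.vonMangoldt n - 1 : ℝ) : ℂ) * (1 - n / u)‖ ≤
        κ * u := by
    intro u hu1 hu2
    have hu3 : 3 ≤ u := hu₀3.trans hu1
    have hu0 : 0 < u := by linarith
    have h1 := hper (fun n => (ArithmeticFunction.vonMangoldt n : ℂ)) g 1 η T (L + 1) u (by simp)
      hη0 hη1 hT1 hu3 hB1 (fun n hn => by
        obtain ⟨h2, h3⟩ := hLam n hn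
        rw [Complex.norm_real, Real.norm_of_nonneg h2]
        linarith) (fun s hs => hg1 _ (hmem s hs.1 hs.2.1 hs.2.2))
      (fun s h1 h2 h3 => hg3 _ (hmem s h1 h2 h3))
      (fun s hs => hg2 s hs)
    have hone := PNTE_ces u (by linarith)
    have hsplit : (∑ n ∈ Icc 1 ⌊u⌋₊, ((ArithmeticFunction.vonMangoldt n - 1 : ℝ) : ℂ) *
        (1 - n / u)) =
        (∑ n ∈ Icc 1 ⌊u⌋₊, (ArithmeticFunction.vonMangoldt n : ℂ) * (1 - n / u) -
          1 * (u / 2 - 1 + 1 / (2 * u))) -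
        (∑ n ∈ Icc 1 ⌊u⌋₊, (1 : ℂ) * (1 - n / u) - 1 * (u / 2 - 1 + 1 / (2 * u))) := by
      rw [sub_sub_sub_cancel_right, ← Finset.sum_sub_distrib]
      refine Finset.sum_congr rfl fun n _ => ?_
      push_cast
      ring
    rw [hsplit]
    refine (norm_sub_le _ _).trans ?_
    refine (add_le_add h1 hone).trans ?_
    have hlogu : l / 2 ≤ Real.log u := (Real.le_log_iff_exp_le hu0).2 hu1
    have hlogu2 : Real.log u ≤ l + 1 := by
      have h2 : Real.log u ≤ Real.log (2 * x) := Real.log_le_log hu0 hu2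
      rw [Real.log_mul (by norm_num) hx0.ne', ← hl] at h2
      have := Real.log_two_lt_d9
      linarith
    have hlogu0 : 0 ≤ Real.log u := by linarith
    have hBA : L + 1 ≤ 121 * A := by linarith
    have t1 : P * ((L + 1) * u ^ (1 - η)) ≤ κ / 4 * u := by
      have h2 : u ^ (1 - η) ≤ u * a ^ 10 := by
        rw [Real.rpow_sub hu0, Real.rpow_one, div_eq_mul_inv, ← Real.rpow_neg hu0.le]
        refine mul_le_mul_of_nonneg_left ?_ hu0.le
        rw [Real.rpow_def_of_pos hu0, ← ha10]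
        refine Real.exp_le_exp.2 ?_
        have h3 : η * (l / 2) ≤ η * Real.log u := mul_le_mul_of_nonneg_left hlogu hη0.le
        have h4 : η * (l / 2) = (η * l) / 2 := by ring
        have h5 : Real.log u * -η = -(η * Real.log u) := by ring
        rw [h5]
        linarith
      calc P * ((L + 1) * u ^ (1 - η)) ≤ P * ((121 * A) * (u * a ^ 10)) := by
            gcongr
        _ = 121 * (a * A) * (P * a) * a ^ 5 * (a ^ 3 * u) := by ring
        _ ≤ κ / 4 * u := X11_num1 ha0 ha1 haA hPa hu0.le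
    have t2 : P * ((L + 1) * u / T ^ 2) ≤ κ / 4 * u := by
      have h2 : (T ^ 2)⁻¹ ≤ a ^ 10 := by
        have h3 : (T ^ 2)⁻¹ ≤ T⁻¹ := inv_anti₀ hT0 (le_self_pow₀ hT1 (by norm_num))
        exact h3.trans hTa
      calc P * ((L + 1) * u / T ^ 2) = P * ((L + 1) * u * (T ^ 2)⁻¹) := by
            rw [div_eq_mul_inv]
        _ ≤ P * ((121 * A) * u * a ^ 10) := by gcongr
        _ = 121 * (a * A) * (P * a) * a ^ 5 * (a ^ 3 * u) := by ring
        _ ≤ κ / 4 * u := X11_num1 ha0 ha1 haA hPa hu0.le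
    have t3 : P * (u * (1 + Real.log u) ^ 2 / T) ≤ κ / 4 * u := by
      have h2 : 1 + Real.log u ≤ 122 * A := by linarith
      calc P * (u * (1 + Real.log u) ^ 2 / T) = P * (u * (1 + Real.log u) ^ 2 * T⁻¹) := by
            rw [div_eq_mul_inv]
        _ ≤ P * (u * (122 * A) ^ 2 * a ^ 10) := by gcongr
        _ = 14884 * (a * A) ^ 2 * (P * a) * a ^ 4 * (a ^ 3 * u) := by ring
        _ ≤ κ / 4 * u := X11_num2 ha0 ha1 haA hPa hu0.le
    have t4 : 3 ≤ κ / 4 * u := by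
      have h3 : κ * u₀ ≤ κ * u := mul_le_mul_of_nonneg_left hu1 hκ0.le
      linarith
    rw [mul_add, mul_add]
    linarith
  have huns := unsmooth (fun n => ((ArithmeticFunction.vonMangoldt n - 1 : ℝ) : ℂ)) κ u₀ x
    hκ0 hκ1 (by linarith) (by linarith)
    (fun n hn => by
        obtain ⟨h2, h3⟩ := hLam n hn
        rw [Complex.norm_real, Real.norm_eq_abs, abs_le]
        constructor <;> linarith) hces x hu₀x le_rfl
  have hsq : Real.sqrt κ = Real.exp (-(3 / 2 * E)) := by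
    have h1 : κ = Real.exp (-(3 / 2 * E)) ^ 2 := by
      rw [hκ, ha, ← Real.exp_nat_mul, ← Real.exp_nat_mul]
      congr 1
      push_cast
      ring
    rw [h1, Real.sqrt_sq (Real.exp_pos _).le]
  rw [hsq, ← hl] at huns
  -- the Chebyshev function
  have hpsi : (∑ n ∈ Icc 1 ⌊x⌋₊, ((ArithmeticFunction.vonMangoldt n - 1 : ℝ) : ℂ)) =
      ((Chebyshev.psi x - ⌊x⌋₊ : ℝ) : ℂ) := by
    have h1 : ∑ n ∈ Icc 1 ⌊x⌋₊, (ArithmeticFunction.vonMangoldt n - 1 : ℝ) =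
        Chebyshev.psi x - ⌊x⌋₊ := by
      rw [Finset.sum_sub_distrib, Chebyshev.psi]
      congr 1
      simp
    rw [← h1]
    push_cast
    rfl
  rw [hpsi, Complex.norm_real, Real.norm_eq_abs] at huns
  have hfl : |(⌊x⌋₊ : ℝ) - x| ≤ 1 := by
    have h1 := Nat.floor_le hx0.le
    have h2 := Nat.lt_floor_add_one x
    rw [abs_le]
    constructor <;> linarith
  have htri : |Chebyshev.psi x - x| ≤ |Chebyshev.psi x - ⌊x⌋₊| + |(⌊x⌋₊ : ℝ) - x| := by
    have := abs_add_le (Chebyshev.psi x - ⌊x⌋₊) ((⌊x⌋₊ : ℝ) - x)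
    rwa [sub_add_sub_cancel] at this
  have hgoal : |Chebyshev.psi x - x| ≤ 20 * Real.exp (-(3 / 2 * E)) * x * (1 + l) + 1 := by
    linarith
  refine hgoal.trans ?_
  -- numbers
  set b : ℝ := Real.exp (-(E / 4)) with hb
  have hb0 : 0 < b := Real.exp_pos _
  have hbE : 1 + l ≤ 122881 * Real.exp (E / 4) := by
    have h1 := Real.pow_div_factorial_le_exp (E / 4) (by positivity) 5
    have h2 : ((Nat.factorial 5 : ℕ) : ℝ) = 120 := by norm_num [Nat.factorial]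
    have h3 : (E / 4) ^ 5 = l / 1024 := by
      rw [div_pow, hE5]
      norm_num
    rw [h2, h3, div_le_iff₀ (by norm_num)] at h1
    have h4 := Real.one_le_exp (x := E / 4) (by positivity)
    linarith
  have hb1 : b * Real.exp (E / 4) = 1 := by
    rw [hb, ← Real.exp_add]
    simp
  have hb2 : b * (E / 4) ≤ 1 := by
    rw [← hb1]
    refine mul_le_mul_of_nonneg_left ?_ hb0.le
    have := Real.add_one_le_exp (E / 4)
    linarith
  have hb3 : 20 * 122881 * b ≤ 1 / 2 := by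
    have h1 : b * (10 ^ 8 / 4) ≤ 1 := by
      refine le_trans ?_ hb2
      exact mul_le_mul_of_nonneg_left (by linarith) hb0.le
    linarith
  have h32 : Real.exp (-(3 / 2 * E)) * Real.exp (E / 4) = a * b := by
    rw [ha, hb, ← Real.exp_add, ← Real.exp_add]
    congr 1
    ring
  have hfin1 : 20 * Real.exp (-(3 / 2 * E)) * x * (1 + l) ≤ x * a / 2 := by
    calc 20 * Real.exp (-(3 / 2 * E)) * x * (1 + l)
        ≤ 20 * Real.exp (-(3 / 2 * E)) * x * (122881 * Real.exp (E / 4)) := by gcongr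
      _ = 20 * 122881 * (Real.exp (-(3 / 2 * E)) * Real.exp (E / 4)) * x := by ring
      _ = 20 * 122881 * (a * b) * x := by rw [h32]
      _ = (20 * 122881 * b) * (a * x) := by ring
      _ ≤ 1 / 2 * (a * x) := by gcongr
      _ = x * a / 2 := by ring
  have hfin2 : 1 ≤ x * a / 2 := by
    have h1 : A ^ 10 ≤ x := hu₀A.trans hu₀x
    have h2 : A ^ 10 * a ≤ x * a := mul_le_mul_of_nonneg_right h1 ha0.le
    have h3 : A ^ 10 * a = A ^ 9 := by
      have : A ^ 10 * a = (a * A) * A ^ 9 := by ring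
      rw [this, haA, one_mul]
    have h4 : (2 : ℝ) ^ 9 ≤ A ^ 9 := pow_le_pow_left₀ (by norm_num) hA2 9
    linarith
  linarith

end Pool.Agent.Lib.H31X
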