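import Pool.Agent.Lib.H31X.Defs

/-!
# Chunk X2 (M): partial sums of the zeta function; partial summation
-/

open Finset

namespace Pool.Agent.Lib.H31X

open Pool.Agent.Lib.H68T

theorem x2_partial (s : ℂ) (K : ℕ) :
    1 + ∑ n ∈ range K, gl2_B n s = (s - 1) * ∑ n ∈ Icc 1 K, (n : ℂ) ^ (-s) +
      (((K : ℝ) + 1 : ℝ) : ℂ) ^ (-(s - 1)) := by
  induction K with
  | zero => simp
  | succ K ih =>
    rw [sum_range_succ, ← add_assoc, ih, Finset.sum_Icc_succ_top (by omega), gl2_B]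
    have e1 : (((K : ℝ) + 1 : ℝ) : ℂ) = ((K + 1 : ℕ) : ℂ) := by
      push_cast
      rfl
    have e2 : (((K + 1 : ℕ) : ℝ) + 1 : ℝ) = (K : ℝ) + 2 := by
      push_cast
      ring
    rw [e2, e1]
    ring

theorem x2_tail (s : ℂ) (hs : 0 < s.re) (K : ℕ) :
    ‖∑' n, gl2_B (n + K) s‖ ≤ ‖s - 1‖ * ‖s‖ / s.re * ((K : ℝ) + 1) ^ (-s.re) := by
  have hD : 0 ≤ ‖s - 1‖ * ‖s‖ / s.re := by positivity
  have h1 : ∀ M : ℕ, ∑ n ∈ range M, ‖gl2_B (n + K) s‖ ≤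
      ‖s - 1‖ * ‖s‖ / s.re * (((K : ℝ) + 1) ^ (-s.re) - ((M : ℝ) + K + 1) ^ (-s.re)) := by
    intro M
    induction M with
    | zero => simp
    | succ M ih =>
      rw [sum_range_succ]
      have h2 := gl2_B_norm (M + K) s hs
      have e1 : (((M + K : ℕ) : ℝ) + 1) = (M : ℝ) + K + 1 := by push_cast; ring
      have e2 : (((M + K : ℕ) : ℝ) + 2) = ((M + 1 : ℕ) : ℝ) + K + 1 := by push_cast; ring
      rw [e1, e2] at h2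
      refine (add_le_add ih h2).trans (le_of_eq ?_)
      ring
  have h2 : ∀ M : ℕ, ∑ n ∈ range M, ‖gl2_B (n + K) s‖ ≤
      ‖s - 1‖ * ‖s‖ / s.re * ((K : ℝ) + 1) ^ (-s.re) := by
    intro M
    refine (h1 M).trans (mul_le_mul_of_nonneg_left ?_ hD)
    have : 0 ≤ ((M : ℝ) + K + 1) ^ (-s.re) := by positivity
    linarith
  have h3 : Summable fun n => ‖gl2_B (n + K) s‖ :=
    summable_of_sum_range_le (fun _ => norm_nonneg _) h2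
  exact (norm_tsum_le_tsum_norm h3).trans (Real.tsum_le_of_sum_range_le (fun _ => norm_nonneg _) h2)

/-- **Partial sums of zeta.**

Proof. `gl2_eqOn`: `gl2_Z s = 1 + ∑' n, gl2_B n s`, and (inside the proof of `gl2_eq`, file `H68T/GL2.lean`, `h4`)
`1 + ∑_{n < K} gl2_B n s = (s-1) ∑_{n=1}^K n^(-s) + (K+1)^(-(s-1))`. The tail `∑_{n ≥ K} gl2_B n s` is at most
`‖s-1‖ ‖s‖/σ (K+1)^(-σ)` (`gl2_B_norm`, telescoping, as `gl1_tele`), `σ = Re s`. Divide by `s - 1`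
(`gl2_Z_eq`): `‖ζ(s) - ∑_{n ≤ K} n^(-s)‖ ≤ (K+1)^(1-σ)/‖s-1‖ + (‖s‖/σ)(K+1)^(-σ)`. -/
theorem zeta_partial (s : ℂ) (K : ℕ) (h1 : 1 / 2 ≤ s.re) (hs : s ≠ 1) :
    ‖riemannZeta s - ∑ n ∈ Icc 1 K, (n : ℂ) ^ (-s)‖ ≤
      ((K : ℝ) + 1) ^ (1 - s.re) / ‖s - 1‖ + 2 * ‖s‖ * ((K : ℝ) + 1) ^ (-s.re) := by
  have hs0 : 0 < s.re := by linarith
  have hsumB := (gl1_tele s.re hs0 (‖s - 1‖ * ‖s‖ / s.re) (by positivity) (fun n => gl2_B n s)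
    (fun n => gl2_B_norm n s hs0)).1
  have h2 := gl2_eqOn s hs0
  rw [gl2_Z_eq s hs, ← hsumB.sum_add_tsum_nat_add K, ← add_assoc, x2_partial] at h2
  have hs1 : 0 < ‖s - 1‖ := norm_pos_iff.2 (sub_ne_zero.2 hs)
  have h3 : (s - 1) * (riemannZeta s - ∑ n ∈ Icc 1 K, (n : ℂ) ^ (-s)) =
      (((K : ℝ) + 1 : ℝ) : ℂ) ^ (-(s - 1)) + ∑' n, gl2_B (n + K) s := by
    rw [mul_sub, h2]
    ring
  have h4 : ‖s - 1‖ * ‖riemannZeta s - ∑ n ∈ Icc 1 K, (n : ℂ) ^ (-s)‖ ≤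
      ((K : ℝ) + 1) ^ (1 - s.re) + ‖s - 1‖ * ‖s‖ / s.re * ((K : ℝ) + 1) ^ (-s.re) := by
    rw [← norm_mul, h3]
    refine (norm_add_le _ _).trans (add_le_add (le_of_eq ?_) (x2_tail s hs0 K))
    rw [Complex.norm_cpow_eq_rpow_re_of_pos (by positivity)]
    congr 1
    simp
  have h5 : ‖s - 1‖ * ‖s‖ / s.re * ((K : ℝ) + 1) ^ (-s.re) ≤
      ‖s - 1‖ * (2 * ‖s‖ * ((K : ℝ) + 1) ^ (-s.re)) := by
    have h6 : ‖s - 1‖ * ‖s‖ / s.re ≤ ‖s - 1‖ * (2 * ‖s‖) := by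
      rw [div_le_iff₀ hs0]
      have h7 : 0 ≤ ‖s - 1‖ * ‖s‖ := by positivity
      nlinarith
    have h8 : 0 ≤ ((K : ℝ) + 1) ^ (-s.re) := by positivity
    calc ‖s - 1‖ * ‖s‖ / s.re * ((K : ℝ) + 1) ^ (-s.re)
        ≤ ‖s - 1‖ * (2 * ‖s‖) * ((K : ℝ) + 1) ^ (-s.re) := mul_le_mul_of_nonneg_right h6 h8
      _ = ‖s - 1‖ * (2 * ‖s‖ * ((K : ℝ) + 1) ^ (-s.re)) := by ring
  have h9 : ‖s - 1‖ * ‖riemannZeta s - ∑ n ∈ Icc 1 K, (n : ℂ) ^ (-s)‖ ≤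
      ‖s - 1‖ * (((K : ℝ) + 1) ^ (1 - s.re) / ‖s - 1‖ + 2 * ‖s‖ * ((K : ℝ) + 1) ^ (-s.re)) := by
    rw [mul_add, mul_div_cancel₀ _ hs1.ne']
    linarith
  exact le_of_mul_le_mul_left h9 hs1

/-- **Partial summation** against the decreasing weight `n^(-σ)`: `b_n = n^(it)`, `n^(-(σ - it)) = n^(-σ) b_n`;
`B_m = ∑_{N < n ≤ m} b_n`; `∑ n^(-σ) b_n = N'^(-σ) B_{N'} + ∑_{N < m < N'} (m^(-σ) - (m+1)^(-σ)) B_m`, at most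
`D (N+1)^(-σ) ≤ D N^(-σ)`. -/
theorem abel_weight (σ t D : ℝ) (N N' : ℕ) (hN : 1 ≤ N) (hσ : 0 ≤ σ) (hD : 0 ≤ D)
    (h : ∀ m : ℕ, N ≤ m → m ≤ N' → ‖∑ n ∈ Ioc N m, (n : ℂ) ^ ((t : ℂ) * Complex.I)‖ ≤ D) :
    ‖∑ n ∈ Ioc N N', (n : ℂ) ^ (-((σ : ℂ) - (t : ℂ) * Complex.I))‖ ≤ D * (N : ℝ) ^ (-σ) := by
  have hw : ∀ n : ℕ, 0 < n → (n : ℂ) ^ (-((σ : ℂ) - (t : ℂ) * Complex.I)) =
      (((n : ℝ) ^ (-σ) : ℝ) : ℂ) * (n : ℂ) ^ ((t : ℂ) * Complex.I) := by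
    intro n hn
    have hn' : (n : ℂ) ≠ 0 := by exact_mod_cast hn.ne'
    have e1 : -((σ : ℂ) - (t : ℂ) * Complex.I) = ((-σ : ℝ) : ℂ) + (t : ℂ) * Complex.I := by
      push_cast
      ring
    rw [e1, Complex.cpow_add _ _ hn', Complex.ofReal_cpow (Nat.cast_nonneg n)]
    push_cast
    rfl
  have hanti : ∀ m n : ℕ, 0 < m → m ≤ n → (n : ℝ) ^ (-σ) ≤ (m : ℝ) ^ (-σ) := by
    intro m n hm hmn
    apply Real.rpow_le_rpow_of_nonpos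
    · exact_mod_cast hm
    · exact_mod_cast hmn
    · linarith
  have hpos : ∀ n : ℕ, 0 ≤ (n : ℝ) ^ (-σ) := fun n => by positivity
  have key : ∀ M : ℕ, N ≤ M → M ≤ N' →
      ‖∑ n ∈ Ioc N M, (n : ℂ) ^ (-((σ : ℂ) - (t : ℂ) * Complex.I)) -
        ((((M + 1 : ℕ) : ℝ) ^ (-σ) : ℝ) : ℂ) * ∑ n ∈ Ioc N M, (n : ℂ) ^ ((t : ℂ) * Complex.I)‖ ≤
      D * (((N + 1 : ℕ) : ℝ) ^ (-σ) - ((M + 1 : ℕ) : ℝ) ^ (-σ)) := by
    intro M hM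
    induction M, hM using Nat.le_induction with
    | base =>
      intro _
      simp
    | succ M hM ih =>
      intro hM'
      have ih' := ih (by omega)
      have hB := h (M + 1) (by omega) hM'
      have hsum : ∀ f : ℕ → ℂ, ∑ n ∈ Ioc N (M + 1), f n = ∑ n ∈ Ioc N M, f n + f (M + 1) :=
        fun f => Finset.sum_Ioc_succ_top hM f
      have hd : 0 ≤ ((M + 1 : ℕ) : ℝ) ^ (-σ) - ((M + 1 + 1 : ℕ) : ℝ) ^ (-σ) :=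
        sub_nonneg.2 (hanti _ _ (by omega) (by omega))
      have e1 : ∑ n ∈ Ioc N (M + 1), (n : ℂ) ^ (-((σ : ℂ) - (t : ℂ) * Complex.I)) -
          ((((M + 1 + 1 : ℕ) : ℝ) ^ (-σ) : ℝ) : ℂ) *
            ∑ n ∈ Ioc N (M + 1), (n : ℂ) ^ ((t : ℂ) * Complex.I) =
          (∑ n ∈ Ioc N M, (n : ℂ) ^ (-((σ : ℂ) - (t : ℂ) * Complex.I)) -
            ((((M + 1 : ℕ) : ℝ) ^ (-σ) : ℝ) : ℂ) *
              ∑ n ∈ Ioc N M, (n : ℂ) ^ ((t : ℂ) * Complex.I)) +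
          ((((M + 1 : ℕ) : ℝ) ^ (-σ) - ((M + 1 + 1 : ℕ) : ℝ) ^ (-σ) : ℝ) : ℂ) *
            ∑ n ∈ Ioc N (M + 1), (n : ℂ) ^ ((t : ℂ) * Complex.I) := by
        rw [hsum, hsum, hw (M + 1) (by omega)]
        rw [Complex.ofReal_sub]
        ring
      rw [e1]
      refine (norm_add_le _ _).trans ?_
      rw [norm_mul, Complex.norm_real, Real.norm_eq_abs, abs_of_nonneg hd]
      have h3 := mul_le_mul_of_nonneg_left hB hd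
      linarith
  rcases Nat.lt_or_ge N' N with hlt | hge
  · rw [Finset.Ioc_eq_empty (by omega), Finset.sum_empty, norm_zero]
    exact mul_nonneg hD (hpos N)
  · have h1 := key N' hge le_rfl
    have h2 := h N' hge le_rfl
    have h3 : ‖∑ n ∈ Ioc N N', (n : ℂ) ^ (-((σ : ℂ) - (t : ℂ) * Complex.I))‖ ≤
        ‖∑ n ∈ Ioc N N', (n : ℂ) ^ (-((σ : ℂ) - (t : ℂ) * Complex.I)) -
          ((((N' + 1 : ℕ) : ℝ) ^ (-σ) : ℝ) : ℂ) *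
            ∑ n ∈ Ioc N N', (n : ℂ) ^ ((t : ℂ) * Complex.I)‖ +
        ‖((((N' + 1 : ℕ) : ℝ) ^ (-σ) : ℝ) : ℂ) *
            ∑ n ∈ Ioc N N', (n : ℂ) ^ ((t : ℂ) * Complex.I)‖ := by
      refine le_trans (le_of_eq ?_) (norm_add_le _ _)
      rw [sub_add_cancel]
    rw [norm_mul, Complex.norm_real, Real.norm_eq_abs, abs_of_nonneg (hpos _)] at h3
    have h4 := mul_le_mul_of_nonneg_left h2 (hpos (N' + 1))
    have h5 := mul_le_mul_of_nonneg_left (hanti N (N + 1) (by omega) (by omega)) hD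
    linarith

end Pool.Agent.Lib.H31X
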