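import Pool.Agent.Lib.H31X.X7

/-!
# Chunk X8 (M): sums of `μ(n) n^(-it)`
-/

open Finset

namespace Pool.Agent.Lib.H31X

open Pool.Agent.Lib.H68T
open Pool.Agent.Lib.H31W (ell)

private lemma X8_exp (D : ℝ) (hD : 0 < D) :
    ∃ l₀ : ℝ, ∀ x : ℝ, l₀ ≤ x → D * x ^ 20 ≤ Real.exp (x / 4) := by
  have h := isLittleO_pow_exp_pos_mul_atTop 20 (show (0 : ℝ) < 1 / 4 by norm_num)
  have h2 := h.def (show (0 : ℝ) < 1 / D by positivity)
  obtain ⟨l₀, hl⟩ := Filter.eventually_atTop.1 h2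
  refine ⟨max l₀ 0, fun x hx => ?_⟩
  have h3 := hl x (le_trans (le_max_left _ _) hx)
  have hx0 : 0 ≤ x := le_trans (le_max_right _ _) hx
  rw [Real.norm_of_nonneg (by positivity), Real.norm_of_nonneg (Real.exp_pos _).le] at h3
  have h4 : D * x ^ 20 ≤ D * (1 / D * Real.exp (1 / 4 * x)) := mul_le_mul_of_nonneg_left h3 hD.le
  have h5 : D * (1 / D * Real.exp (1 / 4 * x)) = Real.exp (x / 4) := by
    rw [← mul_assoc, mul_one_div_cancel hD.ne', one_mul]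
    congr 1
    ring
  linarith

private lemma X8_norm (t : ℝ) (n : ℕ) (hn : 1 ≤ n) :
    ‖(ArithmeticFunction.moebius n : ℂ) * (n : ℂ) ^ (-((t : ℂ) * Complex.I))‖ ≤ 1 := by
  rw [norm_mul, Complex.norm_natCast_cpow_of_pos (by omega)]
  have e2 : ‖((ArithmeticFunction.moebius n : ℤ) : ℂ)‖ ≤ 1 := by
    have := ArithmeticFunction.abs_moebius_le_one (n := n)
    rw [Complex.norm_intCast]
    exact_mod_cast this
  have e3 : (n : ℝ) ^ (-((t : ℂ) * Complex.I)).re = 1 := by simp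
  rw [e3, mul_one]
  exact e2

private lemma X8_LSeries (t : ℝ) (s : ℂ) :
    LSeries (fun n => (ArithmeticFunction.moebius n : ℂ) * (n : ℂ) ^ (-((t : ℂ) * Complex.I))) s =
      LSeries (fun n => (ArithmeticFunction.moebius n : ℂ)) (s + t * Complex.I) := by
  unfold LSeries
  refine tsum_congr fun n => ?_
  rcases Nat.eq_zero_or_pos n with h0 | h0
  · rw [h0]; simp [LSeries.term]
  · have hn : (n : ℂ) ≠ 0 := by exact_mod_cast h0.ne'
    rw [LSeries.term_of_ne_zero h0.ne', LSeries.term_of_ne_zero h0.ne']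
    rw [Complex.cpow_neg, Complex.cpow_add _ _ hn]
    have h1 : (n : ℂ) ^ s ≠ 0 := by
      rw [Ne, Complex.cpow_eq_zero_iff]
      tauto
    have h2 : (n : ℂ) ^ (t * Complex.I) ≠ 0 := by
      rw [Ne, Complex.cpow_eq_zero_iff]
      tauto
    field_simp

private lemma X8_cube {X : ℝ} (hX : 2 ≤ X) : 2 * X ^ 2 ≤ X ^ 3 := by
  have h7 : 0 ≤ X ^ 2 := by positivity
  have h8 : X ^ 3 = X * X ^ 2 := by ring
  rw [h8]
  exact mul_le_mul_of_nonneg_right hX h7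

private lemma X8_pow6 {l : ℝ} (hl1 : 72 ≤ l) : 3 * l ≤ l ^ 10 / 6 := by
  have h1 : l ^ 10 = l * l * l ^ 8 := by ring
  have h2 : (1 : ℝ) ≤ l ^ 8 := one_le_pow₀ (by linarith)
  have h3 : l * l * 1 ≤ l * l * l ^ 8 := mul_le_mul_of_nonneg_left h2 (by positivity)
  nlinarith

/-- The numerical part. -/
private lemma X8_num (P l : ℝ) (hP : 0 < P) (hl72 : 72 ≤ l)
    (hD : 96 * (P + 1) * l ^ 20 ≤ Real.exp (l / 4)) (w : ℝ) (hw0 : 0 ≤ w) (hw : w ≤ 3 * l ^ 10)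
    (T : ℝ) (hT : Real.exp (4 * l) / 2 ≤ T) :
    P * (3 * l ^ 10 * Real.exp (-(l ^ 2 / 18)) + 3 * l ^ 10 / T ^ 2 + (1 + w) ^ 2 / T) ≤
      Real.exp (-(3 * l)) ∧ 20 * (1 + 2 * l ^ 10) ≤ Real.exp (l / 4) := by
  have hl1 : 1 ≤ l := by linarith
  have hl0 : 0 < l := by linarith
  have h10 : (1 : ℝ) ≤ l ^ 10 := one_le_pow₀ hl1
  have h20 : l ^ 10 ≤ l ^ 20 := pow_le_pow_right₀ hl1 (by norm_num)
  have hle : Real.exp (l / 4) ≤ Real.exp l := Real.exp_le_exp.2 (by linarith)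
  have hDl : 96 * (P + 1) * l ^ 20 ≤ Real.exp l := hD.trans hle
  have hE4 : 0 < Real.exp (4 * l) := Real.exp_pos _
  have hT0 : 0 < T := lt_of_lt_of_le (by positivity) hT
  have hT1 : 1 ≤ T := by
    have := Real.add_one_le_exp (4 * l)
    linarith
  have e3 : Real.exp (-(3 * l)) = Real.exp l * Real.exp (-(4 * l)) := by
    rw [← Real.exp_add]; congr 1; ring
  have hTinv : 1 / T ≤ 2 * Real.exp (-(4 * l)) := by
    rw [Real.exp_neg, div_le_iff₀ hT0]
    have h5 : Real.exp (4 * l) ≤ 2 * T := by linarith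
    have h6 : 2 * (Real.exp (4 * l))⁻¹ * T = (2 * T) * (Real.exp (4 * l))⁻¹ := by ring
    rw [h6, ← div_eq_mul_inv, le_div_iff₀ hE4]
    linarith
  have hm4 : 0 < Real.exp (-(4 * l)) := Real.exp_pos _
  have t1 : Real.exp (-(l ^ 2 / 18)) ≤ Real.exp (-(4 * l)) := by
    apply Real.exp_le_exp.2
    nlinarith
  have t2 : 3 * l ^ 10 / T ^ 2 ≤ 3 * l ^ 10 * (2 * Real.exp (-(4 * l))) := by
    have h7 : 1 / T ^ 2 ≤ 1 / T := by
      apply one_div_le_one_div_of_le hT0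
      nlinarith
    calc 3 * l ^ 10 / T ^ 2 = 3 * l ^ 10 * (1 / T ^ 2) := by ring
      _ ≤ 3 * l ^ 10 * (2 * Real.exp (-(4 * l))) :=
        mul_le_mul_of_nonneg_left (h7.trans hTinv) (by positivity)
  have t3 : (1 + w) ^ 2 / T ≤ 16 * l ^ 20 * (2 * Real.exp (-(4 * l))) := by
    have h8 : (1 + w) ^ 2 ≤ 16 * l ^ 20 := by
      have h9 : 1 + w ≤ 4 * l ^ 10 := by linarith
      calc (1 + w) ^ 2 ≤ (4 * l ^ 10) ^ 2 := pow_le_pow_left₀ (by linarith) h9 2
        _ = 16 * l ^ 20 := by ring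
    calc (1 + w) ^ 2 / T = (1 + w) ^ 2 * (1 / T) := by ring
      _ ≤ 16 * l ^ 20 * (2 * Real.exp (-(4 * l))) :=
        mul_le_mul h8 hTinv (by positivity) (by positivity)
  constructor
  · have h11 : 3 * l ^ 10 * Real.exp (-(l ^ 2 / 18)) + 3 * l ^ 10 / T ^ 2 + (1 + w) ^ 2 / T ≤
        (41 * l ^ 20) * Real.exp (-(4 * l)) := by
      have h12 : 3 * l ^ 10 * Real.exp (-(l ^ 2 / 18)) ≤ 3 * l ^ 20 * Real.exp (-(4 * l)) :=
        mul_le_mul (by linarith) t1 (Real.exp_pos _).le (by positivity)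
      have h13 : 3 * l ^ 10 * (2 * Real.exp (-(4 * l))) ≤ 3 * l ^ 20 * (2 * Real.exp (-(4 * l))) :=
        mul_le_mul_of_nonneg_right (by linarith) (by positivity)
      linarith
    calc P * (3 * l ^ 10 * Real.exp (-(l ^ 2 / 18)) + 3 * l ^ 10 / T ^ 2 + (1 + w) ^ 2 / T)
        ≤ P * ((41 * l ^ 20) * Real.exp (-(4 * l))) := mul_le_mul_of_nonneg_left h11 hP.le
      _ = (41 * P * l ^ 20) * Real.exp (-(4 * l)) := by ring
      _ ≤ Real.exp l * Real.exp (-(4 * l)) := by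
          refine mul_le_mul_of_nonneg_right (le_trans ?_ hDl) hm4.le
          have : 0 < l ^ 20 := by positivity
          nlinarith
      _ = Real.exp (-(3 * l)) := e3.symm
  · refine le_trans ?_ hD
    have h14 : (1 : ℝ) ≤ l ^ 20 := one_le_pow₀ hl1
    have h15 : 0 < P * l ^ 20 := by positivity
    nlinarith

/-- **Sums of `μ(n) n^(-it)`.** `ℓ = (log X)^(1/10)`.

Proof. `L = 3 log X`, `g` from `inv_mu`. `perron` (`H68T/PER1.lean`) with `a n = μ(n) n^(-it)`, `f(s) = g(s + it)`, `κ = 0`,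
`η = L^(-3/4)`, `T = |t|/2 ≥ 1` (for `|Im s| ≤ T`: `|Im (s + it)| ≤ (3/2) X² ≤ X³ = e^L`), `B = L`: for `X^(1/6) ≤ u ≤ 2X²`
`‖∑_{n ≤ u} a_n (1 - n/u)‖ ≤ C u (L u^(-η) + L/T² + (1 + log u)²/T) ≤ u exp (-3ℓ)` for large `X`:
`u^(-η) ≤ exp (-(1/6) log X (3 log X)^(-3/4)) ≤ exp (-(1/20)(log X)^(1/4)) = exp (-(1/20) ℓ^(5/2))`, `1/T ≤ 2 exp (-4ℓ)`,
`log u ≤ 3 log X = 3 ℓ^10`. Then `unsmooth` (`κ = exp (-3ℓ)`, `u₀ = X^(1/6)`, `u₁ = X²`, `1 ≤ κ u₀`):
`≤ 20 exp (-(3/2)ℓ) u (1 + 2 log X) ≤ u exp (-(5/4)ℓ)`. -/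
theorem sum_mu : ∃ K : ℝ, 3 ≤ K ∧ ∀ X : ℝ, K ≤ X → ∀ u t : ℝ, X ^ (1 / 6 : ℝ) ≤ u → u ≤ X ^ 2 →
    Real.exp (4 * ell X) ≤ |t| → |t| ≤ X ^ 2 →
    ‖∑ n ∈ Icc 1 ⌊u⌋₊, (ArithmeticFunction.moebius n : ℂ) * (n : ℂ) ^ (-((t : ℂ) * Complex.I))‖ ≤
      u * Real.exp (-(5 / 4 * ell X)) := by
  obtain ⟨L₀, hL₀3, hinv⟩ := inv_mu
  obtain ⟨P, hP, hper⟩ := perron
  obtain ⟨l₀, hl₀⟩ := X8_exp (96 * (P + 1)) (by positivity)
  set l₁ : ℝ := |l₀| + L₀ + 72 with hl₁
  have hl₁0 : l₀ ≤ l₁ := by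
    have := le_abs_self l₀
    linarith
  have hl₁1 : 72 ≤ l₁ := by
    have := abs_nonneg l₀
    linarith
  have hl₁2 : L₀ ≤ l₁ := by
    have := abs_nonneg l₀
    linarith
  have hl₁3 : l₁ ≤ l₁ ^ 10 := le_self_pow₀ (by linarith) (by norm_num)
  refine ⟨Real.exp (l₁ ^ 10), ?_, ?_⟩
  · have := Real.add_one_le_exp (l₁ ^ 10)
    linarith
  intro X hX u t hu0 hu1 ht0 ht1
  have hXpos : 0 < X := lt_of_lt_of_le (Real.exp_pos _) hX
  set y : ℝ := Real.log X with hy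
  have hy1 : l₁ ^ 10 ≤ y := (Real.le_log_iff_exp_le hXpos).2 hX
  have hy0 : 0 < y := by linarith
  have hXy : X = Real.exp y := (Real.exp_log hXpos).symm
  set l : ℝ := ell X with hl
  have hl10 : l ^ 10 = y := by
    rw [hl, ell, ← Real.rpow_natCast, ← Real.rpow_mul hy0.le]
    norm_num
  have hlnn : 0 ≤ l := Real.rpow_nonneg hy0.le _
  have hl_ge : l₁ ≤ l := by
    refine le_of_pow_le_pow_left₀ (n := 10) (by norm_num) hlnn ?_
    rw [hl10]
    exact hy1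
  have hl72 : 72 ≤ l := by linarith
  have hl1 : 1 ≤ l := by linarith
  have hD := hl₀ l (by linarith)
  set L : ℝ := 3 * y with hL
  have hLL : L₀ ≤ L := by linarith
  have hL16 : 16 ≤ L := by linarith
  have hL0 : 0 < L := by linarith
  obtain ⟨g, hg1, hg2, hg3⟩ := hinv L hLL
  have hX3 : Real.exp L = X ^ 3 := by
    rw [hXy, ← Real.exp_nat_mul]
    norm_num [hL]
  have hX2 : 2 ≤ X := by
    rw [hXy]
    have := Real.add_one_le_exp y
    linarith
  -- `η`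
  set η : ℝ := L ^ (-(3 / 4) : ℝ) with hη
  have hη0 : 0 < η := Real.rpow_pos_of_pos hL0 _
  have hη1 : η ≤ 1 / 2 := by
    have h1 : (2 : ℝ) ≤ L ^ (3 / 4 : ℝ) := by
      refine le_of_pow_le_pow_left₀ (n := 4) (by norm_num) (Real.rpow_nonneg hL0.le _) ?_
      rw [← Real.rpow_natCast (L ^ (3 / 4 : ℝ)), ← Real.rpow_mul hL0.le]
      norm_num
      calc (16 : ℝ) ≤ L := hL16
        _ ≤ L ^ 3 := le_self_pow₀ (by linarith) (by norm_num)
    rw [hη, Real.rpow_neg hL0.le, one_div]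
    exact inv_anti₀ (by norm_num) h1
  have hηL : l ^ 2 ≤ η * L := by
    have h1 : η * L = L ^ (1 / 4 : ℝ) := by
      rw [hη]
      nth_rewrite 2 [← Real.rpow_one L]
      rw [← Real.rpow_add hL0]
      norm_num
    rw [h1]
    refine le_of_pow_le_pow_left₀ (n := 4) (by norm_num) (Real.rpow_nonneg hL0.le _) ?_
    rw [← Real.rpow_natCast (L ^ (1 / 4 : ℝ)), ← Real.rpow_mul hL0.le]
    norm_num
    rw [hL, ← hl10, ← pow_mul]
    have h2 : l ^ (2 * 4) ≤ l ^ 10 := pow_le_pow_right₀ hl1 (by norm_num)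
    have h3 : 0 ≤ l ^ 10 := by positivity
    linarith
  -- `T`
  have htpos : 0 < |t| := lt_of_lt_of_le (Real.exp_pos _) ht0
  set T : ℝ := |t| / 2 with hT
  have hTe : Real.exp (4 * l) / 2 ≤ T := by
    rw [hT]
    linarith
  have hT1 : 1 ≤ T := by
    have := Real.add_one_le_exp (4 * l)
    linarith
  have hmem : ∀ s : ℂ, 1 - η ≤ s.re → s.re ≤ 2 → |s.im| ≤ T → s + (t : ℂ) * Complex.I ∈ Rl L := by
    intro s h1 h2 h3
    have e1 : (s + (t : ℂ) * Complex.I).re = s.re := by simp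
    have e2 : (s + (t : ℂ) * Complex.I).im = s.im + t := by simp
    refine ⟨?_, ?_, ?_⟩
    · rw [e1]
      exact h1
    · rw [e1]
      exact h2
    · rw [e2, hX3]
      have h4 := abs_add_le s.im t
      have h5 : |s.im + t| ≤ 3 / 2 * X ^ 2 := by
        rw [hT] at h3
        linarith
      have h6 := X8_cube hX2
      linarith
  set a : ℕ → ℂ := fun n => (ArithmeticFunction.moebius n : ℂ) * (n : ℂ) ^ (-((t : ℂ) * Complex.I))
    with ha
  have han : ∀ n, 1 ≤ n → ‖a n‖ ≤ 1 + Real.log n := by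
    intro n hn
    have h1 := X8_norm t n hn
    have h2 : 0 ≤ Real.log n := Real.log_natCast_nonneg n
    have h3 : ‖a n‖ ≤ 1 := h1
    linarith
  have hfa : AnalyticOnNhd ℂ (fun s => g (s + (t : ℂ) * Complex.I))
      {s | 1 - η ≤ s.re ∧ s.re ≤ 2 ∧ |s.im| ≤ T} := by
    intro s hs
    have h1 := hg1 (s + (t : ℂ) * Complex.I) (hmem s hs.1 hs.2.1 hs.2.2)
    have h2 : AnalyticAt ℂ (fun s : ℂ => s + (t : ℂ) * Complex.I) s :=
      analyticAt_id.add analyticAt_const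
    exact AnalyticAt.comp (f := fun s : ℂ => s + (t : ℂ) * Complex.I) h1 h2
  have hfb : ∀ s : ℂ, 1 - η ≤ s.re → s.re ≤ 2 → |s.im| ≤ T → ‖g (s + (t : ℂ) * Complex.I)‖ ≤ L :=
    fun s h1 h2 h3 => hg3 _ (hmem s h1 h2 h3)
  have hfL : ∀ s : ℂ, 1 < s.re → g (s + (t : ℂ) * Complex.I) = LSeries a s - 0 / (s - 1) := by
    intro s hs
    rw [zero_div, sub_zero, ha, X8_LSeries]
    apply hg2
    simpa using hs
  -- numbers
  have hu₀exp : X ^ (1 / 6 : ℝ) = Real.exp (y / 6) := by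
    rw [Real.rpow_def_of_pos hXpos]
    congr 1
    ring
  have hu₀1 : Real.exp (3 * l) ≤ X ^ (1 / 6 : ℝ) := by
    rw [hu₀exp]
    apply Real.exp_le_exp.2
    rw [← hl10]
    exact X8_pow6 hl72
  have hcl : ∀ v : ℝ, X ^ (1 / 6 : ℝ) ≤ v → v ≤ 2 * X ^ 2 →
      ‖∑ n ∈ Icc 1 ⌊v⌋₊, a n * (1 - n / v)‖ ≤ Real.exp (-(3 * l)) * v := by
    intro v hv0 hv1
    have hv3 : 3 ≤ v := by
      have h1 := Real.add_one_le_exp (3 * l)
      linarith
    have hvpos : 0 < v := by linarith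
    have h1 := hper a (fun s => g (s + (t : ℂ) * Complex.I)) 0 η T L v (by simp) hη0 hη1 hT1 hv3
      (by linarith) han hfa hfb hfL
    rw [zero_mul, sub_zero] at h1
    refine h1.trans ?_
    -- `log v`
    have hlv0 : 0 ≤ Real.log v := Real.log_nonneg (by linarith)
    have hlv1 : y / 6 ≤ Real.log v := by
      rw [Real.le_log_iff_exp_le hvpos, ← hu₀exp]
      exact hv0
    have hlv2 : Real.log v ≤ 3 * l ^ 10 := by
      rw [hl10, Real.log_le_iff_le_exp hvpos, ← hL, hX3]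
      refine hv1.trans ?_
      have h6 := X8_cube hX2
      linarith
    have hpow : v ^ (1 - η) ≤ v * Real.exp (-(l ^ 2 / 18)) := by
      rw [Real.rpow_sub hvpos, Real.rpow_one, div_eq_mul_inv, ← Real.rpow_neg hvpos.le,
        Real.rpow_def_of_pos hvpos]
      refine mul_le_mul_of_nonneg_left (Real.exp_le_exp.2 ?_) hvpos.le
      have h2 : η * (y / 6) ≤ η * Real.log v := mul_le_mul_of_nonneg_left hlv1 hη0.le
      have h3 : η * (y / 6) = η * L / 18 := by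
        rw [hL]
        ring
      have h4 : Real.log v * -η = -(η * Real.log v) := by ring
      rw [h4]
      linarith
    have hnum := (X8_num P l hP hl72 hD (Real.log v) hlv0 hlv2 T hTe).1
    have hLl : L = 3 * l ^ 10 := by rw [hL, hl10]
    calc P * (L * v ^ (1 - η) + L * v / T ^ 2 + v * (1 + Real.log v) ^ 2 / T)
        ≤ P * (L * (v * Real.exp (-(l ^ 2 / 18))) + L * v / T ^ 2 +
            v * (1 + Real.log v) ^ 2 / T) := by
          refine mul_le_mul_of_nonneg_left ?_ hP.le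
          have := mul_le_mul_of_nonneg_left hpow hL0.le
          linarith
      _ = (P * (3 * l ^ 10 * Real.exp (-(l ^ 2 / 18)) + 3 * l ^ 10 / T ^ 2 +
            (1 + Real.log v) ^ 2 / T)) * v := by
          rw [hLl]
          ring
      _ ≤ Real.exp (-(3 * l)) * v := mul_le_mul_of_nonneg_right hnum hvpos.le
  have hκ0 : 0 < Real.exp (-(3 * l)) := Real.exp_pos _
  have hκ1 : Real.exp (-(3 * l)) ≤ 1 := by
    rw [Real.exp_le_one_iff]
    linarith
  have hu₀ge : 1 ≤ X ^ (1 / 6 : ℝ) := by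
    have := Real.add_one_le_exp (3 * l)
    linarith
  have hκu : 1 ≤ Real.exp (-(3 * l)) * X ^ (1 / 6 : ℝ) := by
    have h1 : Real.exp (-(3 * l)) * Real.exp (3 * l) = 1 := by
      rw [← Real.exp_add]
      simp
    have h2 := mul_le_mul_of_nonneg_left hu₀1 hκ0.le
    rw [h1] at h2
    exact h2
  have hfin := unsmooth a (Real.exp (-(3 * l))) (X ^ (1 / 6 : ℝ)) (X ^ 2) hκ0 hκ1 hu₀ge hκu han
    hcl u hu0 hu1
  refine hfin.trans ?_
  have hupos : 0 < u := by linarith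
  have hsq : Real.sqrt (Real.exp (-(3 * l))) = Real.exp (-(3 / 2 * l)) := by
    rw [Real.sqrt_eq_iff_mul_self_eq (Real.exp_pos _).le (Real.exp_pos _).le, ← Real.exp_add]
    congr 1
    ring
  have hlu : Real.log u ≤ 2 * l ^ 10 := by
    rw [hl10, Real.log_le_iff_le_exp hupos]
    refine hu1.trans (le_of_eq ?_)
    rw [hXy, ← Real.exp_nat_mul]
    norm_num
  have hnum2 := (X8_num P l hP hl72 hD 0 le_rfl (by positivity) T hTe).2
  have hlu0 : 0 ≤ Real.log u := Real.log_nonneg (by linarith)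
  rw [hsq]
  calc 20 * Real.exp (-(3 / 2 * l)) * u * (1 + Real.log u)
      = (20 * (1 + Real.log u)) * (Real.exp (-(3 / 2 * l)) * u) := by ring
    _ ≤ Real.exp (l / 4) * (Real.exp (-(3 / 2 * l)) * u) := by
        refine mul_le_mul_of_nonneg_right (le_trans ?_ hnum2) (by positivity)
        linarith
    _ = u * Real.exp (-(5 / 4 * l)) := by
        rw [← mul_assoc, ← Real.exp_add, mul_comm]
        congr 2
        ring

end Pool.Agent.Lib.H31X
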