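import Mathlib

/-!
# Chunk X1 (M): Kusmin-Landau inequality for `n^(it)`
-/

open Finset

namespace Pool.Agent.Lib.H31X

/-- Half of the cotangent of half the angle. -/
private noncomputable def X1k (θ : ℝ) : ℝ := Real.cos (θ / 2) / (2 * Real.sin (θ / 2))

private lemma X1_sin_pos {θ : ℝ} (h0 : 0 < θ) (h1 : θ ≤ 1) : 0 < Real.sin (θ / 2) := by
  apply Real.sin_pos_of_pos_of_lt_pi (by linarith)
  have := Real.pi_gt_three
  linarith

private lemma X1_cos_pos {θ : ℝ} (h0 : 0 < θ) (h1 : θ ≤ 1) : 0 < Real.cos (θ / 2) := by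
  apply Real.cos_pos_of_mem_Ioo
  have := Real.pi_gt_three
  constructor <;> linarith

private lemma X1k_nonneg {θ : ℝ} (h0 : 0 < θ) (h1 : θ ≤ 1) : 0 ≤ X1k θ := by
  unfold X1k
  have h2 := X1_sin_pos h0 h1
  have h3 := X1_cos_pos h0 h1
  positivity

private lemma X1k_le {θ : ℝ} (h0 : 0 < θ) (h1 : θ ≤ 1) : X1k θ ≤ 1 / θ := by
  unfold X1k
  have h2 := X1_sin_pos h0 h1
  have h3 := X1_cos_pos h0 h1
  have h4 : θ / 2 < Real.tan (θ / 2) := by
    apply Real.lt_tan (by linarith)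
    have := Real.pi_gt_three
    linarith
  rw [Real.tan_eq_sin_div_cos, lt_div_iff₀ h3] at h4
  rw [div_le_div_iff₀ (by positivity) h0]
  linarith

private lemma X1k_anti {θ φ : ℝ} (h0 : 0 < θ) (h1 : θ ≤ φ) (h2 : φ ≤ 1) : X1k φ ≤ X1k θ := by
  unfold X1k
  have hs := X1_sin_pos h0 (h1.trans h2)
  have hs' := X1_sin_pos (h0.trans_le h1) h2
  rw [div_le_div_iff₀ (by positivity) (by positivity)]
  have h3 : 0 ≤ Real.sin (φ / 2 - θ / 2) := by
    apply Real.sin_nonneg_of_nonneg_of_le_pi (by linarith)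
    have := Real.pi_gt_three
    linarith
  rw [Real.sin_sub] at h3
  linarith

private lemma X1_id {θ : ℝ} (h0 : 0 < θ) (h1 : θ ≤ 1) :
    (-1 / 2 - Complex.I * (X1k θ : ℂ)) * (Complex.exp ((θ : ℂ) * Complex.I) - 1) = 1 := by
  have hs := X1_sin_pos h0 h1
  have he : Complex.exp ((θ : ℂ) * Complex.I) =
      ((Real.cos (θ / 2) : ℂ) + (Real.sin (θ / 2) : ℂ) * Complex.I) ^ 2 := by
    have : (θ : ℂ) * Complex.I = ((2 : ℕ) : ℂ) * (((θ / 2 : ℝ) : ℂ) * Complex.I) := by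
      push_cast
      ring
    rw [this, Complex.exp_nat_mul, Complex.exp_mul_I]
    push_cast
    rfl
  have hsc : ((Real.sin (θ / 2) : ℝ) : ℂ) ≠ 0 := by
    exact_mod_cast hs.ne'
  have hcs : ((Real.sin (θ / 2) : ℝ) : ℂ) ^ 2 + ((Real.cos (θ / 2) : ℝ) : ℂ) ^ 2 = 1 := by
    exact_mod_cast Real.sin_sq_add_cos_sq (θ / 2)
  have hk : ((X1k θ : ℝ) : ℂ) = (Real.cos (θ / 2) : ℂ) / (2 * (Real.sin (θ / 2) : ℂ)) := by
    unfold X1k
    push_cast
    rfl
  rw [he, hk]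
  generalize ((Real.cos (θ / 2) : ℝ) : ℂ) = c at *
  generalize ((Real.sin (θ / 2) : ℝ) : ℂ) = s at *
  have hI : Complex.I ^ 2 = -1 := Complex.I_sq
  field_simp
  linear_combination (s - Complex.I * c) * hcs + ((-s - Complex.I * c) * s ^ 2 - 2 * c ^ 2 * s) * hI

/-- Kusmin-Landau, abstract form. -/
private lemma X1_abs (a : ℕ → ℂ) (θ : ℕ → ℝ) (N : ℕ) (ha : ∀ n, ‖a n‖ = 1)
    (hθ0 : ∀ n, N ≤ n → 0 < θ n) (hθ1 : ∀ n, N ≤ n → θ n ≤ 1) (hanti : ∀ n, N ≤ n → θ (n + 1) ≤ θ n)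
    (hstep : ∀ n, N ≤ n → a (n + 1) = Complex.exp ((θ n : ℂ) * Complex.I) * a n) (M : ℕ) (hM : N ≤ M) :
    ‖∑ n ∈ Ioc N M, a n‖ ≤ 1 + 2 / θ M := by
  have hind : ‖∑ n ∈ Ioc N M, (X1k (θ n) : ℂ) * (a (n + 1) - a n) - (X1k (θ M) : ℂ) * a (M + 1)‖
      ≤ X1k (θ M) := by
    induction M, hM using Nat.le_induction with
    | base =>
      simp only [Ioc_self, sum_empty, zero_sub, norm_neg, norm_mul, ha, mul_one, Complex.norm_real]
      rw [Real.norm_of_nonneg (X1k_nonneg (hθ0 N le_rfl) (hθ1 N le_rfl))]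
    | succ M hM ih =>
      rw [← Finset.insert_Ioc_right_eq_Ioc_add_one hM, sum_insert (by simp)]
      have hmono : X1k (θ M) ≤ X1k (θ (M + 1)) :=
        X1k_anti (hθ0 (M + 1) (by omega)) (hanti M hM) (hθ1 M hM)
      have heq : (X1k (θ (M + 1)) : ℂ) * (a (M + 1 + 1) - a (M + 1)) +
          ∑ x ∈ Ioc N M, (X1k (θ x) : ℂ) * (a (x + 1) - a x) - (X1k (θ (M + 1)) : ℂ) * a (M + 1 + 1) =
          (∑ x ∈ Ioc N M, (X1k (θ x) : ℂ) * (a (x + 1) - a x) - (X1k (θ M) : ℂ) * a (M + 1)) -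
          ((X1k (θ (M + 1)) - X1k (θ M) : ℝ) : ℂ) * a (M + 1) := by
        push_cast
        ring
      rw [heq]
      refine (norm_sub_le _ _).trans ?_
      rw [norm_mul, ha, mul_one, Complex.norm_real, Real.norm_of_nonneg (by linarith)]
      linarith
  have hsum : ∑ n ∈ Ioc N M, a n = -(1 / 2) * (a (M + 1) - a (N + 1)) -
      Complex.I * ∑ n ∈ Ioc N M, (X1k (θ n) : ℂ) * (a (n + 1) - a n) := by
    have htel : ∑ n ∈ Ioc N M, (a (n + 1) - a n) = a (M + 1) - a (N + 1) := by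
      clear hind
      induction M, hM using Nat.le_induction with
      | base => simp
      | succ M hM ih =>
        rw [← Finset.insert_Ioc_right_eq_Ioc_add_one hM, sum_insert (by simp), ih]
        ring
    rw [← htel, mul_sum, mul_sum, ← sum_sub_distrib]
    apply sum_congr rfl
    intro n hn
    have hn' : N ≤ n := (mem_Ioc.mp hn).1.le
    have hid := X1_id (hθ0 n hn') (hθ1 n hn')
    rw [hstep n hn']
    linear_combination (-a n) * hid
  have hk0 := X1k_nonneg (hθ0 M hM) (hθ1 M hM)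
  have hk1 := X1k_le (hθ0 M hM) (hθ1 M hM)
  have h2 : ‖∑ n ∈ Ioc N M, (X1k (θ n) : ℂ) * (a (n + 1) - a n)‖ ≤ 2 * X1k (θ M) := by
    have := norm_add_le (∑ n ∈ Ioc N M, (X1k (θ n) : ℂ) * (a (n + 1) - a n) -
      (X1k (θ M) : ℂ) * a (M + 1)) ((X1k (θ M) : ℂ) * a (M + 1))
    rw [sub_add_cancel] at this
    have h3 : ‖(X1k (θ M) : ℂ) * a (M + 1)‖ = X1k (θ M) := by
      rw [norm_mul, ha, mul_one, Complex.norm_real, Real.norm_of_nonneg hk0]
    linarith
  have h3 : ‖-(1 / 2 : ℂ) * (a (M + 1) - a (N + 1))‖ ≤ 1 := by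
    rw [norm_mul]
    have h4 := norm_sub_le (a (M + 1)) (a (N + 1))
    rw [ha, ha] at h4
    have h5 : ‖-(1 / 2 : ℂ)‖ = 1 / 2 := by
      rw [norm_neg]
      norm_num
    rw [h5]
    linarith
  rw [hsum]
  refine (norm_sub_le _ _).trans ?_
  rw [norm_mul Complex.I, Complex.norm_I, one_mul]
  have h6 : 2 * (1 / θ M) = 2 / θ M := by ring
  linarith

private lemma X1_pos (t : ℝ) (N N' : ℕ) (ht : 1 ≤ t) (htN : t ≤ N) (hN : N ≤ N') (hN' : N' ≤ 2 * N) :
    ‖∑ n ∈ Ioc N N', (n : ℂ) ^ ((t : ℂ) * Complex.I)‖ ≤ 7 * (N / t) := by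
  have hN1 : 1 ≤ N := by
    have : (1 : ℝ) ≤ N := ht.trans htN
    exact_mod_cast this
  have hNR : (1 : ℝ) ≤ N := ht.trans htN
  have ht0 : 0 < t := by linarith
  set a : ℕ → ℂ := fun n => Complex.exp (((t * Real.log n : ℝ) : ℂ) * Complex.I) with hadef
  set θ : ℕ → ℝ := fun n => t * (Real.log ((n + 1 : ℕ) : ℝ) - Real.log n) with hθdef
  have hsum : ∑ n ∈ Ioc N N', (n : ℂ) ^ ((t : ℂ) * Complex.I) = ∑ n ∈ Ioc N N', a n := by
    apply sum_congr rfl
    intro n hn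
    have hn0 : n ≠ 0 := by
      have := (mem_Ioc.mp hn).1
      omega
    rw [Complex.cpow_def_of_ne_zero (by exact_mod_cast hn0)]
    rw [hadef]
    dsimp only
    rw [← Complex.natCast_log]
    congr 1
    push_cast
    ring
  have hlog : ∀ n : ℕ, N ≤ n → Real.log ((n + 1 : ℕ) : ℝ) - Real.log n = Real.log (((n + 1 : ℕ) : ℝ) / n) := by
    intro n hn
    have hn0 : (n : ℝ) ≠ 0 := by
      have : n ≠ 0 := by omega
      exact_mod_cast this
    rw [Real.log_div (by positivity) hn0]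
  have hup : ∀ n : ℕ, N ≤ n → θ n ≤ t / n := by
    intro n hn
    have hn0 : (0 : ℝ) < n := by
      have : 0 < n := by omega
      exact_mod_cast this
    rw [hθdef]
    dsimp only
    rw [hlog n hn]
    have h1 := Real.log_le_sub_one_of_pos (x := ((n + 1 : ℕ) : ℝ) / n) (by positivity)
    have h2 : ((n + 1 : ℕ) : ℝ) / n - 1 = 1 / n := by
      push_cast
      field_simp
      ring
    rw [h2] at h1
    calc t * Real.log (((n + 1 : ℕ) : ℝ) / n) ≤ t * (1 / n) := mul_le_mul_of_nonneg_left h1 ht0.le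
      _ = t / n := by ring
  have hlow : ∀ n : ℕ, N ≤ n → t / (n + 1) ≤ θ n := by
    intro n hn
    have hn0 : (0 : ℝ) < n := by
      have : 0 < n := by omega
      exact_mod_cast this
    rw [hθdef]
    dsimp only
    rw [hlog n hn]
    have h1 := Real.one_sub_inv_le_log_of_pos (x := ((n + 1 : ℕ) : ℝ) / n) (by positivity)
    have h2 : 1 - (((n + 1 : ℕ) : ℝ) / n)⁻¹ = 1 / (n + 1) := by
      push_cast
      field_simp
      ring
    rw [h2] at h1
    calc t / (n + 1) = t * (1 / (n + 1)) := by ring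
      _ ≤ t * Real.log (((n + 1 : ℕ) : ℝ) / n) := mul_le_mul_of_nonneg_left h1 ht0.le
  have key := X1_abs a θ N ?_ ?_ ?_ ?_ ?_ N' hN
  · rw [hsum]
    refine key.trans ?_
    have h1 := hlow N' hN
    have h2 : (N' : ℝ) + 1 ≤ 3 * N := by
      have : N' + 1 ≤ 3 * N := by omega
      exact_mod_cast this
    have h3 : 0 < t / ((N' : ℝ) + 1) := by positivity
    have h4 : 2 / θ N' ≤ 2 / (t / ((N' : ℝ) + 1)) := by
      apply div_le_div_of_nonneg_left (by norm_num) h3 h1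
    have h5 : 2 / (t / ((N' : ℝ) + 1)) = 2 * ((N' : ℝ) + 1) / t := by
      field_simp
    have h6 : 2 * ((N' : ℝ) + 1) / t ≤ 6 * N / t := by
      apply div_le_div_of_nonneg_right _ ht0.le
      linarith
    have h7 : 1 ≤ (N : ℝ) / t := by
      rw [le_div_iff₀ ht0]
      linarith
    have h8 : 7 * ((N : ℝ) / t) = (N : ℝ) / t + 6 * N / t := by ring
    rw [h8]
    linarith
  · intro n
    rw [hadef]
    exact Complex.norm_exp_ofReal_mul_I _
  · intro n hn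
    refine lt_of_lt_of_le ?_ (hlow n hn)
    positivity
  · intro n hn
    refine (hup n hn).trans ?_
    have hn0 : (0 : ℝ) < n := by
      have : 0 < n := by omega
      exact_mod_cast this
    rw [div_le_one hn0]
    refine htN.trans ?_
    exact_mod_cast hn
  · intro n hn
    have hn0 : (0 : ℝ) < n := by
      have : 0 < n := by omega
      exact_mod_cast this
    rw [hθdef]
    dsimp only
    rw [hlog n hn, hlog (n + 1) (by omega)]
    apply mul_le_mul_of_nonneg_left _ ht0.le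
    apply Real.log_le_log (by positivity)
    rw [div_le_div_iff₀ (by positivity) hn0]
    push_cast
    nlinarith
  · intro n hn
    rw [hadef, hθdef]
    dsimp only
    rw [← Complex.exp_add]
    congr 1
    push_cast
    ring

/-- **Kusmin-Landau** for `n^(it)`, `1 ≤ |t| ≤ N ≤ N' ≤ 2N`: the sum is `O(N/|t|)`.

Proof. Conjugation: `t > 0`. `a_n = n^(it)`, `θ_n = t log (1 + 1/n)` for `n ≥ N`: `θ_n ≤ t/n ≤ 1`, decreasing in `n`,
`θ_n ≥ t/(n + 1) ≥ t/(3N)` for `n ≤ 2N`. `a_{n+1} = e^(iθ_n) a_n`, so `a_n = c_n (a_{n+1} - a_n)`,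
`c_n = 1/(e^(iθ_n) - 1) = -1/2 - (i/2) cot (θ_n/2)`, `|c_n| = 1/(2 sin (θ_n/2)) ≤ π/(2 θ_n) ≤ 5N/t`
(`Real.mul_le_sin`). Summation by parts:
`∑_{N < n ≤ N'} a_n = c_{N'} a_{N'+1} - c_{N+1} a_{N+1} - ∑_{N+2 ≤ n ≤ N'} (c_n - c_{n-1}) a_n`, and
`∑ |c_n - c_{n-1}| = (1/2) ∑ (cot (θ_n/2) - cot (θ_{n-1}/2)) ≤ (1/2) cot (θ_{N'}/2) ≤ 1/θ_{N'} ≤ 3N/t` (the differences are
`≥ 0` since `cot` is decreasing on `(0, π)`: `cot a - cot b = sin (b - a)/(sin a sin b)`; the sum telescopes;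
`cot z ≤ 1/z`). -/
theorem kl : ∃ C : ℝ, 0 < C ∧ ∀ (t : ℝ) (N N' : ℕ), 1 ≤ |t| → |t| ≤ N → N ≤ N' → N' ≤ 2 * N →
    ‖∑ n ∈ Ioc N N', (n : ℂ) ^ ((t : ℂ) * Complex.I)‖ ≤ C * (N / |t|) := by
  refine ⟨7, by norm_num, ?_⟩
  intro t N N' h1 h2 h3 h4
  rcases le_or_gt 0 t with ht | ht
  · rw [abs_of_nonneg ht] at h1 h2 ⊢
    exact X1_pos t N N' h1 h2 h3 h4
  · rw [abs_of_neg ht] at h1 h2 ⊢
    have key := X1_pos (-t) N N' h1 h2 h3 h4
    have hconj : ∑ n ∈ Ioc N N', (n : ℂ) ^ ((t : ℂ) * Complex.I) =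
        (starRingEnd ℂ) (∑ n ∈ Ioc N N', (n : ℂ) ^ (((-t : ℝ) : ℂ) * Complex.I)) := by
      rw [map_sum]
      apply sum_congr rfl
      intro n hn
      have hn0 : n ≠ 0 := by
        have := (mem_Ioc.mp hn).1
        omega
      have hnC : (n : ℂ) ≠ 0 := by exact_mod_cast hn0
      rw [Complex.cpow_def_of_ne_zero hnC, Complex.cpow_def_of_ne_zero hnC, ← Complex.exp_conj,
        ← Complex.natCast_log]
      congr 1
      simp only [map_mul, Complex.conj_ofReal, Complex.conj_I]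
      push_cast
      ring
    rw [hconj, RCLike.norm_conj]
    exact key

end Pool.Agent.Lib.H31X
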