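import Pool.Agent.Lib.H31V.Defs
import Pool.Agent.Lib.H31W.Defs
import Pool.Agent.Lib.H68T.INVZ
import Pool.Agent.Lib.H68T.PER
import Pool.Agent.Lib.H68T.UNS
import Pool.Agent.Lib.H68T.MS

/-!
# H31X: definitions (MP_da1588_nt, part 2: Vinogradov-Korobov zero-free region)
-/

namespace Pool.Agent.Lib.H31X

/-- The rectangle `1 - L^(-3/4) ≤ Re s ≤ 2`, `|Im s| ≤ e^L`. -/
def Rl (L : ℝ) : Set ℂ :=
  {s | 1 - L ^ (-(3 / 4) : ℝ) ≤ s.re ∧ s.re ≤ 2 ∧ |s.im| ≤ Real.exp L}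

end Pool.Agent.Lib.H31X
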