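import Pool.Agent.Lib.H31X.X7

/-!
# Chunk X9 (M): sums of `Λ(n) n^(-it)`
-/

open Finset

namespace Pool.Agent.Lib.H31X

open Pool.Agent.Lib.H68T
open Pool.Agent.Lib.H31W (ell)

private theorem X9_num (C : ℝ) : ∃ R : ℝ, 72 ≤ R ∧ ∀ y : ℝ, R ≤ y →
    1000 * (C + 1) * y ^ 20 ≤ Real.exp (y / 4) := by
  have h1 : Filter.Tendsto (fun x : ℝ => x ^ 20 / Real.exp x) Filter.atTop (nhds 0) :=
    (Real.tendsto_pow_mul_exp_neg_atTop_nhds_zero 20).congr fun x => by
      rw [Real.exp_neg, div_eq_mul_inv]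
  have h2 : Filter.Tendsto (fun y : ℝ => y / 4) Filter.atTop Filter.atTop :=
    Filter.Tendsto.atTop_div_const (by norm_num) Filter.tendsto_id
  have h3 := h1.comp h2
  have h4 : ∀ᶠ y : ℝ in Filter.atTop, (y / 4) ^ 20 / Real.exp (y / 4) <
      1 / (1000 * (|C| + 1) * 4 ^ 20) := by
    have h5 : (0 : ℝ) < 1 / (1000 * (|C| + 1) * 4 ^ 20) := by positivity
    exact h3.eventually (gt_mem_nhds h5)
  obtain ⟨R, hR⟩ := Filter.eventually_atTop.mp h4
  refine ⟨max R 72, le_max_right _ _, fun y hy => ?_⟩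
  have h6 := hR y ((le_max_left _ _).trans hy)
  have h7 : 0 < Real.exp (y / 4) := Real.exp_pos _
  rw [div_lt_div_iff₀ h7 (by positivity)] at h6
  have h8 : 1000 * (C + 1) * y ^ 20 ≤ 1000 * (|C| + 1) * y ^ 20 := by
    have h9 : C ≤ |C| := le_abs_self C
    have h10 : (0 : ℝ) ≤ y ^ 20 := by positivity
    nlinarith
  refine h8.trans ?_
  have h11 : (y / 4) ^ 20 * (1000 * (|C| + 1) * 4 ^ 20) = 1000 * (|C| + 1) * y ^ 20 := by
    rw [div_pow]
    field_simp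
  linarith

private theorem X9_pow (y : ℝ) (hy : 1 ≤ y) : (3 * y ^ 10) ^ (3 / 4 : ℝ) ≤ 3 * y ^ 8 := by
  have h0 : (0 : ℝ) ≤ 3 * y ^ 10 := by positivity
  have h1 : ((3 * y ^ 10) ^ (3 / 4 : ℝ)) ^ 4 = (3 * y ^ 10) ^ 3 := by
    rw [← Real.rpow_natCast, ← Real.rpow_mul h0, ← Real.rpow_natCast]
    norm_num
  have h2 : ((3 * y ^ 10) ^ (3 / 4 : ℝ)) ^ 4 ≤ (3 * y ^ 8) ^ 4 := by
    rw [h1]
    have h3 : (1 : ℝ) ≤ y ^ 2 := by nlinarith
    have h4 : (0 : ℝ) ≤ y ^ 30 := by positivity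
    nlinarith [mul_le_mul_of_nonneg_left h3 h4]
  exact le_of_pow_le_pow_left₀ (by norm_num) (by positivity) h2

/-- The numerical estimate, `y = ℓ`, `log X = y ^ 10`. -/
private theorem X9_est (C : ℝ) (hC : 0 < C) (y : ℝ) (hy : 72 ≤ y)
    (hD : 1000 * (C + 1) * y ^ 20 ≤ Real.exp (y / 4)) (u T : ℝ)
    (hu0 : 1 ≤ u) (hu1 : y ^ 10 / 6 ≤ Real.log u) (hu2 : Real.log u ≤ 1 + 2 * y ^ 10)
    (hT : Real.exp (4 * y) / 2 ≤ T) :
    C * ((3 * y ^ 10 + 2) * u ^ (1 - (3 * y ^ 10) ^ (-(3 / 4) : ℝ)) + (3 * y ^ 10 + 2) * u / T ^ 2 +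
      u * (1 + Real.log u) ^ 2 / T) ≤ Real.exp (-(3 * y)) * u := by
  have hu : 0 < u := by linarith
  have hy1 : (1 : ℝ) ≤ y := by linarith
  have hy10 : (1 : ℝ) ≤ y ^ 10 := one_le_pow₀ hy1
  have hy20 : y ^ 20 = y ^ 10 * y ^ 10 := by ring
  have hy20' : y ^ 10 ≤ y ^ 20 := by rw [hy20]; nlinarith
  have hE : 0 < Real.exp (4 * y) := Real.exp_pos _
  have hTp : 0 < T := by linarith
  -- the three constants
  have hexp1 : Real.exp (y / 4) ≤ Real.exp y := Real.exp_le_exp.mpr (by linarith)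
  have hc0 : (1000 * C) * y ^ 20 ≤ Real.exp y := by
    refine le_trans ?_ (hD.trans hexp1)
    nlinarith [show (0 : ℝ) ≤ y ^ 20 by positivity]
  -- first term
  have hη : y ^ 2 / 18 ≤ (3 * y ^ 10) ^ (-(3 / 4) : ℝ) * Real.log u := by
    have h1 : (1 : ℝ) / (3 * y ^ 8) ≤ (3 * y ^ 10) ^ (-(3 / 4) : ℝ) := by
      rw [Real.rpow_neg (by positivity), ← one_div]
      exact one_div_le_one_div_of_le (by positivity) (X9_pow y hy1)
    have h2 : y ^ 2 / 18 = 1 / (3 * y ^ 8) * (y ^ 10 / 6) := by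
      field_simp
      norm_num
    rw [h2]
    exact mul_le_mul h1 hu1 (by positivity) (by positivity)
  have hup : u ^ (1 - (3 * y ^ 10) ^ (-(3 / 4) : ℝ)) ≤ u * Real.exp (-(4 * y)) := by
    rw [Real.rpow_sub hu, Real.rpow_one, div_eq_mul_inv, ← Real.rpow_neg hu.le,
      Real.rpow_def_of_pos hu]
    refine mul_le_mul_of_nonneg_left (Real.exp_le_exp.mpr ?_) hu.le
    have h3 : 4 * y ≤ y ^ 2 / 18 := by nlinarith
    nlinarith
  have e4 : Real.exp (-(4 * y)) = Real.exp (-(3 * y)) * Real.exp (-y) := by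
    rw [← Real.exp_add]; ring_nf
  have hinv : Real.exp (-y) * Real.exp y = 1 := by
    rw [← Real.exp_add]; simp
  have hEy : 0 < Real.exp (-y) := Real.exp_pos _
  have hE3 : 0 < Real.exp (-(3 * y)) := Real.exp_pos _
  have key : (1000 * C) * y ^ 20 * Real.exp (-(4 * y)) ≤ Real.exp (-(3 * y)) := by
    rw [e4]
    calc (1000 * C) * y ^ 20 * (Real.exp (-(3 * y)) * Real.exp (-y))
        = Real.exp (-(3 * y)) * (((1000 * C) * y ^ 20) * Real.exp (-y)) := by ring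
      _ ≤ Real.exp (-(3 * y)) * (Real.exp y * Real.exp (-y)) := by gcongr
      _ = Real.exp (-(3 * y)) := by rw [mul_comm (Real.exp y), hinv, mul_one]
  have hTi : 1 / T ≤ 2 * Real.exp (-(4 * y)) := by
    rw [div_le_iff₀ hTp, Real.exp_neg]
    have h5 : 2 * (Real.exp (4 * y))⁻¹ * T = T / (Real.exp (4 * y) / 2) := by field_simp
    rw [h5, le_div_iff₀ (by positivity)]
    linarith
  have hTi0 : 0 ≤ 1 / T := by positivity
  have hT2 : 1 / T ≤ 1 := by
    rw [div_le_one hTp]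
    have := Real.add_one_le_exp (4 * y)
    linarith
  have a1 : C * ((3 * y ^ 10 + 2) * u ^ (1 - (3 * y ^ 10) ^ (-(3 / 4) : ℝ))) ≤
      5 * C * y ^ 20 * Real.exp (-(4 * y)) * u := by
    calc C * ((3 * y ^ 10 + 2) * u ^ (1 - (3 * y ^ 10) ^ (-(3 / 4) : ℝ)))
        ≤ C * ((5 * y ^ 20) * (u * Real.exp (-(4 * y)))) := by
          gcongr
          linarith
      _ = _ := by ring
  have a2 : C * ((3 * y ^ 10 + 2) * u / T ^ 2) ≤ 10 * C * y ^ 20 * Real.exp (-(4 * y)) * u := by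
    have h6 : (3 * y ^ 10 + 2) * u / T ^ 2 = (3 * y ^ 10 + 2) * u * (1 / T) * (1 / T) := by
      field_simp
    rw [h6]
    calc C * ((3 * y ^ 10 + 2) * u * (1 / T) * (1 / T))
        ≤ C * ((5 * y ^ 20) * u * (2 * Real.exp (-(4 * y))) * 1) := by
          gcongr
          linarith
      _ = _ := by ring
  have a3 : C * (u * (1 + Real.log u) ^ 2 / T) ≤ 32 * C * y ^ 20 * Real.exp (-(4 * y)) * u := by
    have h7 : u * (1 + Real.log u) ^ 2 / T = u * (1 + Real.log u) ^ 2 * (1 / T) := by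
      field_simp
    rw [h7]
    have h8 : (1 + Real.log u) ^ 2 ≤ (4 * y ^ 10) ^ 2 := by
      have : 0 ≤ Real.log u := Real.log_nonneg hu0
      apply pow_le_pow_left₀ (by linarith)
      linarith
    calc C * (u * (1 + Real.log u) ^ 2 * (1 / T))
        ≤ C * (u * (4 * y ^ 10) ^ 2 * (2 * Real.exp (-(4 * y)))) := by
          gcongr
      _ = _ := by ring
  have hfin : (5 * C * y ^ 20 * Real.exp (-(4 * y)) + 10 * C * y ^ 20 * Real.exp (-(4 * y)) +
      32 * C * y ^ 20 * Real.exp (-(4 * y))) ≤ Real.exp (-(3 * y)) := by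
    have h9 : 0 ≤ C * y ^ 20 * Real.exp (-(4 * y)) := by positivity
    nlinarith
  calc C * ((3 * y ^ 10 + 2) * u ^ (1 - (3 * y ^ 10) ^ (-(3 / 4) : ℝ)) +
        (3 * y ^ 10 + 2) * u / T ^ 2 + u * (1 + Real.log u) ^ 2 / T)
      = C * ((3 * y ^ 10 + 2) * u ^ (1 - (3 * y ^ 10) ^ (-(3 / 4) : ℝ))) +
        C * ((3 * y ^ 10 + 2) * u / T ^ 2) + C * (u * (1 + Real.log u) ^ 2 / T) := by ring
    _ ≤ (5 * C * y ^ 20 * Real.exp (-(4 * y)) + 10 * C * y ^ 20 * Real.exp (-(4 * y)) +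
      32 * C * y ^ 20 * Real.exp (-(4 * y))) * u := by linarith
    _ ≤ Real.exp (-(3 * y)) * u := mul_le_mul_of_nonneg_right hfin hu.le

private theorem X9_norm (n : ℕ) (hn : 1 ≤ n) (t : ℝ) :
    ‖(n : ℂ) ^ (-((t : ℂ) * Complex.I))‖ = 1 := by
  rw [Complex.norm_natCast_cpow_of_pos (by omega)]
  simp

private theorem X9_lser (s : ℂ) (t : ℝ) :
    LSeries (fun n : ℕ => (ArithmeticFunction.vonMangoldt n : ℂ) *
      (n : ℂ) ^ (-((t : ℂ) * Complex.I))) s =
      LSeries (fun n => (ArithmeticFunction.vonMangoldt n : ℂ)) (s + t * Complex.I) := by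
  unfold LSeries
  refine tsum_congr fun n => ?_
  rcases Nat.eq_zero_or_pos n with h0 | h0
  · subst h0
    simp [LSeries.term]
  · have hn : (n : ℂ) ≠ 0 := by exact_mod_cast h0.ne'
    rw [LSeries.term_of_ne_zero h0.ne', LSeries.term_of_ne_zero h0.ne', Complex.cpow_add _ _ hn,
      Complex.cpow_neg]
    have h1 : (n : ℂ) ^ s ≠ 0 := by
      simp [Complex.cpow_eq_zero_iff, hn]
    have h2 : (n : ℂ) ^ ((t : ℂ) * Complex.I) ≠ 0 := by
      simp [Complex.cpow_eq_zero_iff, hn]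
    field_simp

/-- **Sums of `Λ(n) n^(-it)`.** The same proof as `sum_mu` (read the docstring of X8) with `g` from `inv_lam`,
`f(s) = g(s + it) + 1/(s + it - 1)`, which is analytic for `|Im s| ≤ T = |t|/2` (`|Im (s + it - 1)| ≥ |t|/2 > 0`) and bounded
there by `L + 1 + 2/|t| ≤ L + 2 = B`; `f(s) = LSeries a s` for `Re s > 1`, `a n = Λ(n) n^(-it)`, `‖a n‖ ≤ log n`. -/
theorem sum_lam : ∃ K : ℝ, 3 ≤ K ∧ ∀ X : ℝ, K ≤ X → ∀ u t : ℝ, X ^ (1 / 6 : ℝ) ≤ u → u ≤ X ^ 2 →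
    Real.exp (4 * ell X) ≤ |t| → |t| ≤ X ^ 2 →
    ‖∑ n ∈ Icc 1 ⌊u⌋₊, (ArithmeticFunction.vonMangoldt n : ℂ) *
      (n : ℂ) ^ (-((t : ℂ) * Complex.I))‖ ≤ u * Real.exp (-(5 / 4 * ell X)) := by
  obtain ⟨C, hC, hper⟩ := perron
  obtain ⟨L₀, hL₀, hlam⟩ := inv_lam
  obtain ⟨R, hR, hnum⟩ := X9_num C
  refine ⟨Real.exp ((R + L₀) ^ 10), ?_, ?_⟩
  · have h1 : (3 : ℝ) ≤ (R + L₀) ^ 10 := by
      have h2 : (1 : ℝ) ≤ R + L₀ := by linarith
      have h3 : (R + L₀) ^ 1 ≤ (R + L₀) ^ 10 := pow_le_pow_right₀ h2 (by norm_num)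
      linarith
    have := Real.add_one_le_exp ((R + L₀) ^ 10)
    linarith
  intro X hX u t hu0 hu1 ht0 ht1
  have hXp : 0 < X := (Real.exp_pos _).trans_le hX
  have hlogX : (R + L₀) ^ 10 ≤ Real.log X := (Real.le_log_iff_exp_le hXp).mpr hX
  have hRL : (0 : ℝ) ≤ R + L₀ := by linarith
  have hlogX0 : 0 ≤ Real.log X := le_trans (by positivity) hlogX
  set y : ℝ := ell X with hydef
  have hy10 : y ^ 10 = Real.log X := by
    rw [hydef]
    unfold ell
    rw [← Real.rpow_natCast, ← Real.rpow_mul hlogX0]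
    norm_num
  have hyR : R + L₀ ≤ y := by
    have h1 : ((R + L₀) ^ 10) ^ (1 / 10 : ℝ) ≤ y := by
      rw [hydef]
      unfold ell
      exact Real.rpow_le_rpow (by positivity) hlogX (by norm_num)
    have h2 : ((R + L₀) ^ 10) ^ (1 / 10 : ℝ) = R + L₀ := by
      rw [← Real.rpow_natCast, ← Real.rpow_mul hRL]
      norm_num
    linarith
  have hy72 : 72 ≤ y := by linarith
  have hyL : L₀ ≤ y := by linarith
  have hD := hnum y (by linarith)
  have hy1 : (1 : ℝ) ≤ y := by linarith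
  have hy10' : y ≤ y ^ 10 := by
    calc y = y ^ 1 := (pow_one y).symm
      _ ≤ y ^ 10 := pow_le_pow_right₀ hy1 (by norm_num)
  have hy18 : 18 * y ≤ y ^ 10 := by
    have h1 : y ^ 2 ≤ y ^ 10 := pow_le_pow_right₀ hy1 (by norm_num)
    nlinarith
  have hXe : X = Real.exp (y ^ 10) := by rw [hy10, Real.exp_log hXp]
  have hX1 : 1 ≤ X := by
    rw [hXe]
    exact Real.one_le_exp (by positivity)
  have hX3 : (3 : ℝ) / 2 ≤ X := by
    rw [hXe]
    have := Real.add_one_le_exp (y ^ 10)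
    linarith
  obtain ⟨g, hgan, hgL, hgB⟩ := hlam (3 * y ^ 10) (by linarith)
  have hexp3 : Real.exp (3 * y ^ 10) = X ^ 3 := by
    rw [hXe, ← Real.exp_nat_mul]
    norm_num
  have ht2 : 2 ≤ |t| := by
    have := Real.add_one_le_exp (4 * y)
    linarith
  have htp : 0 < |t| := by linarith
  -- shift
  have hmem : ∀ s : ℂ, 1 - (3 * y ^ 10) ^ (-(3 / 4) : ℝ) ≤ s.re → s.re ≤ 2 → |s.im| ≤ |t| / 2 →
      s + t * Complex.I ∈ Rl (3 * y ^ 10) := by
    intro s h1 h2 h3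
    refine ⟨?_, ?_, ?_⟩
    · simpa using h1
    · simpa using h2
    · have h4 : (s + t * Complex.I).im = s.im + t := by simp
      rw [h4, hexp3]
      have h5 : |s.im + t| ≤ |s.im| + |t| := abs_add_le _ _
      have h6 : 3 / 2 * X ^ 2 ≤ X ^ 3 := by
        nlinarith [sq_nonneg X]
      linarith
  have him : ∀ s : ℂ, |s.im| ≤ |t| / 2 → |t| / 2 ≤ ‖s + t * Complex.I - 1‖ := by
    intro s h1
    have h2 : (s + t * Complex.I - 1).im = s.im + t := by simp
    have h3 := Complex.abs_im_le_norm (s + t * Complex.I - 1)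
    rw [h2] at h3
    have h4 : |t| ≤ |s.im + t| + |s.im| := by
      have h5 : t = (s.im + t) - s.im := by ring
      calc |t| = |(s.im + t) - s.im| := by rw [← h5]
        _ ≤ |s.im + t| + |s.im| := abs_sub _ _
    linarith
  have hne : ∀ s : ℂ, |s.im| ≤ |t| / 2 → s + t * Complex.I - 1 ≠ 0 := by
    intro s h1 h2
    have h3 := him s h1
    rw [h2, norm_zero] at h3
    linarith
  have hη2 : (3 * y ^ 10) ^ (-(3 / 4) : ℝ) ≤ 1 / 2 := by
    rw [Real.rpow_neg (by positivity)]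
    have h1 : (2 : ℝ) ≤ (3 * y ^ 10) ^ (3 / 4 : ℝ) := by
      have h2 : (16 : ℝ) ≤ 3 * y ^ 10 := by linarith
      have h3 : (16 : ℝ) ^ (3 / 4 : ℝ) ≤ (3 * y ^ 10) ^ (3 / 4 : ℝ) :=
        Real.rpow_le_rpow (by norm_num) h2 (by norm_num)
      have h4 : (16 : ℝ) ^ (3 / 4 : ℝ) = 8 := by
        rw [show (16 : ℝ) = 2 ^ (4 : ℝ) by norm_num, ← Real.rpow_mul (by norm_num)]
        norm_num
      linarith
    rw [inv_le_comm₀ (by positivity) (by norm_num)]
    norm_num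
    exact h1
  have hη0 : 0 < (3 * y ^ 10) ^ (-(3 / 4) : ℝ) := by positivity
  have ha : ∀ n : ℕ, 1 ≤ n → ‖(ArithmeticFunction.vonMangoldt n : ℂ) *
      (n : ℂ) ^ (-((t : ℂ) * Complex.I))‖ ≤ 1 + Real.log n := by
    intro n hn
    rw [norm_mul, X9_norm n hn, mul_one, Complex.norm_real,
      Real.norm_of_nonneg ArithmeticFunction.vonMangoldt_nonneg]
    have := ArithmeticFunction.vonMangoldt_le_log (n := n)
    linarith
  have hX6 : X ^ (1 / 6 : ℝ) = Real.exp (y ^ 10 / 6) := by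
    rw [hXe, ← Real.exp_mul]
    ring_nf
  have hu6 : 3 ≤ X ^ (1 / 6 : ℝ) := by
    rw [hX6]
    have := Real.add_one_le_exp (y ^ 10 / 6)
    linarith
  -- Perron
  have hP : ∀ v : ℝ, X ^ (1 / 6 : ℝ) ≤ v → v ≤ 2 * X ^ 2 →
      ‖∑ n ∈ Icc 1 ⌊v⌋₊, ((ArithmeticFunction.vonMangoldt n : ℂ) *
        (n : ℂ) ^ (-((t : ℂ) * Complex.I))) * (1 - n / v)‖ ≤ Real.exp (-(3 * y)) * v := by
    intro v hv0 hv1
    have hv3 : 3 ≤ v := hu6.trans hv0
    have hvp : 0 < v := by linarith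
    have h := hper (fun n : ℕ => (ArithmeticFunction.vonMangoldt n : ℂ) *
        (n : ℂ) ^ (-((t : ℂ) * Complex.I)))
      (fun s => g (s + t * Complex.I) + 1 / (s + t * Complex.I - 1)) 0
      ((3 * y ^ 10) ^ (-(3 / 4) : ℝ)) (|t| / 2) (3 * y ^ 10 + 2) v (by simp) hη0 hη2
      (by linarith) hv3 (by nlinarith) ha ?_ ?_ ?_
    · rw [zero_mul, sub_zero] at h
      refine h.trans (X9_est C hC y hy72 hD v (|t| / 2) (by linarith) ?_ ?_ (by linarith))
      · rw [Real.le_log_iff_exp_le hvp, ← hX6]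
        exact hv0
      · have h1 : Real.log v ≤ Real.log (2 * X ^ 2) := Real.log_le_log hvp hv1
        rw [Real.log_mul (by norm_num) (by positivity), Real.log_pow, ← hy10] at h1
        have := Real.log_two_lt_d9
        push_cast at h1
        linarith
    · intro s hs
      obtain ⟨h1, h2, h3⟩ := hs
      have hsh : AnalyticAt ℂ (fun s : ℂ => s + t * Complex.I) s := by fun_prop
      refine AnalyticAt.add ?_ ?_
      · exact AnalyticAt.fun_comp (hgan _ (hmem s h1 h2 h3)) hsh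
      · refine AnalyticAt.div analyticAt_const ?_ (hne s h3)
        fun_prop
    · intro s h1 h2 h3
      refine (norm_add_le _ _).trans ?_
      have h4 := hgB _ (hmem s h1 h2 h3)
      have h5 : ‖1 / (s + t * Complex.I - 1)‖ ≤ 1 := by
        rw [norm_div, norm_one]
        rw [div_le_one (lt_of_lt_of_le (by linarith) (him s h3))]
        have := him s h3
        linarith
      linarith
    · intro s hs
      rw [X9_lser, zero_div, sub_zero]
      have h6 := hgL (s + t * Complex.I) (by simpa using hs)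
      rw [h6]
      ring
  -- unsmoothing
  have hκ1 : Real.exp (-(3 * y)) ≤ 1 := by
    rw [Real.exp_le_one_iff]
    linarith
  have hκu : 1 ≤ Real.exp (-(3 * y)) * X ^ (1 / 6 : ℝ) := by
    rw [hX6, ← Real.exp_add]
    exact Real.one_le_exp (by linarith)
  have hU := unsmooth (fun n : ℕ => (ArithmeticFunction.vonMangoldt n : ℂ) *
        (n : ℂ) ^ (-((t : ℂ) * Complex.I))) (Real.exp (-(3 * y))) (X ^ (1 / 6 : ℝ)) (X ^ 2)
    (Real.exp_pos _) hκ1 (by linarith) hκu ha hP u hu0 hu1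
  refine hU.trans ?_
  have hsq : Real.sqrt (Real.exp (-(3 * y))) = Real.exp (-(3 / 2 * y)) := by
    rw [Real.sqrt_eq_iff_mul_self_eq_of_pos (Real.exp_pos _), ← Real.exp_add]
    ring_nf
  rw [hsq]
  have hup : 0 < u := by linarith
  have hlogu : Real.log u ≤ 2 * y ^ 10 := by
    have h1 := Real.log_le_log hup hu1
    rw [Real.log_pow, ← hy10] at h1
    push_cast at h1
    exact h1
  have hy20 : y ^ 10 ≤ y ^ 20 := pow_le_pow_right₀ hy1 (by norm_num)
  have h20 : 20 * (1 + Real.log u) ≤ Real.exp (y / 4) := by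
    refine le_trans ?_ hD
    have h1 : (1 : ℝ) ≤ y ^ 20 := one_le_pow₀ hy1
    nlinarith
  have hexp : Real.exp (-(5 / 4 * y)) = Real.exp (-(3 / 2 * y)) * Real.exp (y / 4) := by
    rw [← Real.exp_add]
    ring_nf
  rw [hexp]
  calc 20 * Real.exp (-(3 / 2 * y)) * u * (1 + Real.log u)
      = u * (Real.exp (-(3 / 2 * y)) * (20 * (1 + Real.log u))) := by ring
    _ ≤ u * (Real.exp (-(3 / 2 * y)) * Real.exp (y / 4)) := by gcongr

end Pool.Agent.Lib.H31X
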