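import Pool.Agent.Lib.H31X.X8
import Pool.Agent.Lib.H31X.X9

/-!
# Chunk X10 (M): the property `SupProp`
-/

open Finset

namespace Pool.Agent.Lib.H31X

open Pool.Agent.Lib.H68T
open Pool.Agent.Lib.H31W (ell SupProp)

theorem x10_grow : ∃ K : ℝ, 1 ≤ K ∧ ∀ X : ℝ, K ≤ X → 2 * (3 + 2 * Real.log X) ≤ Real.exp (ell X / 4) := by
  have h1 := Real.tendsto_pow_mul_exp_neg_atTop_nhds_zero 10
  have h2 : ∀ᶠ x : ℝ in Filter.atTop, x ^ 10 * Real.exp (-x) < 1 / (10 * 4 ^ 10) :=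
    h1.eventually_lt_const (by positivity)
  obtain ⟨x0, hx0⟩ := (h2.and (Filter.eventually_ge_atTop 1)).exists_forall_of_atTop
  have hx1 : 1 ≤ x0 := (hx0 x0 le_rfl).2
  refine ⟨Real.exp ((4 * x0) ^ 10), Real.one_le_exp (by positivity), fun X hX => ?_⟩
  have hX0 : 0 < X := lt_of_lt_of_le (Real.exp_pos _) hX
  have hL : (4 * x0) ^ 10 ≤ Real.log X := (Real.le_log_iff_exp_le hX0).2 hX
  have hL0 : 0 ≤ Real.log X := le_trans (by positivity) hL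
  have e1 : ell X ^ 10 = Real.log X := by
    unfold ell
    rw [← Real.rpow_natCast, ← Real.rpow_mul hL0]
    norm_num
  have e0 : 0 ≤ ell X := Real.rpow_nonneg hL0 _
  have e2 : 4 * x0 ≤ ell X := by
    have : (4 * x0) ^ 10 ≤ ell X ^ 10 := by rw [e1]; exact hL
    exact le_of_pow_le_pow_left₀ (by norm_num) e0 this
  have e3 : x0 ≤ ell X / 4 := by linarith
  obtain ⟨h3, h4⟩ := hx0 _ e3
  rw [Real.exp_neg, ← div_eq_mul_inv, div_lt_div_iff₀ (Real.exp_pos _) (by positivity), one_mul] at h3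
  have e4 : Real.log X = 4 ^ 10 * (ell X / 4) ^ 10 := by
    rw [← e1]
    ring
  have h5 : 1 ≤ (ell X / 4) ^ 10 := one_le_pow₀ h4
  rw [e4]
  nlinarith

theorem x10_core (f : ℕ → ℂ) (X u v t : ℝ) (hX : 1 ≤ X) (hg : 2 * (3 + 2 * Real.log X) ≤ Real.exp (ell X / 4))
    (hu : X ^ (1 / 6 : ℝ) ≤ u) (huv : u ≤ v) (hv : v ≤ X ^ 2)
    (h : ∀ u' : ℝ, X ^ (1 / 6 : ℝ) ≤ u' → u' ≤ X ^ 2 →
      ‖∑ n ∈ Icc 1 ⌊u'⌋₊, f n * (n : ℂ) ^ (-((t : ℂ) * Complex.I))‖ ≤ u' * Real.exp (-(5 / 4 * ell X))) :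
    ‖∑ n ∈ Ioc ⌊u⌋₊ ⌊v⌋₊, f n * (n : ℂ) ^ (-(1 + (t : ℂ) * Complex.I))‖ ≤ Real.exp (-ell X) := by
  have hu1 : 1 ≤ u := le_trans (Real.one_le_rpow hX (by norm_num)) hu
  have hv1 : 1 ≤ v := le_trans hu1 huv
  have hM : 1 ≤ ⌊u⌋₊ := (Nat.one_le_floor_iff u).2 hu1
  have hN : 1 ≤ ⌊v⌋₊ := (Nat.one_le_floor_iff v).2 hv1
  have hb : ∀ n, ⌊u⌋₊ ≤ n → n ≤ ⌊v⌋₊ → ‖∑ k ∈ Icc 1 n, f k * (k : ℂ) ^ (-((t : ℂ) * Complex.I))‖ ≤
      (2 * Real.exp (-(5 / 4 * ell X))) * n := by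
    intro n h1 h2
    have h1' : (⌊u⌋₊ : ℝ) ≤ n := by exact_mod_cast h1
    have hnv : (n : ℝ) ≤ v := (Nat.le_floor_iff (by linarith)).1 h2
    have hfl : ⌊max u n⌋₊ = n := by
      rcases le_total u n with h3 | h3
      · rw [max_eq_right h3, Nat.floor_natCast]
      · rw [max_eq_left h3]
        exact le_antisymm h1 (Nat.le_floor h3)
    have h4 := h (max u n) (le_trans hu (le_max_left _ _)) (max_le (huv.trans hv) (hnv.trans hv))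
    rw [hfl] at h4
    refine h4.trans ?_
    have h5 : u < ⌊u⌋₊ + 1 := Nat.lt_floor_add_one u
    have h6 : (1 : ℝ) ≤ n := by exact_mod_cast hM.trans h1
    have h7 : max u (n : ℝ) ≤ 2 * n := max_le (by linarith) (by linarith)
    calc max u (n : ℝ) * Real.exp (-(5 / 4 * ell X)) ≤ 2 * n * Real.exp (-(5 / 4 * ell X)) :=
          mul_le_mul_of_nonneg_right h7 (Real.exp_pos _).le
      _ = _ := by ring
  have h8 := ms_abel (fun k => f k * (k : ℂ) ^ (-((t : ℂ) * Complex.I))) (2 * Real.exp (-(5 / 4 * ell X)))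
    (by positivity) ⌊u⌋₊ ⌊v⌋₊ hN hb
  have e1 : ∑ n ∈ Ioc ⌊u⌋₊ ⌊v⌋₊, f n * (n : ℂ) ^ (-(1 + (t : ℂ) * Complex.I)) =
      ∑ n ∈ Icc (⌊u⌋₊ + 1) ⌊v⌋₊, f n * (n : ℂ) ^ (-((t : ℂ) * Complex.I)) * (n : ℂ)⁻¹ := by
    have e2 : Ioc ⌊u⌋₊ ⌊v⌋₊ = Icc (⌊u⌋₊ + 1) ⌊v⌋₊ := by
      ext n
      simp only [mem_Ioc, mem_Icc]
      omega
    rw [e2]
    refine sum_congr rfl fun n hn => ?_
    have hn0 : (n : ℂ) ≠ 0 := by
      have := (mem_Icc.1 hn).1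
      exact_mod_cast (by omega : n ≠ 0)
    rw [show -(1 + (t : ℂ) * Complex.I) = -((t : ℂ) * Complex.I) + (-1) by ring, Complex.cpow_add _ _ hn0,
      Complex.cpow_neg_one]
    ring
  rw [e1]
  refine h8.trans ?_
  have hlog : Real.log (⌊v⌋₊ : ℝ) ≤ 2 * Real.log X := by
    have h9 : (⌊v⌋₊ : ℝ) ≤ X ^ 2 := (Nat.floor_le (by linarith)).trans hv
    have h10 : (0 : ℝ) < ⌊v⌋₊ := by exact_mod_cast hN
    have := Real.log_le_log h10 h9
    rwa [Real.log_pow, Nat.cast_ofNat] at this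
  have e3 : Real.exp (-(5 / 4 * ell X)) = Real.exp (-ell X) * (Real.exp (ell X / 4))⁻¹ := by
    rw [← Real.exp_neg, ← Real.exp_add]
    congr 1
    ring
  have hpos := Real.exp_pos (ell X / 4)
  calc 2 * Real.exp (-(5 / 4 * ell X)) * (3 + Real.log (⌊v⌋₊ : ℝ)) ≤
      2 * Real.exp (-(5 / 4 * ell X)) * (3 + 2 * Real.log X) := by
        refine mul_le_mul_of_nonneg_left (by linarith) (by positivity)
    _ = Real.exp (-ell X) * ((2 * (3 + 2 * Real.log X)) * (Real.exp (ell X / 4))⁻¹) := by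
        rw [e3]
        ring
    _ ≤ Real.exp (-ell X) * 1 := by
        refine mul_le_mul_of_nonneg_left ?_ (Real.exp_pos _).le
        rw [← div_eq_mul_inv]
        exact (div_le_one hpos).2 hg
    _ = Real.exp (-ell X) := mul_one _

/-- **SupProp.** Partial summation against `1/n`: `n^(-(1+it)) = n^(-it) n^(-1)`. With `δ = 2 exp (-(5/4)ℓ)`:
for natural `n` with `⌊u⌋ ≤ n ≤ ⌊v⌋` the sum over `k ≤ n` is at most `δ n` (`sum_mu` at `max u n ≤ v ≤ X²`, whose floor is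
`n`; `max u n ≤ 2n`), so `ms_abel` (file `H68T/MS.lean`) bounds the sum over `(⌊u⌋, ⌊v⌋]` by
`δ (3 + log v) ≤ 2 exp (-(5/4)ℓ)(3 + 2 log X) ≤ exp (-ℓ)` for large `X`. The same for `Λ`. -/
theorem sup_prop : SupProp := by
  obtain ⟨K1, hK1, h1⟩ := sum_mu
  obtain ⟨K2, hK2, h2⟩ := sum_lam
  obtain ⟨K3, hK3, h3⟩ := x10_grow
  refine ⟨max K3 (max K1 K2), le_trans hK3 (le_max_left _ _), fun X hX u v t hu huv hv ht1 ht2 => ?_⟩
  have hX3 : K3 ≤ X := (le_max_left _ _).trans hX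
  have hX1 : K1 ≤ X := ((le_max_left _ _).trans (le_max_right _ _)).trans hX
  have hX2 : K2 ≤ X := ((le_max_right _ _).trans (le_max_right _ _)).trans hX
  exact ⟨x10_core _ X u v t (hK3.trans hX3) (h3 X hX3) hu huv hv fun u' a b => h1 X hX1 u' t a b ht1 ht2,
    x10_core _ X u v t (hK3.trans hX3) (h3 X hX3) hu huv hv fun u' a b => h2 X hX2 u' t a b ht1 ht2⟩

end Pool.Agent.Lib.H31X
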