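import Pool.Agent.Lib.H31W.S6
import Pool.Agent.Lib.H31X.X10
import Pool.Agent.Lib.H31X.X11

/-!
# H31X: the final theorem, without hypotheses
-/

namespace Pool.Agent.Lib.H31X

/-- All but at most `N exp (-(log N)^(1/11))` of the `n ≤ N` are good. -/
theorem final_thm : Pool.Agent.Lib.H31W.Final :=
  Pool.Agent.Lib.H31W.final sup_prop pnt_prop

end Pool.Agent.Lib.H31X
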