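import Pool.Agent.Lib.H31V.ZS
import Pool.Agent.Lib.H31X.X1
import Pool.Agent.Lib.H31X.X2

/-!
# Chunk X3 (M/L): growth of zeta near the line `Re s = 1` (Vinogradov-Korobov)
-/

open Finset

namespace Pool.Agent.Lib.H31X

open Pool.Agent.Lib.H68T

private theorem X3_dyadic (F : ℕ → ℂ) (B : ℝ) (hB0 : 0 ≤ B) (K₀ : ℕ)
    (hB : ∀ N N' : ℕ, 1 ≤ N → N ≤ N' → N' ≤ 2 * N → N' ≤ K₀ → ‖∑ n ∈ Ioc N N', F n‖ ≤ B) :
    ∀ (J K : ℕ), K ≤ K₀ → K ≤ 2 ^ J → ‖∑ n ∈ Icc 1 K, F n‖ ≤ ‖F 1‖ + J * B := by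
  intro J
  induction J with
  | zero =>
    intro K _ hK
    rw [pow_zero] at hK
    interval_cases K
    · simp
    · simp
  | succ J ih =>
    intro K hK0 hK
    rcases le_or_gt K (2 ^ J) with h | h
    · refine (ih K hK0 h).trans ?_
      push_cast
      nlinarith
    · have h0 : 1 ≤ 2 ^ J := Nat.one_le_two_pow
      have h1 : Icc 1 K = Icc 1 (2 ^ J) ∪ Ioc (2 ^ J) K := by
        ext n
        simp only [mem_Icc, mem_union, mem_Ioc]
        omega
      have h2 : Disjoint (Icc 1 (2 ^ J)) (Ioc (2 ^ J) K) := by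
        rw [Finset.disjoint_left]
        intro n hn hn'
        simp only [mem_Icc, mem_Ioc] at hn hn'
        omega
      rw [h1, Finset.sum_union h2]
      refine (norm_add_le _ _).trans ?_
      have h3 := ih (2 ^ J) (h.le.trans hK0) le_rfl
      have h4 := hB (2 ^ J) K h0 h.le (by rw [pow_succ] at hK; omega) hK0
      push_cast
      linarith

private theorem X3_conj (t : ℝ) (s : Finset ℕ) :
    ‖∑ n ∈ s, (n : ℂ) ^ ((t : ℂ) * Complex.I)‖ =
      ‖∑ n ∈ s, (n : ℂ) ^ (((|t| : ℝ) : ℂ) * Complex.I)‖ := by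
  rcases abs_choice t with h | h
  · rw [h]
  · rw [h]
    have h1 : ∑ n ∈ s, (n : ℂ) ^ (((-t : ℝ) : ℂ) * Complex.I) =
        (starRingEnd ℂ) (∑ n ∈ s, (n : ℂ) ^ ((t : ℂ) * Complex.I)) := by
      rw [map_sum]
      refine Finset.sum_congr rfl (fun n _ => ?_)
      have h2 := Complex.cpow_conj (n : ℂ) ((t : ℂ) * Complex.I) (by
        rw [Complex.natCast_arg]
        exact Real.pi_ne_zero.symm)
      have h3 : (starRingEnd ℂ) ((t : ℂ) * Complex.I) = ((-t : ℝ) : ℂ) * Complex.I := by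
        rw [map_mul, Complex.conj_ofReal, Complex.conj_I]
        push_cast
        ring
      rw [h3, Complex.conj_natCast] at h2
      exact h2
    rw [h1, RCLike.norm_conj]

/-- the exponent of a block -/
private theorem X3_exp (c L σ a y : ℝ) (hc : 0 < c) (hc1 : c ≤ 1 / 4) (hL : 1 ≤ L)
    (hσ : 1 - c * L ^ (-(2 / 3) : ℝ) ≤ σ) (ha : 0 < a) (haL : a ≤ L) (hy : 0 ≤ y) :
    y * (1 - c * (y / a) ^ 2 - σ) ≤ 1 := by
  have hL0 : 0 < L := by linarith
  set w := L ^ (-(2 / 3) : ℝ) with hw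
  have hw0 : 0 < w := Real.rpow_pos_of_pos hL0 _
  have hw3 : w ^ 3 = 1 / L ^ 2 := by
    rw [hw, ← Real.rpow_natCast, ← Real.rpow_mul hL0.le]
    have : (-(2 / 3) : ℝ) * ((3 : ℕ) : ℝ) = -2 := by
      push_cast
      ring
    rw [this, Real.rpow_neg hL0.le, one_div]
    congr 1
    exact_mod_cast Real.rpow_natCast L 2
  set z := y * w with hz
  have hz0 : 0 ≤ z := mul_nonneg hy hw0.le
  have h1 : z ^ 3 ≤ y * (y / a) ^ 2 := by
    have h2 : z ^ 3 = y * (y ^ 2 * (1 / L ^ 2)) := by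
      rw [hz, mul_pow, hw3]
      ring
    rw [h2, div_pow]
    apply mul_le_mul_of_nonneg_left _ hy
    rw [div_eq_mul_one_div (y ^ 2) (a ^ 2)]
    apply mul_le_mul_of_nonneg_left _ (sq_nonneg y)
    apply one_div_le_one_div_of_le (by positivity)
    exact pow_le_pow_left₀ ha.le haL 2
  have h3 : z - z ^ 3 ≤ 1 := by
    rcases le_total z 1 with h | h
    · have : 0 ≤ z ^ 3 := by positivity
      linarith
    · nlinarith [mul_nonneg hz0 hz0, mul_nonneg hz0 (sub_nonneg.mpr h)]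
  have h4 : y * (1 - σ) ≤ c * z := by
    have : 1 - σ ≤ c * w := by linarith
    calc y * (1 - σ) ≤ y * (c * w) := mul_le_mul_of_nonneg_left this hy
      _ = c * z := by rw [hz]; ring
  have h5 : c * (z - z ^ 3) ≤ 1 := by
    have : c * (z - z ^ 3) ≤ c * 1 := mul_le_mul_of_nonneg_left h3 hc.le
    linarith
  calc y * (1 - c * (y / a) ^ 2 - σ) = y * (1 - σ) - c * (y * (y / a) ^ 2) := by ring
    _ ≤ c * z - c * z ^ 3 := by
        have := mul_le_mul_of_nonneg_left h1 hc.le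
        linarith
    _ = c * (z - z ^ 3) := by ring
    _ ≤ 1 := h5

/-- **Growth.** `|ζ(s)| ≤ C L` for `1 - c₀ L^(-2/3) ≤ Re s ≤ 3`, `1/2 ≤ |Im s| ≤ e^L`.

Proof. `τ = Im s`, `σ = Re s`; `c, C₁` the constants of `zeta_sum_interface` (`c ≤ 1/4`), `c₀ = c`, so `1 - σ ≤ 1/4` for
`L ≥ 1`. `|τ| ≤ 3`: `zeta_bound` (constant, `‖s-1‖ ≥ 1/2`). `|τ| ≥ 3`: `K = ⌊|τ|³⌋₊` in `zeta_partial`: `‖s - 1‖ ≥ |τ|`,
`(K+1)^(1-σ) ≤ (2|τ|³)^(1/4)` (or `≤ 1` if `σ ≥ 1`), `‖s‖ ≤ 2|τ|`, `(K+1)^(-σ) ≤ |τ|^(-9/4)`, so the two error terms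
are at most `6`. The sum over `n ≤ K`: the term `n = 1`, the term `n = 2` and the dyadic blocks
`(N, min(2N, K)]`, `N = 2^j`, `1 ≤ j ≤ log K/log 2` (at most `5 L` blocks). For `N ≤ |τ|`: `abel_weight` (with `t = -τ`: for
`τ > 0` the sum over `n^(-iτ)` is the conjugate of the sum over `n^(iτ)`, so its norm is `‖S |τ| N m‖`), `zeta_sum_interface`:
the block is at most `C₁ N^(1 - σ - c (log N/log |τ|)²)`; with `y = log N ≤ L`, `log |τ| ≤ L`, `y = L^(2/3) z`:
`y (1 - σ) - c y³/(log |τ|)² ≤ c₀ L^(-2/3) y - c y³/L² = c (z - z³) ≤ c`. So the block is at most `C₁ e`. For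
`N ≥ |τ|`: `kl` and `abel_weight`: at most `C₂ N^(1-σ)/|τ| ≤ C₂ (|τ|³)^(1/4)/|τ| ≤ C₂` (`N ≤ K ≤ |τ|³`; `N^(1-σ) ≤ 1` if
`σ ≥ 1`). Sum up: `≤ C L`. -/
theorem growth : ∃ c₀ C L₀ : ℝ, 0 < c₀ ∧ c₀ ≤ 1 / 4 ∧ 1 ≤ C ∧ 1 ≤ L₀ ∧ ∀ L : ℝ, L₀ ≤ L → ∀ s : ℂ,
    1 - c₀ * L ^ (-(2 / 3) : ℝ) ≤ s.re → s.re ≤ 3 → 1 / 2 ≤ |s.im| → |s.im| ≤ Real.exp L →
    ‖riemannZeta s‖ ≤ C * L := by
  obtain ⟨c, C₁, hc, hc1, hC₁, hS⟩ := H31V.zeta_sum_interface
  obtain ⟨C₂, hC₂, hkl⟩ := kl
  obtain ⟨C₃, hC₃, hzb⟩ := zeta_bound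
  refine ⟨c, 72 * C₃ + 6 + 6 * (1 + 3 * C₁ + C₂), 1, hc, hc1, by nlinarith, le_rfl, ?_⟩
  intro L hL s hs1 hs3 hi1 hi2
  have hL0 : 0 < L := by linarith
  set B : ℝ := 1 + 3 * C₁ + C₂ with hB
  have hB0 : 0 ≤ B := by nlinarith
  set σ := s.re with hσ
  have hw1 : L ^ (-(2 / 3) : ℝ) ≤ 1 := Real.rpow_le_one_of_one_le_of_nonpos hL (by norm_num)
  have hw0 : 0 < L ^ (-(2 / 3) : ℝ) := Real.rpow_pos_of_pos hL0 _
  have hσ34 : 3 / 4 ≤ σ := by nlinarith
  rcases le_or_gt |s.im| 3 with ha3 | ha3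
  · -- small imaginary part
    have h1 : ‖(s - 1) * riemannZeta s‖ ≤ C₃ * (|s.im| + 3) ^ 2 := hzb s (by linarith) hs3
    have h2 : 1 / 2 ≤ ‖s - 1‖ := by
      have := Complex.abs_im_le_norm (s - 1)
      rw [Complex.sub_im, Complex.one_im, sub_zero] at this
      linarith
    rw [norm_mul] at h1
    have h3 : C₃ * (|s.im| + 3) ^ 2 ≤ C₃ * 36 := by
      apply mul_le_mul_of_nonneg_left _ hC₃.le
      have : 0 ≤ |s.im| := abs_nonneg _
      nlinarith
    have h4 : 1 / 2 * ‖riemannZeta s‖ ≤ C₃ * 36 :=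
      (mul_le_mul_of_nonneg_right h2 (norm_nonneg _)).trans (h1.trans h3)
    have h5 : ‖riemannZeta s‖ ≤ 72 * C₃ := by linarith
    have h6 : 72 * C₃ * 1 ≤ (72 * C₃ + 6 + 6 * B) * L := by
      apply mul_le_mul _ hL (by norm_num) (by positivity)
      linarith
    linarith
  · -- large imaginary part
    set a := |s.im| with ha
    have ha0 : 0 < a := by linarith
    have ha1 : 1 ≤ a := by linarith
    have hloga : 0 < Real.log a := Real.log_pos (by linarith)
    have hlogaL : Real.log a ≤ L := by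
      rw [← Real.log_exp L]
      exact Real.log_le_log ha0 hi2
    set K : ℕ := ⌊a ^ 3⌋₊ with hK
    have hKle : (K : ℝ) ≤ a ^ 3 := Nat.floor_le (by positivity)
    have hKlt : a ^ 3 < (K : ℝ) + 1 := Nat.lt_floor_add_one _
    have ha34 : a ^ 3 + 1 ≤ a ^ 4 := by
      have h27 : (27 : ℝ) ≤ a ^ 3 := by
        calc (27 : ℝ) = 3 ^ 3 := by norm_num
          _ ≤ a ^ 3 := pow_le_pow_left₀ (by norm_num) ha3.le 3
      nlinarith
    have ha4 : (a ^ 4) ^ (1 / 4 : ℝ) = a := by
      rw [← Real.rpow_natCast a 4, ← Real.rpow_mul ha0.le]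
      norm_num
    have hquart : ∀ x : ℝ, 1 ≤ x → x ≤ a ^ 4 → x ^ (1 - σ) ≤ a := by
      intro x hx1 hx2
      calc x ^ (1 - σ) ≤ x ^ (1 / 4 : ℝ) :=
            Real.rpow_le_rpow_of_exponent_le hx1 (by linarith)
        _ ≤ (a ^ 4) ^ (1 / 4 : ℝ) := Real.rpow_le_rpow (by linarith) hx2 (by norm_num)
        _ = a := ha4
    have hs_ne : s ≠ 1 := by
      intro h
      rw [h] at ha
      simp at ha
      linarith
    have hnorm1 : a ≤ ‖s - 1‖ := by
      have := Complex.abs_im_le_norm (s - 1)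
      rw [Complex.sub_im, Complex.one_im, sub_zero] at this
      exact this
    have hnorms : ‖s‖ ≤ 2 * a := by
      have h1 := Complex.norm_le_abs_re_add_abs_im s
      have h2 : |s.re| ≤ 3 := by
        rw [abs_of_nonneg (by linarith)]
        exact hs3
      linarith
    -- the error terms
    have hpart := zeta_partial s K (by linarith) hs_ne
    have he1 : ((K : ℝ) + 1) ^ (1 - s.re) / ‖s - 1‖ ≤ 1 := by
      rw [div_le_one (by linarith)]
      refine (hquart _ ?_ ?_).trans hnorm1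
      · have : (0 : ℝ) ≤ K := Nat.cast_nonneg _
        linarith
      · linarith
    have he2 : 2 * ‖s‖ * ((K : ℝ) + 1) ^ (-s.re) ≤ 4 := by
      have hK1 : (1 : ℝ) ≤ (K : ℝ) + 1 := by
        have : (0 : ℝ) ≤ K := Nat.cast_nonneg _
        linarith
      have h1 : ((K : ℝ) + 1) ^ (-s.re) ≤ 1 / a := by
        calc ((K : ℝ) + 1) ^ (-s.re) ≤ ((K : ℝ) + 1) ^ (-(3 / 4) : ℝ) :=
              Real.rpow_le_rpow_of_exponent_le hK1 (by linarith)
          _ ≤ (a ^ 3) ^ (-(3 / 4) : ℝ) :=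
              Real.rpow_le_rpow_of_nonpos (by positivity) hKlt.le (by norm_num)
          _ = a ^ (-(9 / 4) : ℝ) := by
              rw [← Real.rpow_natCast a 3, ← Real.rpow_mul ha0.le]
              norm_num
          _ ≤ a ^ (-1 : ℝ) := Real.rpow_le_rpow_of_exponent_le ha1 (by norm_num)
          _ = 1 / a := by rw [Real.rpow_neg_one, one_div]
      calc 2 * ‖s‖ * ((K : ℝ) + 1) ^ (-s.re) ≤ 2 * (2 * a) * (1 / a) := by gcongr
        _ = 4 := by
            field_simp
            norm_num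
    -- the blocks
    have hse : s = (σ : ℂ) - ((-s.im : ℝ) : ℂ) * Complex.I := by
      apply Complex.ext <;> simp [hσ]
    have habs : |(-s.im)| = a := by rw [abs_neg]
    have hblock : ∀ N N' : ℕ, 1 ≤ N → N ≤ N' → N' ≤ 2 * N → N' ≤ K →
        ‖∑ n ∈ Ioc N N', (n : ℂ) ^ (-s)‖ ≤ B := by
      intro N N' hN hNN hN2 hNK
      have hN0 : (0 : ℝ) < N := by exact_mod_cast hN
      have hN1 : (1 : ℝ) ≤ N := by exact_mod_cast hN
      rcases Nat.eq_or_lt_of_le hN with hN1' | hN2'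
      · -- N = 1
        subst hN1'
        have h1 : ∀ n ∈ Ioc 1 N', ‖(n : ℂ) ^ (-s)‖ ≤ 1 := by
          intro n hn
          rw [mem_Ioc] at hn
          rw [Complex.norm_natCast_cpow_of_pos (by omega), Complex.neg_re]
          apply Real.rpow_le_one_of_one_le_of_nonpos
          · have : 1 ≤ n := by omega
            exact_mod_cast this
          · linarith
        refine (norm_sum_le_of_le _ h1).trans ?_
        rw [Finset.sum_const, Nat.card_Ioc, nsmul_eq_mul, mul_one]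
        have h2 : ((N' - 1 : ℕ) : ℝ) ≤ 1 := by
          have : N' - 1 ≤ 1 := by omega
          exact_mod_cast this
        nlinarith
      · rcases le_or_gt (N : ℝ) a with hNa | hNa
        · -- N ≤ a
          have hD : ∀ m : ℕ, N ≤ m → m ≤ N' →
              ‖∑ n ∈ Ioc N m, (n : ℂ) ^ (((-s.im : ℝ) : ℂ) * Complex.I)‖ ≤
                C₁ * (N : ℝ) ^ (1 - c * (Real.log N / Real.log a) ^ 2) := by
            intro m hm1 hm2
            rw [X3_conj, habs]
            exact hS a N m (by linarith) (by omega) hNa hm1 (by omega)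
          have h1 := abel_weight σ (-s.im) _ N N' (by omega) (by linarith) (by positivity) hD
          rw [← hse] at h1
          refine h1.trans ?_
          rw [mul_assoc, ← Real.rpow_add hN0]
          have hy : 0 ≤ Real.log N := Real.log_nonneg hN1
          have h2 := X3_exp c L σ (Real.log a) (Real.log N) hc hc1 hL hs1 hloga hlogaL hy
          have h3 : (N : ℝ) ^ (1 - c * (Real.log N / Real.log a) ^ 2 + -σ) ≤ 3 := by
            rw [Real.rpow_def_of_pos hN0]
            calc Real.exp (Real.log N * (1 - c * (Real.log N / Real.log a) ^ 2 + -σ))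
                ≤ Real.exp 1 := by
                  apply Real.exp_le_exp.mpr
                  rw [← sub_eq_add_neg]
                  exact h2
              _ ≤ 3 := by
                  have := Real.exp_one_lt_d9
                  linarith
          nlinarith
        · -- N > a
          have hD : ∀ m : ℕ, N ≤ m → m ≤ N' →
              ‖∑ n ∈ Ioc N m, (n : ℂ) ^ (((-s.im : ℝ) : ℂ) * Complex.I)‖ ≤ C₂ * (N / a) := by
            intro m hm1 hm2
            have := hkl (-s.im) N m (by rw [habs]; exact ha1) (by rw [habs]; exact hNa.le) hm1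
              (by omega)
            rw [habs] at this
            exact this
          have h1 := abel_weight σ (-s.im) _ N N' (by omega) (by linarith) (by positivity) hD
          rw [← hse] at h1
          refine h1.trans ?_
          have h2 : (N : ℝ) ^ (1 - σ) ≤ a := by
            apply hquart _ hN1
            have h3 : (N : ℝ) ≤ K := by
              have : N ≤ K := hNN.trans hNK
              exact_mod_cast this
            linarith
          have h3 : (N : ℝ) ^ (1 - σ) = N * (N : ℝ) ^ (-σ) := by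
            rw [sub_eq_add_neg, Real.rpow_add hN0, Real.rpow_one]
          calc C₂ * (N / a) * (N : ℝ) ^ (-σ) = C₂ * ((N * (N : ℝ) ^ (-σ)) / a) := by ring
            _ = C₂ * ((N : ℝ) ^ (1 - σ) / a) := by rw [h3]
            _ ≤ C₂ * 1 := by
                apply mul_le_mul_of_nonneg_left _ hC₂.le
                rw [div_le_one ha0]
                exact h2
            _ ≤ B := by nlinarith
    -- number of blocks
    set J : ℕ := ⌈5 * L⌉₊ with hJ
    have hJle : (J : ℝ) ≤ 6 * L := by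
      have := Nat.ceil_lt_add_one (a := 5 * L) (by positivity)
      linarith
    have hJge : 5 * L ≤ (J : ℝ) := Nat.le_ceil _
    have hKJ : K ≤ 2 ^ J := by
      have h1 : (K : ℝ) ≤ ((2 ^ J : ℕ) : ℝ) := by
        push_cast
        have h2 : a ^ 3 ≤ Real.exp (3 * L) := by
          calc a ^ 3 ≤ (Real.exp L) ^ 3 := pow_le_pow_left₀ ha0.le hi2 3
            _ = Real.exp (3 * L) := by
                rw [← Real.exp_nat_mul]
                norm_num
        have h3 : Real.exp (3 * L) ≤ (2 : ℝ) ^ J := by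
          rw [← Real.rpow_natCast 2 J, Real.rpow_def_of_pos (by norm_num)]
          apply Real.exp_le_exp.mpr
          have := Real.log_two_gt_d9
          nlinarith
        linarith
      exact_mod_cast h1
    have hsum := X3_dyadic (fun n => (n : ℂ) ^ (-s)) B hB0 K hblock J K le_rfl hKJ
    have hone : ‖((1 : ℕ) : ℂ) ^ (-s)‖ = 1 := by simp
    rw [hone] at hsum
    have hfin : ‖riemannZeta s‖ ≤ 5 + (1 + J * B) := by
      have h1 : riemannZeta s = (riemannZeta s - ∑ n ∈ Icc 1 K, (n : ℂ) ^ (-s)) +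
          ∑ n ∈ Icc 1 K, (n : ℂ) ^ (-s) := by ring
      rw [h1]
      refine (norm_add_le _ _).trans ?_
      linarith
    have hJB : (J : ℝ) * B ≤ 6 * L * B := mul_le_mul_of_nonneg_right hJle hB0
    nlinarith

end Pool.Agent.Lib.H31X
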