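import Pool.Agent.Lib.H31X.Defs

/-!
# Chunk X4 (M): Landau's lemma with a free radius; the pole
-/

open Finset

namespace Pool.Agent.Lib.H31X

open Pool.Agent.Lib.H68T

/-- Copy of `lab2_core` (file `H68T/LAB2.lean`) with radius `R` instead of `1/2`. -/
theorem core_R : ∃ A : ℝ, 0 < A ∧ ∀ (f : ℂ → ℂ) (s₀ : ℂ) (R M : ℝ), 0 < R → 0 ≤ M →
    AnalyticOnNhd ℂ f (Metric.closedBall s₀ R) → f s₀ ≠ 0 →
    (∀ s ∈ Metric.closedBall s₀ R, ‖f s‖ ≤ Real.exp M * ‖f s₀‖) →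
    (∀ ρ, f ρ = 0 → ρ.re < s₀.re) → ∀ S : Finset ℂ, (∀ ρ ∈ S, f ρ = 0 ∧ ‖ρ - s₀‖ ≤ R / 2) →
      -(logDeriv f s₀).re ≤ A * (M + 1) / R - ∑ ρ ∈ S, (1 / (s₀ - ρ)).re := by
  obtain ⟨A, hA, hlan⟩ := landau
  refine ⟨A, hA, fun f s₀ R M hR hM hf h0 hb hre S hS => ?_⟩
  obtain ⟨Z, hZ1, hZ2, hZ3⟩ := hlan f s₀ R M hR hM hf h0 hb
  have h1 := hZ3 s₀ (Metric.mem_closedBall_self (by positivity)) h0
  have hSZ : S.val ≤ Z := by
    rw [Finset.val_le_iff_val_subset]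
    intro ρ hρ
    have h2 := hS ρ hρ
    exact hZ2 ρ h2.2 h2.1
  obtain ⟨Z', hZ'⟩ := Multiset.le_iff_exists_add.1 hSZ
  have hpos : ∀ ρ ∈ Z, 0 ≤ (1 / (s₀ - ρ)).re := by
    intro ρ hρ
    have h2 := hre ρ (hZ1 ρ hρ).2
    rw [one_div, Complex.inv_re, Complex.sub_re]
    apply div_nonneg (by linarith) (Complex.normSq_nonneg _)
  have hsum : ((Z.map (fun ρ => 1 / (s₀ - ρ))).sum).re =
      ∑ ρ ∈ S, (1 / (s₀ - ρ)).re + (Z'.map (fun ρ => (1 / (s₀ - ρ)).re)).sum := by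
    rw [hZ', Multiset.map_add, Multiset.sum_add, Complex.add_re]
    congr 1
    · change (∑ ρ ∈ S, 1 / (s₀ - ρ)).re = _
      rw [Complex.re_sum]
    · have := (Multiset.sum_hom (Z'.map fun ρ => 1 / (s₀ - ρ)) Complex.reAddGroupHom)
      rw [Multiset.map_map] at this
      exact this.symm
  have hZ'pos : 0 ≤ (Z'.map (fun ρ => (1 / (s₀ - ρ)).re)).sum := by
    apply Multiset.sum_nonneg
    intro x hx
    obtain ⟨ρ, hρ, rfl⟩ := Multiset.mem_map.1 hx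
    exact hpos ρ (by rw [hZ']; exact Multiset.mem_add.2 (Or.inr hρ))
  have h3 : -(deriv f s₀ / f s₀ - (Z.map (fun ρ => 1 / (s₀ - ρ))).sum).re ≤
      A * (M + 1) / R := by
    refine le_trans ?_ h1
    have := Complex.abs_re_le_norm (deriv f s₀ / f s₀ - (Z.map (fun ρ => 1 / (s₀ - ρ))).sum)
    linarith [neg_abs_le (deriv f s₀ / f s₀ - (Z.map (fun ρ => 1 / (s₀ - ρ))).sum).re]
  rw [Complex.sub_re, hsum] at h3
  rw [logDeriv_apply]
  linarith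

/-- For `Re s > 1`: `∑ Λ(n) n^(-s) = -ζ'(s)/ζ(s)` (`lab1_zeta` or Mathlib), and
`‖ζ'(s)/ζ(s)‖ ≤ 1/(Re s - 1) + C` for `1 < Re s ≤ 2` (`norm_LSeries_vM_le` with the character modulo `1`,
`vonMangoldt_le`). -/
theorem logDeriv_bound : ∃ C : ℝ, 0 < C ∧ ∀ s : ℂ, 1 < s.re → s.re ≤ 2 →
    LSeries (fun n => (ArithmeticFunction.vonMangoldt n : ℂ)) s =
      -(deriv riemannZeta s / riemannZeta s) ∧
    ‖deriv riemannZeta s / riemannZeta s‖ ≤ 1 / (s.re - 1) + C := by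
  obtain ⟨C, hC, h⟩ := vonMangoldt_le
  refine ⟨C, hC, fun s hs hs2 => ?_⟩
  have h1 := lab1_zeta s hs
  rw [logDeriv_apply] at h1
  refine ⟨h1, ?_⟩
  have h3 := norm_LSeries_vM_le 1 1 s hs
  have h4 : (fun n : ℕ => (ArithmeticFunction.vonMangoldt n : ℂ) *
      (1 : DirichletCharacter ℂ 1) (n : ZMod 1)) =
      fun n : ℕ => (ArithmeticFunction.vonMangoldt n : ℂ) := by
    funext n
    have : (1 : DirichletCharacter ℂ 1) (n : ZMod 1) = 1 := by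
      rw [Subsingleton.elim (n : ZMod 1) 1, map_one]
    rw [this, mul_one]
  rw [h4, h1, norm_neg] at h3
  exact h3.trans (h s.re hs hs2)

end Pool.Agent.Lib.H31X
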