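import Pool.Agent.Lib.H31X.X3
import Pool.Agent.Lib.H31X.X4

/-!
# Chunk X5 (M/L): the zero-free region of Vinogradov-Korobov
-/

open Finset

namespace Pool.Agent.Lib.H31X

open Pool.Agent.Lib.H68T

theorem x5_aux (L : ℝ) (hL : 3 ≤ L) :
    1 ≤ Real.log L ∧ 1 ≤ L ^ (2 / 3 : ℝ) ∧ 1 ≤ (L + 1) ^ (2 / 3 : ℝ) ∧
      (L + 1) ^ (2 / 3 : ℝ) ≤ 2 * L ^ (2 / 3 : ℝ) ∧ L ^ (2 / 3 : ℝ) * Real.log L ≤ 3 * L ∧
      (L + 1) ^ (-(2 / 3) : ℝ) = ((L + 1) ^ (2 / 3 : ℝ))⁻¹ := by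
  have h0 : (0 : ℝ) < L := by linarith
  refine ⟨?_, ?_, ?_, ?_, ?_, ?_⟩
  · rw [Real.le_log_iff_exp_le h0]
    have := Real.exp_one_lt_d9
    linarith
  · exact Real.one_le_rpow (by linarith) (by norm_num)
  · exact Real.one_le_rpow (by linarith) (by norm_num)
  · have h1 : (L + 1) ^ (2 / 3 : ℝ) ≤ (2 * L) ^ (2 / 3 : ℝ) :=
      Real.rpow_le_rpow (by linarith) (by linarith) (by norm_num)
    rw [Real.mul_rpow (by norm_num) h0.le] at h1
    have h2 : (2 : ℝ) ^ (2 / 3 : ℝ) ≤ 2 ^ (1 : ℝ) :=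
      Real.rpow_le_rpow_of_exponent_le (by norm_num) (by norm_num)
    rw [Real.rpow_one] at h2
    have h3 : 0 ≤ L ^ (2 / 3 : ℝ) := Real.rpow_nonneg h0.le _
    exact h1.trans (mul_le_mul_of_nonneg_right h2 h3)
  · have h1 := Real.log_le_rpow_div h0.le (show (0 : ℝ) < 1 / 3 by norm_num)
    have h3 : 0 ≤ L ^ (2 / 3 : ℝ) := Real.rpow_nonneg h0.le _
    have h4 : L ^ (2 / 3 : ℝ) * L ^ (1 / 3 : ℝ) = L := by
      rw [← Real.rpow_add h0]
      norm_num
    calc L ^ (2 / 3 : ℝ) * Real.log L ≤ L ^ (2 / 3 : ℝ) * (L ^ (1 / 3 : ℝ) / (1 / 3)) :=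
          mul_le_mul_of_nonneg_left h1 h3
      _ = 3 * (L ^ (2 / 3 : ℝ) * L ^ (1 / 3 : ℝ)) := by ring
      _ = 3 * L := by rw [h4]
  · rw [Real.rpow_neg (by linarith)]

theorem x5_core : ∃ c₀ A₂ C Lg : ℝ, 0 < c₀ ∧ c₀ ≤ 1 / 4 ∧ 0 < A₂ ∧ 1 ≤ C ∧ 1 ≤ Lg ∧
    ∀ a L t : ℝ, 0 < a → a ≤ 1 → 3 ≤ L → Lg ≤ L → 12 * C / a ≤ L → 1 ≤ |t| →
    |t| ≤ 2 * Real.exp L → ∀ S : Finset ℂ, (∀ ρ ∈ S, riemannZeta ρ = 0 ∧
      ‖ρ - (((1 + a / (L ^ (2 / 3 : ℝ) * Real.log L) : ℝ) : ℂ) + t * Complex.I)‖ ≤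
        c₀ / (2 * (L + 1) ^ (2 / 3 : ℝ)) / 2) →
    (LSeries (fun n => (ArithmeticFunction.vonMangoldt n : ℂ))
      (((1 + a / (L ^ (2 / 3 : ℝ) * Real.log L) : ℝ) : ℂ) + t * Complex.I)).re ≤
      A₂ * (L ^ (2 / 3 : ℝ) * Real.log L) -
        ∑ ρ ∈ S, (1 / ((((1 + a / (L ^ (2 / 3 : ℝ) * Real.log L) : ℝ) : ℂ) +
          t * Complex.I) - ρ)).re := by
  obtain ⟨c₀, C, Lg, hc₀, hc₀', hC, hLg, hgr⟩ := growth
  obtain ⟨A, hA, hcore⟩ := core_R
  refine ⟨c₀, 16 * A / c₀, C, Lg, hc₀, hc₀', by positivity, hC, hLg, ?_⟩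
  intro a L t ha ha1 hL hLg' hLa ht1 ht2 S hS
  obtain ⟨hl, hy, hy1, hy2, hyl, hinv⟩ := x5_aux L hL
  set y : ℝ := L ^ (2 / 3 : ℝ) with hydef
  set l : ℝ := Real.log L with hldef
  set y1 : ℝ := (L + 1) ^ (2 / 3 : ℝ) with hy1def
  set η : ℝ := a / (y * l) with hη
  have hL0 : 0 < L := by linarith
  have hy0 : 0 < y := by linarith
  have hl0 : 0 < l := by linarith
  have hy10 : 0 < y1 := by linarith
  have hyl1 : 1 ≤ y * l := by nlinarith
  have hη0 : 0 < η := by positivity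
  have hη1 : η ≤ 1 := by
    rw [hη, div_le_one (by positivity)]
    linarith
  set R : ℝ := c₀ / (2 * y1) with hR
  have hR0 : 0 < R := by positivity
  have hR1 : R ≤ 1 / 8 := by
    rw [hR, div_le_iff₀ (by positivity)]
    linarith
  set σ : ℝ := 1 + η with hσ
  set s₀ : ℂ := (σ : ℂ) + t * Complex.I with hs₀
  have hre : s₀.re = σ := by simp [hs₀]
  have him : s₀.im = t := by simp [hs₀]
  have hball : ∀ s ∈ Metric.closedBall s₀ R, |s.re - σ| ≤ R ∧ |s.im - t| ≤ R := by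
    intro s hs
    rw [Metric.mem_closedBall, Complex.dist_eq] at hs
    constructor
    · have h1 := Complex.abs_re_le_norm (s - s₀)
      rw [Complex.sub_re, hre] at h1
      linarith
    · have h1 := Complex.abs_im_le_norm (s - s₀)
      rw [Complex.sub_im, him] at h1
      linarith
  have him2 : ∀ s ∈ Metric.closedBall s₀ R, 1 / 2 ≤ |s.im| := by
    intro s hs
    obtain ⟨-, h2⟩ := hball s hs
    have h3 := abs_sub_abs_le_abs_sub t s.im
    rw [abs_sub_comm] at h3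
    linarith
  have hlow : η / 2 ≤ ‖riemannZeta s₀‖ := by
    have h1 := INVZ_lower s₀ (by rw [hre]; linarith)
    rw [hre] at h1
    refine le_trans ?_ h1
    rw [div_le_div_iff₀ (by norm_num) (by linarith)]
    rw [hσ]
    nlinarith
  have hgrow : ∀ s ∈ Metric.closedBall s₀ R, ‖riemannZeta s‖ ≤ C * (L + 1) := by
    intro s hs
    obtain ⟨h1, h2⟩ := hball s hs
    have h4 := him2 s hs
    rw [abs_le] at h1
    refine hgr (L + 1) (by linarith) s ?_ ?_ h4 ?_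
    · rw [hinv]
      have h3 : R ≤ c₀ * y1⁻¹ := by
        rw [hR, ← div_eq_mul_inv]
        exact div_le_div_of_nonneg_left hc₀.le hy10 (by linarith)
      linarith [h1.1]
    · linarith [h1.2]
    · have h5 := abs_sub_abs_le_abs_sub s.im t
      have h6 : Real.exp (L + 1) = Real.exp L * Real.exp 1 := Real.exp_add _ _
      have h7 := Real.add_one_le_exp L
      have h8 : (2.7 : ℝ) ≤ Real.exp 1 := by
        have := Real.exp_one_gt_d9
        linarith
      rw [h6]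
      nlinarith
  have hexp : Real.exp (3 * l) = L ^ 3 := by
    have h1 : (3 : ℝ) * l = ((3 : ℕ) : ℝ) * l := by norm_num
    rw [h1, Real.exp_nat_mul, hldef, Real.exp_log hL0]
  have hηL : a / (3 * L) ≤ η := by
    rw [hη]
    exact div_le_div_of_nonneg_left ha.le (by positivity) hyl
  have hbd : ∀ s ∈ Metric.closedBall s₀ R,
      ‖riemannZeta s‖ ≤ Real.exp (3 * l) * ‖riemannZeta s₀‖ := by
    intro s hs
    have h1 := hgrow s hs
    rw [hexp]
    have h2 : L ^ 3 * (a / (3 * L) / 2) ≤ L ^ 3 * ‖riemannZeta s₀‖ := by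
      refine mul_le_mul_of_nonneg_left ?_ (by positivity)
      linarith
    have h3 : L ^ 3 * (a / (3 * L) / 2) = a * L ^ 2 / 6 := by
      field_simp
      ring
    have h4 : 12 * C ≤ a * L := by
      rw [div_le_iff₀ ha] at hLa
      linarith
    have h5 : 12 * C * L ≤ a * L * L := mul_le_mul_of_nonneg_right h4 hL0.le
    nlinarith
  have han : AnalyticOnNhd ℂ riemannZeta (Metric.closedBall s₀ R) := by
    have h1 : DifferentiableOn ℂ riemannZeta ({1}ᶜ : Set ℂ) := fun z hz =>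
      (differentiableAt_riemannZeta hz).differentiableWithinAt
    refine (h1.analyticOnNhd isOpen_compl_singleton).mono ?_
    intro s hs
    have h2 := him2 s hs
    intro h3
    rw [Set.mem_singleton_iff] at h3
    rw [h3] at h2
    simp at h2
    norm_num at h2
  have hne : riemannZeta s₀ ≠ 0 :=
    riemannZeta_ne_zero_of_one_le_re (by rw [hre]; linarith)
  have hzero : ∀ ρ, riemannZeta ρ = 0 → ρ.re < s₀.re := by
    intro ρ hρ
    by_contra h
    push Not at h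
    exact riemannZeta_ne_zero_of_one_le_re (by rw [hre] at h; linarith) hρ
  have key := hcore riemannZeta s₀ R (3 * l) hR0 (by linarith) han hne hbd hzero S hS
  have hLS := lab1_zeta s₀ (by rw [hre]; linarith)
  rw [hLS, Complex.neg_re]
  refine key.trans ?_
  have hfin : A * (3 * l + 1) / R ≤ 16 * A / c₀ * (y * l) := by
    rw [hR, div_div_eq_mul_div, div_le_iff₀ hc₀]
    have h1 : 16 * A / c₀ * (y * l) * c₀ = 16 * A * (y * l) := by
      field_simp
    rw [h1]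
    have h2 : 3 * l + 1 ≤ 4 * l := by linarith
    have h3 : (3 * l + 1) * (2 * y1) ≤ 4 * l * (4 * y) :=
      mul_le_mul h2 (by linarith) (by positivity) (by positivity)
    have h4 := mul_le_mul_of_nonneg_left h3 hA.le
    linarith
  linarith

/-- **Zero-free region** (Titchmarsh, 3.10 and 6.19; the argument of `zero_free_zeta`, file `H68T/ZF3.lean`, with the
growth `growth`).

Proof. `ρ = β + iγ`. `|γ| ≤ 1`: `zf3_low` (`L` large). `|γ| > 1`, `|γ| ≤ e^L`: `c₀, C` from `growth`, used with `L + 1`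
(`2 e^L + 1 ≤ e^(L+1)`); `R = (c₀/2)(L+1)^(-2/3)`, `η = a/(L^(2/3) log L)`, `σ₀ = 1 + η`. For `s₀ = σ₀ + iγ` and
`s₀ = σ₀ + 2iγ` the disc `closedBall s₀ R` lies in the region of `growth` (`Re ≥ 1 + η - R`, `|Im| ≥ 1 - R ≥ 1/2`), `ζ` is
analytic there, `‖ζ‖ ≤ C (L+1)` and `‖ζ(s₀)‖ ≥ η/2` (`INVZ_lower`), so `M = 3 log L` is allowed in `core_R`
(`2 C (L+1)/η ≤ L³` for large `L`): with `A₂` a constant (not depending on `a` if `L ≥ L₀(a)`), `A (M+1)/R ≤ A₂ L^(2/3) log L`.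
If `‖ρ - (σ₀ + iγ)‖ = σ₀ - β > R/2` then `1 - β ≥ R/2 - η ≥ η`, done. Otherwise (`S = {ρ}` at `γ`, `S = ∅` at `2γ`):
`Re L_Λ(σ₀ + iγ) ≤ A₂ L^(2/3) log L - 1/(σ₀ - β)`, `Re L_Λ(σ₀ + 2iγ) ≤ A₂ L^(2/3) log L`,
`Re L_Λ(σ₀) ≤ 1/η + C₁` (`vonMangoldt_le`), and `three_four_one_zeta` gives
`4/(η + 1 - β) ≤ 3/η + 3 C₁ + 5 A₂ L^(2/3) log L ≤ (3 + (3 C₁ + 5 A₂) a)/η ≤ 3.5/η` for `a = 1/(2(3 C₁ + 5 A₂))`. So
`1 - β ≥ η/7`, `c₁ = a/7`. -/
theorem zero_free : ∃ c₁ L₀ : ℝ, 0 < c₁ ∧ 3 ≤ L₀ ∧ ∀ L : ℝ, L₀ ≤ L → ∀ ρ : ℂ, riemannZeta ρ = 0 →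
    |ρ.im| ≤ Real.exp L → ρ.re ≤ 1 - c₁ / (L ^ (2 / 3 : ℝ) * Real.log L) := by
  obtain ⟨C₁, hC₁, hvM⟩ := vonMangoldt_le
  obtain ⟨c₀, A₂, C, Lg, hc₀, hc₀', hA₂, hC, hLg, hcore⟩ := x5_core
  obtain ⟨δ, hδ, hlow⟩ := zf3_low
  set C' : ℝ := 3 * C₁ + 5 * A₂ + 1 with hC'
  have hC'1 : 1 ≤ C' := by rw [hC']; linarith
  set a : ℝ := 1 / (2 * C') with ha
  have ha0 : 0 < a := by positivity
  have ha1 : a ≤ 1 := by
    rw [ha, div_le_one (by positivity)]
    linarith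
  have haC : a * C' = 1 / 2 := by
    rw [ha]
    field_simp
  have p1 : 0 < 12 * C / a := by positivity
  have p2 : 0 < Real.exp (16 * a / c₀) := Real.exp_pos _
  have p3 : 0 < Real.exp (a / 7 / δ) := Real.exp_pos _
  refine ⟨a / 7, 3 + Lg + 12 * C / a + Real.exp (16 * a / c₀) + Real.exp (a / 7 / δ),
    by positivity, by linarith, ?_⟩
  intro L hLL ρ hρ him
  have hL : 3 ≤ L := by linarith
  have hL0 : 0 < L := by linarith
  obtain ⟨hl, hy, hy1, hy2, hyl, hinv⟩ := x5_aux L hL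
  have hla : 16 * a / c₀ ≤ Real.log L := (Real.le_log_iff_exp_le hL0).2 (by linarith)
  have hlδ : a / 7 / δ ≤ Real.log L := (Real.le_log_iff_exp_le hL0).2 (by linarith)
  have hcore' := fun t => hcore a L t ha0 ha1 hL (by linarith) (by linarith)
  set y : ℝ := L ^ (2 / 3 : ℝ) with hydef
  set l : ℝ := Real.log L with hldef
  set y1 : ℝ := (L + 1) ^ (2 / 3 : ℝ) with hy1def
  have hy0 : 0 < y := by linarith
  have hl0 : 0 < l := by linarith
  have hy10 : 0 < y1 := by linarith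
  have hyl1 : 1 ≤ y * l := by nlinarith
  have hyl0 : 0 < y * l := by linarith
  by_contra hcon
  push Not at hcon
  rcases le_or_gt |ρ.im| 1 with hγ | hγ
  · have h1 := hlow ρ hρ hγ
    have h2 : a / 7 / (y * l) ≤ δ := by
      rw [div_le_iff₀ hyl0]
      rw [div_le_iff₀ hδ] at hlδ
      have h3 : l ≤ y * l := le_mul_of_one_le_left hl0.le hy
      nlinarith
    linarith
  · set γ : ℝ := ρ.im with hγdef
    set η : ℝ := a / (y * l) with hη
    set σ : ℝ := 1 + η with hσ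
    set R : ℝ := c₀ / (2 * y1) with hR
    have hη0 : 0 < η := by positivity
    have hη1 : η ≤ 1 := by
      rw [hη, div_le_one (by positivity)]
      linarith
    have hη7 : a / 7 / (y * l) = η / 7 := by
      rw [hη]
      ring
    rw [hη7] at hcon
    have hre1 : ρ.re < 1 := by
      by_contra h
      push Not at h
      exact riemannZeta_ne_zero_of_one_le_re h hρ
    have hσβ0 : 0 < σ - ρ.re := by linarith
    have hR2 : 2 * η ≤ R / 2 := by
      have h1 : c₀ / (8 * y) ≤ R / 2 := by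
        rw [hR, div_div]
        exact div_le_div_of_nonneg_left hc₀.le (by positivity) (by linarith)
      refine le_trans ?_ h1
      rw [hη, le_div_iff₀ (by positivity)]
      have h2 : 2 * (a / (y * l)) * (8 * y) = 16 * a / l := by
        field_simp
        ring
      rw [h2, div_le_iff₀ hl0]
      rw [div_le_iff₀ hc₀] at hla
      linarith
    have hσR : σ - ρ.re ≤ R / 2 := by linarith
    have h341 := three_four_one_zeta σ γ (by linarith)
    have e1 := hvM σ (by linarith) (by linarith)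
    have e2 := hcore' γ hγ.le (by
      have := Real.exp_pos L
      linarith) {ρ} (by
      intro ρ' hρ'
      rw [Finset.mem_singleton] at hρ'
      subst hρ'
      refine ⟨hρ, ?_⟩
      have h1 : ρ' - (σ + γ * Complex.I) = ((ρ'.re - σ : ℝ) : ℂ) := by
        apply Complex.ext <;> simp [hγdef]
      rw [h1, Complex.norm_real, Real.norm_eq_abs, abs_of_nonpos (by linarith)]
      linarith)
    have e3 := hcore' (2 * γ) (by rw [abs_mul, abs_two]; linarith)
      (by rw [abs_mul, abs_two]; linarith) ∅ (by simp)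
    rw [Finset.sum_singleton] at e2
    rw [Finset.sum_empty, sub_zero] at e3
    have f1 : (1 / ((σ : ℂ) + γ * Complex.I - ρ)).re = 1 / (σ - ρ.re) := by
      have h1 : (σ : ℂ) + γ * Complex.I - ρ = ((σ - ρ.re : ℝ) : ℂ) := by
        apply Complex.ext <;> simp [hγdef]
      rw [h1, ← Complex.ofReal_one, ← Complex.ofReal_div, Complex.ofReal_re]
    rw [f1] at e2
    have e4 : (LSeries (fun n => (ArithmeticFunction.vonMangoldt n : ℂ))
        (σ + 2 * γ * Complex.I)).re ≤ A₂ * (y * l) := by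
      have h1 : ((σ : ℂ) + 2 * γ * Complex.I) = σ + ((2 * γ : ℝ) : ℂ) * Complex.I := by
        push_cast; ring
      rw [h1]
      exact e3
    have hση : σ - 1 = η := by rw [hσ]; ring
    rw [hση] at e1
    have n1 : 4 * (1 / (σ - ρ.re)) ≤ 3 * (1 / η) + C' * (y * l) := by
      have h1 : C' * (y * l) = 3 * C₁ * (y * l) + 5 * (A₂ * (y * l)) + y * l := by
        rw [hC']; ring
      have h2 : 3 * C₁ ≤ 3 * C₁ * (y * l) := le_mul_of_one_le_right (by positivity) hyl1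
      rw [h1]
      linarith
    have n2 : C' * (y * l) = 1 / 2 * (1 / η) := by
      rw [hη, one_div_div, ← haC]
      field_simp
    rw [n2] at n1
    have n3 : 1 / (8 / 7 * η) < 1 / (σ - ρ.re) :=
      one_div_lt_one_div_of_lt hσβ0 (by rw [hσ]; linarith)
    have n4 : 1 / (8 / 7 * η) = 7 / 8 * (1 / η) := by
      field_simp
    rw [n4] at n3
    linarith

end Pool.Agent.Lib.H31X
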