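import Pool.Agent.Lib.H31X.X5

/-!
# Chunk X6 (M/L): `ζ'/ζ` and `1/ζ` in the region, `|Im s| ≥ 1`
-/

open Finset

namespace Pool.Agent.Lib.H31X

open Pool.Agent.Lib.H68T

private theorem X6_large (K : ℝ) (hK : 1 ≤ K) : ∃ L₀ : ℝ, 3 ≤ L₀ ∧ ∀ L : ℝ, L₀ ≤ L →
    K * ((L + 1) ^ (2 / 3 : ℝ) * Real.log (L + 1)) ≤ L ^ (3 / 4 : ℝ) ∧
      K ≤ Real.log (L + 1) ∧ K ≤ L ^ (1 / 4 : ℝ) := by
  refine ⟨max 3 (max (Real.exp K) ((48 * K) ^ 24)), le_max_left _ _, fun L hL => ?_⟩
  have h3 : 3 ≤ L := (le_max_left _ _).trans hL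
  have hL0 : 0 < L := by linarith
  have he : Real.exp K ≤ L := (le_max_left _ _).trans ((le_max_right _ _).trans hL)
  have hp : (48 * K) ^ 24 ≤ L := (le_max_right _ _).trans ((le_max_right _ _).trans hL)
  have hK0 : 0 < 48 * K := by linarith
  have h24 : 48 * K ≤ L ^ (1 / 24 : ℝ) := by
    have h1 := Real.rpow_le_rpow (by positivity) hp (by norm_num : (0 : ℝ) ≤ 1 / 24)
    have h2 : ((48 * K) ^ 24) ^ (1 / 24 : ℝ) = 48 * K := by
      rw [← Real.rpow_natCast (48 * K) 24, ← Real.rpow_mul hK0.le]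
      have h4 : ((24 : ℕ) : ℝ) * (1 / 24) = 1 := by norm_num
      rw [h4, Real.rpow_one]
    rwa [h2] at h1
  have hlog : K ≤ Real.log (L + 1) := by
    rw [Real.le_log_iff_exp_le (by linarith)]
    linarith
  refine ⟨?_, hlog, ?_⟩
  · have h1 : Real.log (L + 1) ≤ (L + 1) ^ (1 / 24 : ℝ) / (1 / 24) :=
      Real.log_le_rpow_div (by linarith) (by norm_num)
    have h2 : (L + 1) ^ (2 / 3 : ℝ) * (L + 1) ^ (1 / 24 : ℝ) = (L + 1) ^ (17 / 24 : ℝ) := by
      rw [← Real.rpow_add (by linarith)]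
      norm_num
    have h3' : (L + 1) ^ (17 / 24 : ℝ) ≤ 2 * L ^ (17 / 24 : ℝ) := by
      have e1 : (L + 1) ^ (17 / 24 : ℝ) ≤ (2 * L) ^ (17 / 24 : ℝ) :=
        Real.rpow_le_rpow (by linarith) (by linarith) (by norm_num)
      rw [Real.mul_rpow (by norm_num) hL0.le] at e1
      have e2 : (2 : ℝ) ^ (17 / 24 : ℝ) ≤ 2 := by
        have := Real.rpow_le_rpow_of_exponent_le (x := 2) (by norm_num)
          (by norm_num : (17 / 24 : ℝ) ≤ 1)
        rwa [Real.rpow_one] at this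
      exact e1.trans (mul_le_mul_of_nonneg_right e2 (by positivity))
    have h4 : L ^ (1 / 24 : ℝ) * L ^ (17 / 24 : ℝ) = L ^ (3 / 4 : ℝ) := by
      rw [← Real.rpow_add hL0]
      norm_num
    have hP0 : 0 ≤ (L + 1) ^ (2 / 3 : ℝ) := Real.rpow_nonneg (by linarith) _
    calc K * ((L + 1) ^ (2 / 3 : ℝ) * Real.log (L + 1))
        ≤ K * ((L + 1) ^ (2 / 3 : ℝ) * ((L + 1) ^ (1 / 24 : ℝ) / (1 / 24))) :=
          mul_le_mul_of_nonneg_left (mul_le_mul_of_nonneg_left h1 hP0) (by linarith)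
      _ = 24 * K * ((L + 1) ^ (2 / 3 : ℝ) * (L + 1) ^ (1 / 24 : ℝ)) := by ring
      _ = 24 * K * (L + 1) ^ (17 / 24 : ℝ) := by rw [h2]
      _ ≤ 24 * K * (2 * L ^ (17 / 24 : ℝ)) := mul_le_mul_of_nonneg_left h3' (by linarith)
      _ = 48 * K * L ^ (17 / 24 : ℝ) := by ring
      _ ≤ L ^ (1 / 24 : ℝ) * L ^ (17 / 24 : ℝ) := mul_le_mul_of_nonneg_right h24 (by positivity)
      _ = _ := h4
  · calc K ≤ 48 * K := by linarith
      _ ≤ L ^ (1 / 24 : ℝ) := h24
      _ ≤ L ^ (1 / 4 : ℝ) := Real.rpow_le_rpow_of_exponent_le (by linarith) (by norm_num)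

private theorem X6_low {w x : ℝ} (hw : 0 < w) (h1 : 1 + w / 4 ≤ x) (h2 : x ≤ 2) :
    w / 8 ≤ (x - 1) / x := by
  rw [div_le_div_iff₀ (by norm_num) (by linarith)]
  have h3 : w * x ≤ w * 2 := mul_le_mul_of_nonneg_left h2 hw.le
  linarith

private theorem X6_exp {L : ℝ} (hL : 0 < L) : Real.exp L + 1 ≤ Real.exp (L + 1) := by
  rw [Real.exp_add]
  have e1 : 2 ≤ Real.exp 1 := by
    have := Real.add_one_le_exp (1 : ℝ)
    linarith
  have e2 : 1 ≤ Real.exp L := Real.one_le_exp hL.le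
  have e3 : Real.exp L * 2 ≤ Real.exp L * Real.exp 1 :=
    mul_le_mul_of_nonneg_left e1 (by linarith)
  linarith

/-- **Bounds in the region, high part.**

Proof (compare `INVZ_core`, file `H68T/INVZ.lean`). `w = c₁/((L+1)^(2/3) log (L+1))` (`zero_free` with `L + 1`: all zeros with
`|Im ρ| ≤ e^(L+1)` have `Re ρ ≤ 1 - w`). For large `L`: `L^(-3/4) ≤ w/4`.
`Re s ≥ 1 + w/4`: `logDeriv_bound`: `‖ζ'/ζ(s)‖ ≤ 4/w + C ≤ L`; `INVZ_lower`: `‖ζ(s)‖ ≥ (w/4)/(1 + w/4) ≥ w/8 ≥ 1/L`.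
`1 - w/4 ≤ Re s ≤ 1 + w/4`: `local_bound` (file `H68T/INV1.lean`) for `f = ζ`, `s₀ = 1 + w/4 + i Im s`, `r' = 5w/8`,
`R = (c₀/2)(L+1)^(-2/3)` (`2 r' ≤ R/4` for large `L`), `M = A₃ log L` with a constant `A₃ ≥ 3` so large that
`‖ζ'/ζ(s₀)‖ ≤ 4/w + C ≤ (M+1)/R`; `‖ζ‖ ≤ C (L+1) ≤ exp M ‖ζ(s₀)‖` on the disc (`growth`, `‖ζ(s₀)‖ ≥ w/8`); zeros in the disc of
radius `R/2` have `Re ρ ≤ 1 - w ≤ Re s₀ - 2r'`. `‖s - s₀‖ ≤ w/2 ≤ r'`. Conclusion: `‖ζ'/ζ(s)‖ ≤ A (M+1)/R ≤ L` and
`‖ζ(s₀)‖ ≤ exp (A (M+1) r'/R) ‖ζ(s)‖`, where `A (M+1) r'/R` is bounded by a constant (`M w/R = O(1)`), so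
`‖ζ(s)‖ ≥ e^(-const) w/8 ≥ 1/L` for large `L`. -/
theorem inv_high : ∃ L₀ : ℝ, 3 ≤ L₀ ∧ ∀ L : ℝ, L₀ ≤ L → ∀ s : ℂ, 1 - L ^ (-(3 / 4) : ℝ) ≤ s.re →
    s.re ≤ 2 → 1 ≤ |s.im| → |s.im| ≤ Real.exp L →
    riemannZeta s ≠ 0 ∧ ‖deriv riemannZeta s / riemannZeta s‖ ≤ L ∧ 1 ≤ L * ‖riemannZeta s‖ := by
  obtain ⟨c₁, L₁, hc₁, -, hzf⟩ := zero_free
  obtain ⟨c₀, C, L₂, hc₀, hc₀4, hC, -, hgr⟩ := growth
  obtain ⟨Cv, hCv, hld⟩ := logDeriv_bound
  obtain ⟨A, hA, hloc⟩ := local_bound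
  set A₃ : ℝ := 3 + 2 * c₀ / c₁ with hA₃
  have hA₃3 : 3 ≤ A₃ := by
    have : 0 < 2 * c₀ / c₁ := by positivity
    linarith
  set κ : ℝ := A * (A₃ + 1) * (5 / 4) * c₁ / c₀ with hκ
  have hκ0 : 0 < κ := by positivity
  have k1 : 0 < 4 / c₁ := by positivity
  have k2 : 0 < 2 * A * (A₃ + 1) / c₀ := by positivity
  have k3 : 0 < 10 * c₁ / c₀ := by positivity
  have k4 : 0 < 2 * Real.exp κ := by positivity
  set K : ℝ := 4 / c₁ + 2 * A * (A₃ + 1) / c₀ + 10 * c₁ / c₀ + 2 * C + Cv + 2 * Real.exp κ + 1 +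
    2 * c₁ with hK
  obtain ⟨L₃, hL₃, hlarge⟩ := X6_large K (by rw [hK]; linarith)
  refine ⟨max L₃ (max L₁ L₂), hL₃.trans (le_max_left _ _), fun L hL s hs1 hs2 hs3 hs4 => ?_⟩
  have hL3 : 3 ≤ L := hL₃.trans ((le_max_left _ _).trans hL)
  have hLL₁ : L₁ ≤ L + 1 := by
    have := (le_max_left L₁ L₂).trans ((le_max_right _ _).trans hL)
    linarith
  have hLL₂ : L₂ ≤ L + 1 := by
    have := (le_max_right L₁ L₂).trans ((le_max_right _ _).trans hL)
    linarith
  obtain ⟨hE1, hE2, hE3⟩ := hlarge L ((le_max_left _ _).trans hL)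
  have hL0 : 0 < L := by linarith
  obtain ⟨P, hP⟩ : ∃ P : ℝ, P = (L + 1) ^ (2 / 3 : ℝ) := ⟨_, rfl⟩
  obtain ⟨l, hl⟩ : ∃ l : ℝ, l = Real.log (L + 1) := ⟨_, rfl⟩
  obtain ⟨q, hq⟩ : ∃ q : ℝ, q = L ^ (3 / 4 : ℝ) := ⟨_, rfl⟩
  obtain ⟨u, hu⟩ : ∃ u : ℝ, u = L ^ (1 / 4 : ℝ) := ⟨_, rfl⟩
  rw [← hP, ← hl, ← hq] at hE1
  rw [← hl] at hE2
  rw [← hu] at hE3
  have hq1 : 1 ≤ q := by
    rw [hq]
    exact Real.one_le_rpow (by linarith) (by norm_num)
  have hqu : q * u = L := by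
    rw [hq, hu, ← Real.rpow_add hL0]
    norm_num
  have huP : u ≤ P := by
    rw [hu, hP]
    calc L ^ (1 / 4 : ℝ) ≤ (L + 1) ^ (1 / 4 : ℝ) :=
          Real.rpow_le_rpow hL0.le (by linarith) (by norm_num)
      _ ≤ _ := Real.rpow_le_rpow_of_exponent_le (by linarith) (by norm_num)
  have hK1 : 1 ≤ K := by
    rw [hK]
    linarith
  have hP1 : 1 ≤ P := by linarith
  have hP0 : 0 < P := by linarith
  have hl1 : 1 ≤ l := by linarith
  have hl0 : 0 < l := by linarith
  have hq0 : 0 < q := by linarith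
  have hlΛ : l ≤ L + 1 := by
    rw [hl]
    have := Real.log_le_sub_one_of_pos (by linarith : 0 < L + 1)
    linarith
  have hPl : 0 < P * l := by positivity
  obtain ⟨w, hw⟩ : ∃ w : ℝ, w = c₁ / (P * l) := ⟨_, rfl⟩
  have hw0 : 0 < w := by
    rw [hw]
    positivity
  have hwPl : w * (P * l) = c₁ := by
    rw [hw]
    field_simp
  -- `4 / w ≤ q`
  have hF1 : 4 / w ≤ q := by
    have e1 : 4 / c₁ * (P * l) ≤ K * (P * l) := mul_le_mul_of_nonneg_right (by
      rw [hK]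
      linarith) hPl.le
    have e2 : 4 / w = 4 / c₁ * (P * l) := by
      rw [hw]
      field_simp
    rw [e2]
    exact e1.trans hE1
  have hF1' : 4 ≤ q * w := by
    rwa [div_le_iff₀ hw0] at hF1
  have hqn : L ^ (-(3 / 4) : ℝ) = 1 / q := by
    rw [Real.rpow_neg hL0.le, hq, one_div]
  have hF1a : L ^ (-(3 / 4) : ℝ) ≤ w / 4 := by
    rw [hqn, div_le_div_iff₀ hq0 (by norm_num)]
    linarith
  -- `w ≤ 1/2`
  have hF2 : w ≤ 1 / 2 := by
    have e1 : 2 * c₁ ≤ l := by
      refine le_trans ?_ hE2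
      rw [hK]
      linarith
    rw [hw, div_le_div_iff₀ hPl (by norm_num)]
    have e2 : l ≤ P * l := le_mul_of_one_le_left hl0.le hP1
    linarith
  -- `4 / w + Cv ≤ L`
  have hF3 : 4 / w + Cv ≤ L := by
    have e1 : 1 + Cv ≤ u := by
      refine le_trans ?_ hE3
      rw [hK]
      linarith
    have e2 : q * (1 + Cv) ≤ q * u := mul_le_mul_of_nonneg_left e1 hq0.le
    rw [hqu] at e2
    have e3 : Cv ≤ q * Cv := le_mul_of_one_le_left hCv.le hq1
    linarith
  -- `exp κ * 8 / w ≤ L`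
  have hF9 : Real.exp κ * 8 ≤ L * w := by
    have e1 : 2 * Real.exp κ ≤ u := by
      refine le_trans ?_ hE3
      rw [hK]
      linarith
    have e2 : 4 * u ≤ q * w * u := mul_le_mul_of_nonneg_right hF1' (by linarith)
    have e3 : q * w * u = L * w := by
      rw [← hqu]
      ring
    rw [e3] at e2
    linarith
  have hexpκ : 1 ≤ Real.exp κ := Real.one_le_exp hκ0.le
  by_cases hcase : 1 + w / 4 ≤ s.re
  · -- to the right
    have hσ : 1 < s.re := by linarith
    have hlow := INVZ_lower s hσ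
    have hlow' : w / 8 ≤ ‖riemannZeta s‖ := (X6_low hw0 hcase hs2).trans hlow
    refine ⟨fun h0 => ?_, ?_, ?_⟩
    · rw [h0, norm_zero] at hlow'
      linarith
    · refine ((hld s hσ hs2).2.trans ?_).trans hF3
      have e1 : 1 / (s.re - 1) ≤ 1 / (w / 4) :=
        one_div_le_one_div_of_le (by linarith) (by linarith)
      have e2 : 1 / (w / 4) = 4 / w := by
        field_simp
      rw [e2] at e1
      linarith
    · have e1 : L * (w / 8) ≤ L * ‖riemannZeta s‖ := mul_le_mul_of_nonneg_left hlow' hL0.le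
      linarith
  · -- near the line
    push Not at hcase
    obtain ⟨t, ht⟩ : ∃ t : ℝ, t = s.im := ⟨_, rfl⟩
    obtain ⟨R, hR⟩ : ∃ R : ℝ, R = c₀ / (2 * P) := ⟨_, rfl⟩
    obtain ⟨s₀, hs₀⟩ : ∃ s₀ : ℂ, s₀ = ((1 + w / 4 : ℝ) : ℂ) + t * Complex.I := ⟨_, rfl⟩
    have hre : s₀.re = 1 + w / 4 := by simp [hs₀]
    have him : s₀.im = t := by simp [hs₀]
    have hR0 : 0 < R := by
      rw [hR]
      positivity
    have hR8 : R ≤ 1 / 8 := by
      rw [hR, div_le_div_iff₀ (by positivity) (by norm_num)]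
      linarith
    have hRP : R * (2 * P) = c₀ := by
      rw [hR]
      field_simp
    rw [← ht] at hs3 hs4
    have hexp1 : Real.exp L + 1 ≤ Real.exp (L + 1) := X6_exp hL0
    have hσ₀ : 1 < s₀.re := by
      rw [hre]
      linarith
    have hlow := INVZ_lower s₀ hσ₀
    have hlow' : w / 8 ≤ ‖riemannZeta s₀‖ :=
      (X6_low hw0 hre.symm.le (by rw [hre]; linarith)).trans hlow
    have hne0 : riemannZeta s₀ ≠ 0 := by
      intro h0
      rw [h0, norm_zero] at hlow'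
      linarith
    -- points of the disc
    have hdisc : ∀ z ∈ Metric.closedBall s₀ R, |z.im - t| ≤ R ∧ |z.re - (1 + w / 4)| ≤ R := by
      intro z hz
      rw [mem_closedBall_iff_norm] at hz
      have e1 := (Complex.abs_im_le_norm (z - s₀)).trans hz
      have e2 := (Complex.abs_re_le_norm (z - s₀)).trans hz
      rw [Complex.sub_im, him] at e1
      rw [Complex.sub_re, hre] at e2
      exact ⟨e1, e2⟩
    have himz : ∀ z ∈ Metric.closedBall s₀ R, 1 / 2 ≤ |z.im| ∧ |z.im| ≤ Real.exp (L + 1) := by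
      intro z hz
      have e1 := (hdisc z hz).1
      have e2 := abs_sub_abs_le_abs_sub t z.im
      rw [abs_sub_comm t z.im] at e2
      have e3 := abs_sub_abs_le_abs_sub z.im t
      constructor
      · linarith
      · linarith
    have hgrow : ∀ z ∈ Metric.closedBall s₀ R, ‖riemannZeta z‖ ≤ C * (L + 1) := by
      intro z hz
      have e1 := abs_le.1 (hdisc z hz).2
      refine hgr (L + 1) hLL₂ z ?_ (by linarith) (himz z hz).1 (himz z hz).2
      have e2 : c₀ * (L + 1) ^ (-(2 / 3) : ℝ) = 2 * R := by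
        rw [Real.rpow_neg (by linarith), ← hP, hR]
        field_simp
      rw [e2]
      linarith
    obtain ⟨M, hM⟩ : ∃ M : ℝ, M = A₃ * l := ⟨_, rfl⟩
    have hM0 : 0 ≤ M := by
      rw [hM]
      positivity
    have hMexp : (L + 1) ^ 3 ≤ Real.exp M := by
      have e1 : (L + 1) ^ 3 = Real.exp (3 * l) := by
        rw [hl, mul_comm, Real.exp_mul, Real.exp_log (by linarith)]
        norm_cast
      rw [e1]
      apply Real.exp_le_exp.2
      rw [hM]
      exact mul_le_mul_of_nonneg_right hA₃3 hl0.le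
    have hMbd : ∀ z ∈ Metric.closedBall s₀ R,
        ‖riemannZeta z‖ ≤ Real.exp M * ‖riemannZeta s₀‖ := by
      intro z hz
      refine (hgrow z hz).trans ?_
      have e1 : C * 2 ≤ L + 1 := by
        have : 2 * C ≤ l := by
          refine le_trans ?_ hE2
          rw [hK]
          linarith
        linarith
      have e2 : 1 ≤ (L + 1) * (w / 8) * 2 := by
        -- `q w ≥ 4`, `q ≤ L`
        have e3 : q ≤ L := by
          have : q * 1 ≤ q * u := mul_le_mul_of_nonneg_left (by linarith) hq0.le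
          linarith
        have e4 : q * w ≤ L * w := mul_le_mul_of_nonneg_right e3 hw0.le
        linarith
      have e5 : C * (L + 1) ≤ (L + 1) ^ 3 * (w / 8) := by
        calc C * (L + 1) = C * (L + 1) * 1 := (mul_one _).symm
          _ ≤ C * (L + 1) * ((L + 1) * (w / 8) * 2) :=
            mul_le_mul_of_nonneg_left e2 (by positivity)
          _ = (C * 2) * ((L + 1) * ((L + 1) * (w / 8))) := by ring
          _ ≤ (L + 1) * ((L + 1) * ((L + 1) * (w / 8))) :=
            mul_le_mul_of_nonneg_right e1 (by positivity)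
          _ = _ := by ring
      exact e5.trans (mul_le_mul hMexp hlow' (by positivity) (Real.exp_pos _).le)
    have han : AnalyticOnNhd ℂ riemannZeta (Metric.closedBall s₀ R) := by
      intro z hz
      have hz1 : z ≠ 1 := by
        rintro rfl
        have := (himz 1 hz).1
        rw [Complex.one_im, abs_zero] at this
        linarith
      have hd : DifferentiableOn ℂ riemannZeta {1}ᶜ := fun y hy =>
        (differentiableAt_riemannZeta hy).differentiableWithinAt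
      exact hd.analyticAt (isOpen_compl_singleton.mem_nhds hz1)
    have hzer : ∀ ρ : ℂ, ‖ρ - s₀‖ ≤ R / 2 → riemannZeta ρ = 0 →
        ρ.re ≤ s₀.re - 2 * (5 * w / 8) := by
      intro ρ hρ h0
      have hρ' : ρ ∈ Metric.closedBall s₀ R := by
        rw [mem_closedBall_iff_norm]
        linarith
      have e1 := hzf (L + 1) hLL₁ ρ h0 (himz ρ hρ').2
      rw [← hP, ← hl, ← hw] at e1
      rw [hre]
      linarith
    have h2r : 2 * (5 * w / 8) ≤ R / 4 := by
      have e1 : 10 * c₁ / c₀ ≤ l := by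
        refine le_trans ?_ hE2
        rw [hK]
        linarith
      rw [div_le_iff₀ hc₀] at e1
      have e2 : 2 * (5 * w / 8) * (8 * (P * l)) ≤ R / 4 * (8 * (P * l)) := by
        have e3 : 2 * (5 * w / 8) * (8 * (P * l)) = 10 * (w * (P * l)) := by ring
        have e4 : R / 4 * (8 * (P * l)) = R * (2 * P) * l := by ring
        rw [e3, e4, hwPl, hRP]
        linarith
      exact le_of_mul_le_mul_right e2 (by positivity)
    have hMR : (M + 1) / R = (M + 1) * (2 * P) / c₀ := by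
      rw [hR, div_div_eq_mul_div]
    have hder : ‖deriv riemannZeta s₀ / riemannZeta s₀‖ ≤ (M + 1) / R := by
      refine (hld s₀ hσ₀ (by rw [hre]; linarith)).2.trans ?_
      have e1 : 1 / (s₀.re - 1) = 4 / c₁ * (P * l) := by
        rw [hre, add_sub_cancel_left, hw]
        field_simp
      have e2 : (M + 1) * (2 * P) / c₀ = A₃ * 2 / c₀ * (P * l) + 2 * P / c₀ := by
        rw [hM]
        ring
      rw [e1, hMR, e2]
      have e3 : 4 / c₁ ≤ A₃ * 2 / c₀ := by
        rw [hA₃]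
        have e4 : (3 + 2 * c₀ / c₁) * 2 / c₀ = 6 / c₀ + 4 / c₁ := by
          field_simp
          ring
        rw [e4]
        have : 0 < 6 / c₀ := by positivity
        linarith
      have e5 : 4 / c₁ * (P * l) ≤ A₃ * 2 / c₀ * (P * l) := mul_le_mul_of_nonneg_right e3 hPl.le
      have e6 : Cv ≤ 2 * P / c₀ := by
        rw [le_div_iff₀ hc₀]
        have e7 : Cv ≤ P := by
          refine le_trans ?_ (hE3.trans huP)
          rw [hK]
          linarith
        have e8 : Cv * c₀ ≤ Cv * 1 := mul_le_mul_of_nonneg_left (by linarith) hCv.le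
        linarith
      linarith
    have hsball : s ∈ Metric.closedBall s₀ (5 * w / 8) := by
      rw [mem_closedBall_iff_norm]
      have h1 : s - s₀ = ((s.re - (1 + w / 4) : ℝ) : ℂ) := by
        apply Complex.ext
        · rw [Complex.sub_re, hre, Complex.ofReal_re]
        · rw [Complex.sub_im, him, ht, Complex.ofReal_im, sub_self]
      rw [h1, Complex.norm_real, Real.norm_eq_abs, abs_le]
      constructor
      · linarith
      · linarith
    obtain ⟨hn, hd2, hd3⟩ := hloc riemannZeta s₀ R M (5 * w / 8) hR0 hM0 (by positivity) h2r han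
      hne0 hMbd hzer hder s hsball
    have hM1 : M + 1 ≤ (A₃ + 1) * l := by
      rw [hM]
      linarith
    refine ⟨hn, hd2.trans ?_, ?_⟩
    · have e1 : A * (M + 1) / R ≤ 2 * A * (A₃ + 1) / c₀ * (P * l) := by
        have e2 : A * (M + 1) / R = 2 * A * (M + 1) / c₀ * P := by
          rw [mul_div_assoc, hMR]
          ring
        have e3 : 2 * A * (A₃ + 1) / c₀ * (P * l) = 2 * A * ((A₃ + 1) * l) / c₀ * P := by ring
        rw [e2, e3]
        refine mul_le_mul_of_nonneg_right ?_ hP0.le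
        refine div_le_div_of_nonneg_right ?_ hc₀.le
        exact mul_le_mul_of_nonneg_left hM1 (by positivity)
      refine e1.trans ?_
      have e2 : 2 * A * (A₃ + 1) / c₀ * (P * l) ≤ K * (P * l) := mul_le_mul_of_nonneg_right (by
        rw [hK]
        linarith) hPl.le
      have e3 : q ≤ L := by
        have : q * 1 ≤ q * u := mul_le_mul_of_nonneg_left (by linarith) hq0.le
        linarith
      exact (e2.trans hE1).trans e3
    · have e1 : A * (M + 1) * (5 * w / 8) / R ≤ κ := by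
        have e2 : A * (M + 1) * (5 * w / 8) / R ≤ A * ((A₃ + 1) * l) * (5 * w / 8) / R := by
          refine div_le_div_of_nonneg_right ?_ hR0.le
          refine mul_le_mul_of_nonneg_right ?_ (by positivity)
          exact mul_le_mul_of_nonneg_left hM1 hA.le
        refine e2.trans (le_of_eq ?_)
        rw [hκ, ← hwPl, hR]
        field_simp
        ring
      have e2 : ‖riemannZeta s₀‖ ≤ Real.exp κ * ‖riemannZeta s‖ :=
        hd3.trans (mul_le_mul_of_nonneg_right (Real.exp_le_exp.2 e1) (norm_nonneg _))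
      have e3 : w / 8 ≤ Real.exp κ * ‖riemannZeta s‖ := hlow'.trans e2
      have e4 : Real.exp κ * 1 ≤ Real.exp κ * (L * ‖riemannZeta s‖) := by
        calc Real.exp κ * 1 = Real.exp κ := mul_one _
          _ ≤ L * (w / 8) := by linarith
          _ ≤ L * (Real.exp κ * ‖riemannZeta s‖) := mul_le_mul_of_nonneg_left e3 hL0.le
          _ = _ := by ring
      exact le_of_mul_le_mul_left e4 (Real.exp_pos _)

end Pool.Agent.Lib.H31X
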