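import Pool.Agent.Lib.H31X.X6

/-!
# Chunk X7 (M): the two analytic functions on the rectangle `Rl L`
-/

open Finset

namespace Pool.Agent.Lib.H31X

open Pool.Agent.Lib.H68T

private theorem X7_Z_ne {s : ℂ} (h1 : s ≠ 1) (h2 : riemannZeta s ≠ 0) : gl2_Z s ≠ 0 := by
  rw [gl2_Z_eq s h1]
  exact mul_ne_zero (sub_ne_zero.2 h1) h2

private theorem X7_ne_one {s : ℂ} (h : 1 ≤ |s.im|) : s ≠ 1 := by
  rintro rfl
  norm_num at h

private theorem X7_logDeriv {s : ℂ} (hs1 : s ≠ 1) (hz : riemannZeta s ≠ 0) :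
    deriv gl2_Z s / gl2_Z s = 1 / (s - 1) + deriv riemannZeta s / riemannZeta s := by
  have h1 : gl2_Z =ᶠ[nhds s] fun z => (z - 1) * riemannZeta z := by
    filter_upwards [isOpen_compl_singleton.mem_nhds (show s ∈ ({1}ᶜ : Set ℂ) from hs1)] with z hz
    exact gl2_Z_eq z hz
  have h2 := (logDeriv_congr_nhds h1).eq_of_nhds
  rw [← logDeriv_apply, ← logDeriv_apply, h2, logDeriv_mul (f := fun z : ℂ => z - 1)
    (g := riemannZeta) s (sub_ne_zero.2 hs1) hz (by fun_prop) (differentiableAt_riemannZeta hs1)]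
  have h3 : logDeriv (fun z : ℂ => z - 1) s = 1 / (s - 1) := by
    rw [logDeriv_apply]
    simp
  rw [h3]

private theorem X7_small (δ : ℝ) (hδ : 0 < δ) {L : ℝ} (hL1 : 1 ≤ L) (hL : δ ^ (-(4 / 3) : ℝ) ≤ L) :
    L ^ (-(3 / 4) : ℝ) ≤ δ ∧ L ^ (-(3 / 4) : ℝ) ≤ 1 := by
  constructor
  · have h1 : 0 < δ ^ (-(4 / 3) : ℝ) := Real.rpow_pos_of_pos hδ _
    have h2 := Real.rpow_le_rpow_of_nonpos h1 hL (by norm_num : (-(3 / 4) : ℝ) ≤ 0)
    rw [← Real.rpow_mul hδ.le] at h2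
    norm_num at h2
    norm_num
    exact h2
  · exact Real.rpow_le_one_of_one_le_of_nonpos hL1 (by norm_num)

/-- **Low part**, `|Im s| ≤ 1`: `gl2_Z` has no zero on the compact set `1 - δ/2 ≤ Re s ≤ 2`, `|Im s| ≤ 1`
(`zf3_low`, `riemannZeta_ne_zero_of_one_le_re`, `gl2_Z_one`, `lab3_Z_zero`); continuity and compactness. -/
theorem inv_low : ∃ δ C : ℝ, 0 < δ ∧ 0 < C ∧ ∀ s : ℂ, 1 - δ ≤ s.re → s.re ≤ 2 → |s.im| ≤ 1 →
    gl2_Z s ≠ 0 ∧ ‖(gl2_Z s)⁻¹‖ ≤ C ∧ ‖deriv gl2_Z s / gl2_Z s‖ ≤ C := by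
  obtain ⟨δ, hδ, h0⟩ := zf3_low
  have hK : IsCompact (Set.Icc (1 - δ / 2) 2 ×ℂ Set.Icc (-1) 1) := isCompact_Icc.reProdIm isCompact_Icc
  have hne : ∀ s ∈ Set.Icc (1 - δ / 2) 2 ×ℂ Set.Icc (-1) 1, gl2_Z s ≠ 0 := by
    intro s hs h
    rw [Complex.mem_reProdIm] at hs
    have h1 := h0 s (lab3_Z_zero s h) (abs_le.2 hs.2)
    have h2 := hs.1.1
    linarith
  have hZc : Continuous gl2_Z := gl2_Z_differentiable.continuous
  have hdc : Continuous (deriv gl2_Z) :=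
    (gl2_Z_differentiable.contDiff (n := 1)).continuous_deriv le_rfl
  obtain ⟨C₁, hC₁⟩ := hK.exists_bound_of_continuousOn (f := fun s => (gl2_Z s)⁻¹)
    (hZc.continuousOn.inv₀ hne)
  obtain ⟨C₂, hC₂⟩ := hK.exists_bound_of_continuousOn (f := fun s => deriv gl2_Z s / gl2_Z s)
    (hdc.continuousOn.div hZc.continuousOn hne)
  refine ⟨δ / 2, |C₁| + |C₂| + 1, by positivity, by positivity, fun s h1 h2 h3 => ?_⟩
  have hs : s ∈ Set.Icc (1 - δ / 2) 2 ×ℂ Set.Icc (-1) 1 := by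
    rw [Complex.mem_reProdIm]
    exact ⟨⟨h1, h2⟩, abs_le.1 h3⟩
  have e1 := le_abs_self C₁
  have e2 := le_abs_self C₂
  have e3 := abs_nonneg C₁
  have e4 := abs_nonneg C₂
  exact ⟨hne s hs, (hC₁ s hs).trans (by linarith), (hC₂ s hs).trans (by linarith)⟩

/-- `g = (s-1)/gl2_Z s` (as in `inv_zeta`, file `H68T/INVZ.lean`). -/
theorem inv_mu : ∃ L₀ : ℝ, 3 ≤ L₀ ∧ ∀ L : ℝ, L₀ ≤ L → ∃ g : ℂ → ℂ, AnalyticOnNhd ℂ g (Rl L) ∧
    (∀ s : ℂ, 1 < s.re → g s = LSeries (fun n => (ArithmeticFunction.moebius n : ℂ)) s) ∧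
    ∀ s ∈ Rl L, ‖g s‖ ≤ L := by
  obtain ⟨δ, C, hδ, hC, hlow⟩ := inv_low
  obtain ⟨L₁, hL₁, hhigh⟩ := inv_high
  refine ⟨L₁ + 2 * C + δ ^ (-(4 / 3) : ℝ), ?_, fun L hL => ⟨fun s => (s - 1) / gl2_Z s, ?_, ?_, ?_⟩⟩
  · have : 0 < δ ^ (-(4 / 3) : ℝ) := Real.rpow_pos_of_pos hδ _
    linarith
  all_goals
    have hδ' : 0 < δ ^ (-(4 / 3) : ℝ) := Real.rpow_pos_of_pos hδ _
    obtain ⟨hη1, hη2⟩ := X7_small δ hδ (L := L) (by linarith) (by linarith)
    have hL₁L : L₁ ≤ L := by linarith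
  · intro s hs
    obtain ⟨h1, h2, h3⟩ := hs
    refine AnalyticAt.div (by fun_prop) (gl2_Z_differentiable.analyticAt s) ?_
    rcases le_total |s.im| 1 with h | h
    · exact (hlow s (by linarith) h2 h).1
    · exact X7_Z_ne (X7_ne_one h) (hhigh L hL₁L s h1 h2 h h3).1
  · intro s hs
    have hne1 : s ≠ 1 := by
      rintro rfl
      simp at hs
    have hsub : s - 1 ≠ 0 := sub_ne_zero.2 hne1
    have h1 := ArithmeticFunction.LSeries_zeta_mul_Lseries_moebius hs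
    rw [ArithmeticFunction.LSeries_zeta_eq_riemannZeta hs] at h1
    have e4 : (s - 1) / gl2_Z s = (riemannZeta s)⁻¹ := by
      rw [gl2_Z_eq s hne1, div_mul_eq_div_div, div_self hsub, one_div]
    simp only [e4]
    exact (eq_inv_of_mul_eq_one_right h1).symm
  · intro s hs
    obtain ⟨h1, h2, h3⟩ := hs
    rcases le_total |s.im| 1 with h | h
    · obtain ⟨-, h4, -⟩ := hlow s (by linarith) h2 h
      have h5 : ‖s - 1‖ ≤ 2 := by
        refine (Complex.norm_le_abs_re_add_abs_im _).trans ?_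
        rw [Complex.sub_re, Complex.sub_im, Complex.one_re, Complex.one_im, sub_zero]
        have h6 : |s.re - 1| ≤ 1 := abs_le.2 ⟨by linarith, by linarith⟩
        linarith
      simp only [div_eq_mul_inv]
      rw [norm_mul]
      have h6 : ‖s - 1‖ * ‖(gl2_Z s)⁻¹‖ ≤ 2 * C := mul_le_mul h5 h4 (norm_nonneg _) (by norm_num)
      linarith
    · obtain ⟨h4, -, h5⟩ := hhigh L hL₁L s h1 h2 h h3
      have hne1 := X7_ne_one h
      have hsub : s - 1 ≠ 0 := sub_ne_zero.2 hne1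
      have e4 : (s - 1) / gl2_Z s = (riemannZeta s)⁻¹ := by
        rw [gl2_Z_eq s hne1, div_mul_eq_div_div, div_self hsub, one_div]
      simp only [e4]
      rw [norm_inv]
      exact inv_le_of_inv_le₀ (by linarith) ((inv_le_iff_one_le_mul₀' (by linarith)).2 h5)

/-- `g = -gl2_Z'/gl2_Z = -ζ'/ζ - 1/(s-1)` (as in `zeta_stmt`, file `H68T/INVZ.lean`). -/
theorem inv_lam : ∃ L₀ : ℝ, 3 ≤ L₀ ∧ ∀ L : ℝ, L₀ ≤ L → ∃ g : ℂ → ℂ, AnalyticOnNhd ℂ g (Rl L) ∧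
    (∀ s : ℂ, 1 < s.re → g s = LSeries (fun n => (ArithmeticFunction.vonMangoldt n : ℂ)) s -
      1 / (s - 1)) ∧ ∀ s ∈ Rl L, ‖g s‖ ≤ L + 1 := by
  obtain ⟨δ, C, hδ, hC, hlow⟩ := inv_low
  obtain ⟨L₁, hL₁, hhigh⟩ := inv_high
  refine ⟨L₁ + C + δ ^ (-(4 / 3) : ℝ), ?_, fun L hL =>
    ⟨fun s => -(deriv gl2_Z s / gl2_Z s), ?_, ?_, ?_⟩⟩
  · have : 0 < δ ^ (-(4 / 3) : ℝ) := Real.rpow_pos_of_pos hδ _
    linarith
  all_goals
    have hδ' : 0 < δ ^ (-(4 / 3) : ℝ) := Real.rpow_pos_of_pos hδ _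
    obtain ⟨hη1, hη2⟩ := X7_small δ hδ (L := L) (by linarith) (by linarith)
    have hL₁L : L₁ ≤ L := by linarith
  · intro s hs
    obtain ⟨h1, h2, h3⟩ := hs
    have han := gl2_Z_differentiable.analyticAt s
    refine (AnalyticAt.div han.deriv han ?_).neg
    rcases le_total |s.im| 1 with h | h
    · exact (hlow s (by linarith) h2 h).1
    · exact X7_Z_ne (X7_ne_one h) (hhigh L hL₁L s h1 h2 h h3).1
  · intro s hs
    rw [lab1_Z s hs, logDeriv_apply]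
    ring
  · intro s hs
    obtain ⟨h1, h2, h3⟩ := hs
    simp only [norm_neg]
    rcases le_total |s.im| 1 with h | h
    · obtain ⟨-, -, h4⟩ := hlow s (by linarith) h2 h
      linarith
    · obtain ⟨h4, h5, -⟩ := hhigh L hL₁L s h1 h2 h h3
      rw [X7_logDeriv (X7_ne_one h) h4]
      refine (norm_add_le _ _).trans ?_
      have h6 : ‖1 / (s - 1)‖ ≤ 1 := by
        rw [norm_div, norm_one]
        have h7 : 1 ≤ ‖s - 1‖ := by
          have h8 := Complex.abs_im_le_norm (s - 1)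
          rw [Complex.sub_im, Complex.one_im, sub_zero] at h8
          linarith
        exact (div_le_one (by linarith)).2 h7
      linarith

end Pool.Agent.Lib.H31X
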